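import Pool.Agent.Lib.MP_7903c7_al.Trace

set_option autoImplicit false

namespace Pool.Agent.Lib.MP_7903c7_al

open scoped Classical
open Polynomial

lemma exists_lift_poly (n : ℕ) : ∃ f g : ℤ[X], f.natDegree < 2 * n + 2 ∧
    g.natDegree ≤ 2 * n + 2 ∧ derivative f = (X - X ^ 2) ^ n * g ∧
    ∃ q : ℤ[X], f = X + q * (X ^ 2 - X) := by
  have hc : IsCoprime (X : ℤ[X]) (X - 1) := ⟨1, -1, by ring⟩
  obtain ⟨a, b, hab⟩ : IsCoprime ((X : ℤ[X]) ^ (n + 1)) ((X - 1) ^ (n + 1)) := hc.pow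
  have hm1 : (X - 1 : ℤ[X]).Monic := monic_X_sub_C (1 : ℤ)
  have hd1 : (X - 1 : ℤ[X]).natDegree = 1 := natDegree_X_sub_C (1 : ℤ)
  have hm : (X ^ (n + 1) * (X - 1) ^ (n + 1) : ℤ[X]).Monic := (monic_X.pow _).mul (hm1.pow _)
  have hdeg : (X ^ (n + 1) * (X - 1) ^ (n + 1) : ℤ[X]).natDegree = 2 * n + 2 := by
    rw [(monic_X.pow _).natDegree_mul (hm1.pow _), natDegree_X_pow, hm1.natDegree_pow, hd1]
    ring
  set P : ℤ[X] := X ^ (n + 1) * (X - 1) ^ (n + 1) with hP
  set f := (a * X ^ (n + 1)) %ₘ P with hf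
  have hfd : f.natDegree < 2 * n + 2 := by
    rw [← hdeg]
    refine natDegree_modByMonic_lt _ hm ?_
    intro h1
    rw [h1, natDegree_one] at hdeg
    omega
  have e1 : f = a * X ^ (n + 1) - P * ((a * X ^ (n + 1)) /ₘ P) := by
    rw [hf, eq_sub_iff_add_eq, modByMonic_add_div]
  set d := (a * X ^ (n + 1)) /ₘ P
  have e2 : f = X ^ (n + 1) * (a - (X - 1) ^ (n + 1) * d) := by rw [e1, hP]; ring
  have e3 : f = 1 + (X - 1) ^ (n + 1) * (-b - X ^ (n + 1) * d) := by
    rw [e1, hP]; linear_combination hab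
  have d1 : (X : ℤ[X]) ^ n ∣ derivative f := by
    rw [e2, derivative_mul, derivative_X_pow, pow_succ]
    simp only [Nat.add_sub_cancel]
    exact Dvd.dvd.add (Dvd.dvd.mul_right (Dvd.intro_left _ rfl) _)
      (Dvd.dvd.mul_right (Dvd.intro _ rfl) _)
  have d2 : (X - 1 : ℤ[X]) ^ n ∣ derivative f := by
    rw [e3, derivative_add, derivative_one, zero_add, derivative_mul, derivative_pow, pow_succ]
    simp only [Nat.add_sub_cancel]
    exact Dvd.dvd.add (Dvd.dvd.mul_right (Dvd.dvd.mul_right (Dvd.intro_left _ rfl) _) _)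
      (Dvd.dvd.mul_right (Dvd.intro _ rfl) _)
  obtain ⟨g0, hg0⟩ := (hc.pow (m := n) (n := n)).mul_dvd d1 d2
  have e4 : derivative f = (X - X ^ 2) ^ n * ((-1) ^ n * g0) := by
    rw [hg0, ← mul_pow, ← mul_assoc, ← mul_pow]
    congr 2
    ring
  refine ⟨f, (-1) ^ n * g0, hfd, ?_, e4, ?_⟩
  · by_cases h0 : derivative f = 0
    · have h1 : (X - X ^ 2 : ℤ[X]) ≠ 0 := by
        intro h
        have := congrArg (eval 2) h
        simp at this
      rw [h0] at e4
      rw [(mul_eq_zero.mp e4.symm).resolve_left (pow_ne_zero _ h1)]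
      simp
    · have := natDegree_le_of_dvd (Dvd.intro_left _ e4.symm) h0
      have h2 := natDegree_derivative_le f
      omega
  · have k1 : (X : ℤ[X]) ∣ f - X := by
      refine Dvd.dvd.sub ?_ dvd_rfl
      rw [e2, pow_succ']
      exact Dvd.dvd.mul_right (Dvd.intro _ rfl) _
    have k2 : (X - 1 : ℤ[X]) ∣ f - X := by
      rw [e3, pow_succ']
      exact ⟨(X - 1) ^ n * (-b - X ^ (n + 1) * d) - 1, by ring⟩
    obtain ⟨q, hq⟩ := hc.mul_dvd k1 k2
    exact ⟨q, by rw [← sub_eq_iff_eq_add', hq]; ring⟩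

/-- Evaluation of integer polynomials in a ring. -/
noncomputable def pev {B : Type} [Ring B] (x : B) : ℤ[X] →+* B :=
  eval₂RingHom' (Int.castRingHom B) x (fun a => Int.cast_commute a x)

lemma pev_X {B : Type} [Ring B] (x : B) : pev x X = x := by
  show eval₂ _ x X = x
  simp

lemma pev_monomial {B : Type} [Ring B] (x : B) (i : ℕ) (a : ℤ) :
    pev x (monomial i a) = (a : B) * x ^ i := by
  show eval₂ _ x _ = _
  simp

lemma pev_sum {B : Type} [Ring B] (x : B) {f : ℤ[X]} {n : ℕ} (hn : f.natDegree < n) :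
    pev x f = ∑ i ∈ Finset.range n, (f.coeff i : B) * x ^ i :=
  eval₂_eq_sum_range' _ hn x

lemma map_pev {B B' : Type} [Ring B] [Ring B'] (φ : B →+* B') (x : B) (f : ℤ[X]) :
    φ (pev x f) = pev (φ x) f := by
  induction f using Polynomial.induction_on' with
  | add f g h1 h2 => rw [map_add, map_add, map_add, h1, h2]
  | monomial i a => simp [pev_monomial]

lemma exists_functional {M : Type} [AddCommGroup M] [Module.IsTorsionFree ℤ M] {F : Set M}
    (hF : F.Finite) (ζ : Submodule.span ℤ F) (q : ℤ)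
    (hq : ∀ z : Submodule.span ℤ F, ζ ≠ q • z) :
    ∃ μ : Submodule.span ℤ F →ₗ[ℤ] ℤ, ¬ q ∣ μ ζ := by
  have : Module.Finite ℤ (Submodule.span ℤ F) := Module.Finite.span_of_finite ℤ hF
  let b := Module.Free.chooseBasis ℤ (Submodule.span ℤ F)
  by_contra hcon
  push Not at hcon
  choose d hd using fun i => hcon (b.coord i)
  refine hq (∑ i, d i • b i) ?_
  rw [Finset.smul_sum]
  conv_lhs => rw [← b.sum_repr ζ]
  refine Finset.sum_congr rfl fun i _ => ?_
  rw [smul_smul, ← hd i]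
  rfl

section

variable {G Ω W : Type} [Group G] [MulAction G Ω] [CommRing W]
variable {I : Type} [Fintype I] [DecidableEq I]

/-- Paths through a bad arrow. -/
def Rb {V : Type} (A : Rl V G) (bad : G → V → Prop) (n : ℕ) : Rl V G :=
  fun v h v' => ∃ a b x σ x' h1 h2, a + b + 1 = n ∧ A.pw a v h1 x ∧ A x σ x' ∧ bad σ x ∧
    A.pw b x' h2 v' ∧ h = h1 * σ * h2

omit [DecidableEq I] in
lemma Supp.mul_Rb {a b : MA I G Ω W} {A : Rl (I × Ω) G} {bad : G → I × Ω → Prop} {m n : ℕ}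
    (Ha : Supp a (A.pw m)) (Hb : Supp b (Rb A bad n)) : Supp (a * b) (Rb A bad (m + n)) := by
  refine (Ha.mul Hb).mono ?_
  rintro v h v'' ⟨v', g1, g2, rfl, H1, a, b, x, σ, x', h1, h2, hab, k1, k2, k3, k4, rfl⟩
  exact ⟨m + a, b, x, σ, x', g1 * h1, h2, by omega, Rl.pw_add H1 k1, k2, k3, k4, by group⟩

omit [DecidableEq I] in
lemma Supp.Rb_mul {a b : MA I G Ω W} {A : Rl (I × Ω) G} {bad : G → I × Ω → Prop} {m n : ℕ}
    (Ha : Supp a (Rb A bad m)) (Hb : Supp b (A.pw n)) : Supp (a * b) (Rb A bad (m + n)) := by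
  refine (Ha.mul Hb).mono ?_
  rintro v h v'' ⟨v', g1, g2, rfl, ⟨a, b, x, σ, x', h1, h2, hab, k1, k2, k3, k4, rfl⟩, H1⟩
  exact ⟨a, b + n, x, σ, x', h1, h2 * g2, by omega, k1, k2, k3, Rl.pw_add k4 H1, by group⟩

lemma Supp.pow_sub_pow {a b : MA I G Ω W} {A : Rl (I × Ω) G} {bad : G → I × Ω → Prop} {m : ℕ}
    (Ha : Supp a (A.pw m)) (Hb : Supp b (A.pw m)) (H : Supp (a - b) (Rb A bad m)) (j : ℕ) :
    Supp (a ^ j - b ^ j) (Rb A bad (m * j)) := by
  induction j with
  | zero => simpa using Supp.zero _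
  | succ j ih =>
    have : a ^ (j + 1) - b ^ (j + 1) = (a - b) * a ^ j + b * (a ^ j - b ^ j) := by
      rw [pow_succ', pow_succ', sub_mul, mul_sub]; abel
    rw [this, show m * (j + 1) = m + m * j by ring]
    exact (H.Rb_mul (Ha.pow j)).add (Hb.mul_Rb ih)

lemma Supp.pev {a : MA I G Ω W} {A : Rl (I × Ω) G} (hA : ∀ v, A v 1 v) (Ha : Supp a (A.pw 1))
    {f : ℤ[X]} {n : ℕ} (hn : f.natDegree ≤ n) : Supp (pev a f) (A.pw n) := by
  rw [pev_sum a (Nat.lt_succ_of_le hn)]
  refine Supp.sum _ fun i hi => Supp.intCast_mul ((Ha.pow i).mono fun v h v' H => ?_) _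
  exact Rl.pw_mono hA (by simp at hi; omega) H

omit [Group G] [MulAction G Ω] [Fintype I] [DecidableEq I] in
lemma wmul_add (wt : G → Ω → W) (a b : MA I G Ω W) : wmul wt (a + b) = wmul wt a + wmul wt b :=
  cf_ext fun i j h ω => by simp [cf_wmul, mul_add]

lemma wmul_intCast_mul (wt : G → Ω → W) (z : ℤ) (a : MA I G Ω W) :
    wmul wt ((z : MA I G Ω W) * a) = (z : MA I G Ω W) * wmul wt a :=
  cf_ext fun i j h ω => by
    rw [cf_wmul, cf_intCast_mul, cf_intCast_mul, cf_wmul]; ring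

lemma T_deriv (c : Cen G Ω) (wt : G → Ω → W) (good : G → Ω → Prop) (g1 : ∀ ω, good 1 ω)
    (w1 : ∀ ω, wt 1 ω = 0)
    (gm : ∀ h1 h2 ω, good h1 ω → good h2 (h1⁻¹ • ω) →
      good (h1 * h2) ω ∧ wt (h1 * h2) ω = wt h1 ω + wt h2 (h1⁻¹ • ω))
    {u : MA I G Ω W} (hu : ∀ i j h ω, cf u i j h ω ≠ 0 → good h ω) (f : ℤ[X]) :
    c.T (wmul wt (pev u f)) = c.T (pev u (derivative f) * wmul wt u) := by
  have leib : ∀ a b : MA I G Ω W, (∀ i j h ω, cf a i j h ω ≠ 0 → good h ω) →
      (∀ i j h ω, cf b i j h ω ≠ 0 → good h ω) →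
      (∀ i j h ω, cf (a * b) i j h ω ≠ 0 → good h ω) ∧
      wmul wt (a * b) = wmul wt a * b + a * wmul wt b := by
    intro a b ha hb
    constructor
    · intro i k h ω hne
      rw [cf_mul a b (lab a) (fun _ _ _ _ => mem_lab)] at hne
      obtain ⟨j, -, hj⟩ := Finset.exists_ne_zero_of_sum_ne_zero hne
      obtain ⟨h1, -, hh⟩ := Finset.exists_ne_zero_of_sum_ne_zero hj
      simpa using (gm _ _ _ (ha _ _ _ _ (left_ne_zero_of_mul hh))
        (hb _ _ _ _ (right_ne_zero_of_mul hh))).1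
    · refine cf_ext fun i k h ω => ?_
      rw [cf_wmul, cf_add, cf_mul a b (lab a) (fun _ _ _ _ => mem_lab),
        cf_mul a _ (lab a) (fun _ _ _ _ => mem_lab),
        cf_mul (wmul wt a) b (lab a) (fun _ _ _ _ H => mem_lab (right_ne_zero_of_mul H)),
        Finset.mul_sum, ← Finset.sum_add_distrib]
      refine Finset.sum_congr rfl fun j _ => ?_
      rw [Finset.mul_sum, ← Finset.sum_add_distrib]
      refine Finset.sum_congr rfl fun h1 _ => ?_
      rw [cf_wmul, cf_wmul]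
      by_cases h0 : cf a i j h1 ω * cf b j k (h1⁻¹ * h) (h1⁻¹ • ω) = 0
      · linear_combination (wt h ω - wt h1 ω - wt (h1⁻¹ * h) (h1⁻¹ • ω)) * h0
      · have := (gm _ _ _ (ha _ _ _ _ (left_ne_zero_of_mul h0))
          (hb _ _ _ _ (right_ne_zero_of_mul h0))).2
        rw [mul_inv_cancel_left] at this
        rw [this]; ring
  have hpow : ∀ j : ℕ, ∀ i k h ω, cf (u ^ j) i k h ω ≠ 0 → good h ω := by
    intro j
    induction j with
    | zero =>
      intro i k h ω hne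
      rw [pow_zero, cf_one] at hne
      have : h = 1 := by
        by_contra h0
        simp [h0] at hne
      rw [this]; exact g1 ω
    | succ j ih => rw [pow_succ']; exact (leib _ _ hu ih).1
  have key : ∀ j i : ℕ, c.T (u ^ i * wmul wt (u ^ (j + 1))) =
      (j + 1 : ℕ) * c.T (u ^ (i + j) * wmul wt u) := by
    intro j
    induction j with
    | zero => intro i; simp
    | succ j ih =>
      intro i
      rw [pow_succ' u (j + 1), (leib _ _ hu (hpow _)).2, mul_add, map_add, ← mul_assoc,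
        c.T_mul_comm, ← mul_assoc, ← pow_add, ← mul_assoc, ← pow_succ, ih,
        show j + 1 + i = i + (j + 1) by ring, show i + 1 + j = i + (j + 1) by ring]
      push_cast; ring
  induction f using Polynomial.induction_on' with
  | add f g h1 h2 => rw [map_add, wmul_add, map_add, h1, h2, map_add, map_add, add_mul, map_add]
  | monomial i a =>
    rw [derivative_monomial, pev_monomial, pev_monomial, wmul_intCast_mul, c.T_intCast_mul,
      mul_assoc, c.T_intCast_mul]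
    rcases i with _ | j
    · have : wmul wt (u ^ 0) = 0 := by
        refine cf_ext fun i k h ω => ?_
        rw [cf_wmul, pow_zero, cf_one, cf_zero]
        split_ifs with h0
        · rw [h0.1, w1, zero_mul]
        · rw [mul_zero]
      rw [this]; simp
    · have := key j 0
      rw [pow_zero, one_mul, zero_add] at this
      rw [this]
      push_cast
      ring

theorem padic_vanish (c : Cen G Ω) {k : Type} [CommRing k] {p : ℕ} (hp : p.Prime) (π : W →+* k)
    (hsurj : Function.Surjective π) (hker : ∀ x, π x = 0 → ∃ y, x = p * y)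
    (htf : ∀ x : W, p * x = 0 → x = 0) {N : ℕ} (hN : (p : k) ^ N = 0)
    {M : Type} [AddCommGroup M] [Module.IsTorsionFree ℤ M] (w : G → Ω → M)
    (hw : ∀ h1 h2 ω, w (h1 * h2) ω = w h1 ω + w h2 (h1⁻¹ • ω)) (ζ : M)
    (hζ : ∀ ω, w (c.Z ω) ω = ζ) (O : AddSubgroup M) (hζO : ζ ∈ O) {s : ℕ}
    (hs : ∀ z ∈ O, ζ ≠ ((p : ℤ) ^ (s + 1)) • z) {e : MA I G Ω k} (he : e * e = e) {n : ℕ}
    (hn : s + N ≤ n)
    (hloop : ∀ a b x σ x' v h1 h2, a + b ≤ 4 * n + 4 → (gr e).pw a v h1 x → gr e x σ x' →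
      (gr e).pw b x' h2 v → h1 * σ * h2 = c.Z v.2 → w σ x.2 ∈ O) :
    c.T e = 0 := by
  have w1 : ∀ ω, w 1 ω = 0 := by
    intro ω
    have := hw 1 1 ω
    simpa using this
  -- the finitely generated weight group
  set F : Set M := insert ζ {z | ∃ a b x σ x' v h1 h2, a + b ≤ 4 * n + 4 ∧ (gr e).pw a v h1 x ∧
    gr e x σ x' ∧ (gr e).pw b x' h2 v ∧ h1 * σ * h2 = c.Z v.2 ∧ z = w σ x.2} with hF
  have hFfin : F.Finite := by
    refine Set.Finite.insert _ ?_
    have f1 := gr_pw_finite e (4 * n + 5)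
    have f2 : (c.Z ⁻¹' {h : G | ∃ v v', (gr e).pw (4 * n + 5) v h v'}).Finite :=
      f1.preimage c.inj.injOn
    refine ((f1.prod (f1.prod f2)).image
      (fun t : G × G × Ω => w t.1 (t.2.1⁻¹ • t.2.2))).subset ?_
    rintro z ⟨a, b, x, σ, x', v, h1, h2, hab, k1, k2, k3, k4, rfl⟩
    refine ⟨(σ, h1, v.2), ⟨⟨x, x', Rl.pw_mono (gr_refl e) (by omega) (Rl.pw_one k2)⟩,
      ⟨v, x, Rl.pw_mono (gr_refl e) (by omega) k1⟩, v, v, ?_⟩, ?_⟩
    · rw [← k4]
      exact Rl.pw_mono (gr_refl e) (by omega) (Rl.pw_add (Rl.pw_add k1 (Rl.pw_one k2)) k3)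
    · simp only
      rw [gr_pw_snd k1]
  have hFO : Submodule.span ℤ F ≤ O.toIntSubmodule := by
    rw [Submodule.span_le]
    rintro z (rfl | ⟨a, b, x, σ, x', v, h1, h2, hab, k1, k2, k3, k4, rfl⟩)
    · exact hζO
    · exact hloop a b x σ x' v h1 h2 hab k1 k2 k3 k4
  have hζF : ζ ∈ Submodule.span ℤ F := Submodule.subset_span (Set.mem_insert _ _)
  obtain ⟨μ, hμ⟩ := exists_functional hFfin ⟨ζ, hζF⟩ ((p : ℤ) ^ (s + 1))
    (fun z hz => hs z (hFO z.2) (congrArg Subtype.val hz))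
  set bad : G → I × Ω → Prop := fun σ x => w σ x.2 ∉ Submodule.span ℤ F with hbad
  have hTR : ∀ (j : ℕ) (a : MA I G Ω W), j ≤ 4 * n + 5 → Supp a (Rb (gr e) bad j) →
      c.T a = 0 := by
    intro j a hj Ha
    refine c.T_eq_zero_of_supp Ha ?_
    rintro v ⟨a, b, x, σ, x', h1, h2, hab, k1, k2, k3, k4, k5⟩
    exact k3 (Submodule.subset_span (Set.mem_insert_of_mem _
      ⟨a, b, x, σ, x', v, h1, h2, by omega, k1, k2, k4, k5.symm, rfl⟩))
  -- the lift
  set sec : k → W := fun x => if x = 0 then 0 else (hsurj x).choose with hsec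
  have sec0 : sec 0 = 0 := by simp [hsec]
  have hπsec : ∀ x, π (sec x) = x := by
    intro x
    by_cases h0 : x = 0
    · simp [hsec, h0]
    · simp only [hsec, if_neg h0]
      exact (hsurj x).choose_spec
  set E : MA I G Ω W := cmap sec sec0 e with hE
  have hπE : mapHom π E = e := cf_ext fun i j h ω => by rw [cf_mapHom, cf_cmap, hπsec]
  have sE : Supp E ((gr e).pw 1) := ((supp_gr e).cmap _ _).mono fun _ _ _ H => Rl.pw_one H
  set u : MA I G Ω W := wmul (fun h ω => if w h ω ∈ Submodule.span ℤ F then 1 else 0) E with hu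
  have su : Supp u ((gr e).pw 1) := sE.wmul _
  have ugood : ∀ i j h ω, cf u i j h ω ≠ 0 → w h ω ∈ Submodule.span ℤ F := by
    intro i j h ω hne
    by_contra h0
    apply hne
    rw [cf_wmul, if_neg h0, zero_mul]
  have sr : Supp (E - u) (Rb (gr e) bad 1) := by
    intro i j h ω hne
    rw [cf_sub, cf_wmul] at hne
    have h1 : w h ω ∉ Submodule.span ℤ F := by
      intro h0
      apply hne
      rw [if_pos h0]; ring
    have h2 : cf E i j h ω ≠ 0 := by
      intro h0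
      apply hne
      rw [h0]; ring
    exact ⟨0, 0, (i, ω), h, (j, h⁻¹ • ω), 1, 1, rfl, ⟨rfl, rfl⟩,
      ((supp_gr e).cmap sec sec0) _ _ _ _ h2, h1, ⟨rfl, rfl⟩, by simp⟩
  -- division by `p`
  set dv : W → W := fun x => if H : x ≠ 0 ∧ ∃ y, x = p * y then H.2.choose else 0 with hdv
  have dv0 : dv 0 = 0 := by simp [hdv]
  have hdvp : ∀ x, π x = 0 → x = p * dv x := by
    intro x hx
    by_cases h0 : x = 0
    · rw [h0, dv0, mul_zero]
    · have H : x ≠ 0 ∧ ∃ y, x = p * y := ⟨h0, hker x hx⟩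
      simp only [hdv, dif_pos H]
      exact H.2.choose_spec
  have s12 : ∀ a : MA I G Ω W, Supp a ((gr e).pw 1) → Supp (a - a ^ 2) ((gr e).pw 2) :=
    fun a Ha => (Ha.mono fun _ _ _ H => Rl.pw_mono (gr_refl e) (by omega) H).sub (Ha.pow 2)
  set y : MA I G Ω W := cmap dv dv0 (E - E ^ 2) with hy
  have sy : Supp y ((gr e).pw 2) := (s12 E sE).cmap _ _
  have hEy : E - E ^ 2 = ((p : ℤ) : MA I G Ω W) * y := by
    refine cf_ext fun i j h ω => ?_
    rw [cf_intCast_mul, hy, cf_cmap, Int.cast_natCast]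
    apply hdvp
    rw [← cf_mapHom, map_sub, map_pow, hπE, pow_two, he, sub_self, cf_zero]
  have sr2 : Supp ((u - u ^ 2) - (E - E ^ 2)) (Rb (gr e) bad 2) := by
    have : (u - u ^ 2) - (E - E ^ 2) = (E ^ 2 - u ^ 2) - (E - u) * 1 := by rw [mul_one]; abel
    rw [this]
    refine (sE.pow_sub_pow su sr 2).sub (sr.Rb_mul (n := 1) ?_)
    exact (Supp.one _).mono fun _ _ _ H => Rl.pw_mono (gr_refl e) (by omega) H
  obtain ⟨f, g, hf, hg, hfg, q, hq⟩ := exists_lift_poly n
  set wt : G → Ω → W := fun h ω =>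
    if H : w h ω ∈ Submodule.span ℤ F then ((μ ⟨_, H⟩ : ℤ) : W) else 0 with hwt
  have k1 : c.T (wmul wt (pev u f)) = c.T (pev u (derivative f) * wmul wt u) := by
    refine T_deriv c wt (fun h ω => w h ω ∈ Submodule.span ℤ F) ?_ ?_ ?_ ugood f
    · intro ω
      rw [w1]; exact Submodule.zero_mem _
    · intro ω
      have H : w 1 ω ∈ Submodule.span ℤ F := by rw [w1]; exact Submodule.zero_mem _
      have : (⟨w 1 ω, H⟩ : Submodule.span ℤ F) = 0 := Subtype.ext (w1 ω)
      simp only [hwt, dif_pos H, this, map_zero, Int.cast_zero]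
    · intro h1 h2 ω H1 H2
      have H : w (h1 * h2) ω ∈ Submodule.span ℤ F := by
        rw [hw]; exact Submodule.add_mem _ H1 H2
      refine ⟨H, ?_⟩
      have : (⟨w (h1 * h2) ω, H⟩ : Submodule.span ℤ F) = ⟨_, H1⟩ + ⟨_, H2⟩ :=
        Subtype.ext (hw _ _ _)
      simp only [hwt, dif_pos H, dif_pos H1, dif_pos H2, this, map_add, Int.cast_add]
  have k2 : c.T (wmul wt (pev u f)) = ((μ ⟨ζ, hζF⟩ : ℤ) : W) * c.T (pev u f) := by
    refine c.T_wmul wt _ (fun ω => ?_) _
    have H : w (c.Z ω) ω ∈ Submodule.span ℤ F := by rw [hζ]; exact hζF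
    have : (⟨w (c.Z ω) ω, H⟩ : Submodule.span ℤ F) = ⟨ζ, hζF⟩ := Subtype.ext (hζ ω)
    simp only [hwt, dif_pos H, this]
  have k3 : c.T (pev u f) = c.T (pev E f) := by
    rw [← sub_eq_zero, ← map_sub, pev_sum u hf, pev_sum E hf, ← Finset.sum_sub_distrib, map_sum]
    refine Finset.sum_eq_zero fun i hi => ?_
    rw [← mul_sub, c.T_intCast_mul, ← neg_sub, map_neg,
      hTR _ _ (by simp at hi; omega) (sE.pow_sub_pow su sr i)]
    simp
  have k4 : π (c.T (pev E f)) = c.T e := by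
    rw [← c.T_mapHom, map_pev, hπE, hq, map_add, map_mul, map_sub, map_pow, pev_X, pow_two, he,
      sub_self, mul_zero, add_zero]
  have k5 : c.T (pev u (derivative f) * wmul wt u) =
      (p : W) ^ n * c.T (y ^ n * (pev u g * wmul wt u)) := by
    have sz : Supp (pev u g * wmul wt u) ((gr e).pw (2 * n + 2 + 1)) :=
      (su.pev (gr_refl e) hg).mul_pw (su.wmul _)
    have h1 := hTR _ _ (by omega)
      (((s12 u su).pow_sub_pow (s12 E sE) sr2 n).Rb_mul sz)
    rw [sub_mul, map_sub, sub_eq_zero] at h1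
    rw [hfg, map_mul (pev u), map_pow (pev u), map_sub (pev u), map_pow (pev u), pev_X, mul_assoc,
      h1, hEy,
      (Int.cast_commute _ y).mul_pow, mul_assoc, ← Int.cast_pow, c.T_intCast_mul]
    push_cast; ring
  rw [k2, k5, k3] at k1
  rw [← k4]
  set θ := c.T (pev E f)
  set η := c.T (y ^ n * (pev u g * wmul wt u))
  have hμ0 : μ ⟨ζ, hζF⟩ ≠ 0 := by
    intro h0
    exact hμ (by rw [h0]; exact dvd_zero _)
  have hpi : Prime (p : ℤ) := Nat.prime_iff_prime_int.mp hp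
  obtain ⟨j, r, hr, hjr⟩ := WfDvdMonoid.max_power_factor hμ0 hpi.irreducible
  have hjs : j ≤ s := by
    by_contra hlt
    exact hμ (by rw [hjr]; exact Dvd.dvd.mul_right (pow_dvd_pow _ (by omega)) _)
  have hcancel : ∀ (i : ℕ) (x : W), (p : W) ^ i * x = 0 → x = 0 := by
    intro i
    induction i with
    | zero => intro x hx; simpa using hx
    | succ i ih =>
      intro x hx
      rw [pow_succ', mul_assoc] at hx
      exact ih x (htf _ hx)
  obtain ⟨t, ht⟩ : ∃ t, n = j + N + t := ⟨n - j - N, by omega⟩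
  have k6 : (r : W) * θ = (p : W) ^ N * ((p : W) ^ t * η) := by
    rw [← sub_eq_zero]
    apply hcancel j
    rw [hjr, ht] at k1
    push_cast at k1
    linear_combination k1
  have k7 : (r : k) * π θ = 0 := by
    have := congrArg π k6
    simp only [map_mul, map_pow, map_natCast, map_intCast, hN, zero_mul] at this
    exact this
  obtain ⟨α, β, hαβ⟩ : IsCoprime ((p : ℤ) ^ N) r :=
    ((Prime.coprime_iff_not_dvd hpi).mpr hr).pow_left
  have k8 : (α : k) * (p : k) ^ N + β * r = 1 := by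
    have := congrArg (Int.cast : ℤ → k) hαβ
    push_cast at this
    exact this
  linear_combination (-π θ) * k8 + (β : k) * k7 + (α : k) * π θ * hN

end

end Pool.Agent.Lib.MP_7903c7_al
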