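import Mathlib

set_option autoImplicit false

namespace Pool.Agent.Lib.MP_7903c7_al

open scoped Classical

/-- Functions on `Ω` with values in `W`. -/
def Fn (Ω W : Type) : Type := Ω → W

instance (Ω W : Type) [CommRing W] : CommRing (Fn Ω W) := inferInstanceAs (CommRing (Ω → W))

section

variable {G Ω W : Type} [Group G] [MulAction G Ω] [CommRing W]

instance : MulSemiringAction G (Fn Ω W) where
  smul h f := fun ω => f (h⁻¹ • ω)
  one_smul f := by
    funext ω
    show f ((1 : G)⁻¹ • ω) = f ω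
    simp
  mul_smul a b f := by
    funext ω
    show f ((a * b)⁻¹ • ω) = f (b⁻¹ • a⁻¹ • ω)
    simp [mul_smul]
  smul_zero _ := rfl
  smul_add _ _ _ := rfl
  smul_one _ := rfl
  smul_mul _ _ _ := rfl

lemma Fn.smul_apply (h : G) (f : Fn Ω W) (ω : Ω) : (h • f) ω = f (h⁻¹ • ω) := rfl
lemma Fn.mul_apply (f f' : Fn Ω W) (ω : Ω) : (f * f') ω = f ω * f' ω := rfl
lemma Fn.add_apply (f f' : Fn Ω W) (ω : Ω) : (f + f') ω = f ω + f' ω := rfl
lemma Fn.sub_apply (f f' : Fn Ω W) (ω : Ω) : (f - f') ω = f ω - f' ω := rfl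
lemma Fn.neg_apply (f : Fn Ω W) (ω : Ω) : (-f) ω = - f ω := rfl
lemma Fn.zero_apply (ω : Ω) : (0 : Fn Ω W) ω = 0 := rfl
lemma Fn.one_apply (ω : Ω) : (1 : Fn Ω W) ω = 1 := rfl

/-- Evaluation at a point. -/
def Fn.ev (ω : Ω) : Fn Ω W →+* W where
  toFun f := f ω
  map_one' := rfl
  map_mul' _ _ := rfl
  map_zero' := rfl
  map_add' _ _ := rfl

lemma Fn.sum_apply {ι : Type} (s : Finset ι) (f : ι → Fn Ω W) (ω : Ω) :
    (∑ i ∈ s, f i) ω = ∑ i ∈ s, f i ω := map_sum (Fn.ev ω) f s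

end

/-- The skew group ring of `G` over the functions on `Ω`. -/
abbrev SA (G Ω W : Type) [CommRing W] : Type := SkewMonoidAlgebra (Fn Ω W) G

/-- Matrices over the skew group ring. -/
abbrev MA (I G Ω W : Type) [CommRing W] : Type := Matrix I I (SA G Ω W)

section

variable {G Ω W : Type} [Group G] [MulAction G Ω] [CommRing W]
variable {I : Type} [Fintype I] [DecidableEq I]

/-- Coefficient of a matrix at an arrow. -/
def cf (a : MA I G Ω W) (i j : I) (h : G) (ω : Ω) : W := (a i j).coeff h ω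

omit [Group G] [MulAction G Ω] [Fintype I] [DecidableEq I] in
lemma cf_ext {a b : MA I G Ω W} (H : ∀ i j h ω, cf a i j h ω = cf b i j h ω) : a = b := by
  ext i j h
  funext ω
  exact H i j h ω

omit [Group G] [MulAction G Ω] [Fintype I] [DecidableEq I] in
@[simp] lemma cf_add (a b : MA I G Ω W) (i j : I) (h : G) (ω : Ω) :
    cf (a + b) i j h ω = cf a i j h ω + cf b i j h ω := by
  simp [cf, Fn.add_apply]

omit [Group G] [MulAction G Ω] [Fintype I] [DecidableEq I] in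
@[simp] lemma cf_sub (a b : MA I G Ω W) (i j : I) (h : G) (ω : Ω) :
    cf (a - b) i j h ω = cf a i j h ω - cf b i j h ω := by
  simp [cf, Fn.sub_apply]

omit [Group G] [MulAction G Ω] [Fintype I] [DecidableEq I] in
@[simp] lemma cf_neg (a : MA I G Ω W) (i j : I) (h : G) (ω : Ω) :
    cf (-a) i j h ω = - cf a i j h ω := by
  simp [cf, Fn.neg_apply]

omit [Group G] [MulAction G Ω] [Fintype I] [DecidableEq I] in
@[simp] lemma cf_zero (i j : I) (h : G) (ω : Ω) :
    cf (0 : MA I G Ω W) i j h ω = 0 := by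
  simp [cf, Fn.zero_apply]

omit [MulAction G Ω] [Fintype I] in
lemma cf_one (i j : I) (h : G) (ω : Ω) :
    cf (1 : MA I G Ω W) i j h ω = if h = 1 ∧ i = j then 1 else 0 := by
  unfold cf
  by_cases hij : i = j
  · subst hij
    by_cases hh : h = 1
    · subst hh
      simp [Fn.one_apply]
    · simp [hh, Fn.zero_apply]
  · simp [hij, Matrix.one_apply_ne hij, Fn.zero_apply]

lemma cf_intCast_mul (z : ℤ) (a : MA I G Ω W) (i j : I) (h : G) (ω : Ω) :
    cf ((z : MA I G Ω W) * a) i j h ω = z * cf a i j h ω := by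
  induction z using Int.induction_on with
  | zero => simp
  | succ n ih => rw [Int.cast_add, Int.cast_one, add_mul, one_mul, cf_add, ih]; push_cast; ring
  | pred n ih => rw [Int.cast_sub, Int.cast_one, sub_mul, one_mul, cf_sub, ih]; push_cast; ring

/-- The finite set of labels of a matrix. -/
noncomputable def lab (a : MA I G Ω W) : Finset G :=
  Finset.univ.biUnion fun i => Finset.univ.biUnion fun j => (a i j).support

omit [Group G] [MulAction G Ω] [DecidableEq I] in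
lemma mem_lab {a : MA I G Ω W} {i j : I} {h : G} {ω : Ω} (H : cf a i j h ω ≠ 0) : h ∈ lab a := by
  simp only [lab, Finset.mem_biUnion, Finset.mem_univ, true_and]
  refine ⟨i, j, ?_⟩
  rw [SkewMonoidAlgebra.mem_support_iff]
  intro h0
  apply H
  simp [cf, h0, Fn.zero_apply]

omit [DecidableEq I] in
lemma cf_mul (a b : MA I G Ω W) (s : Finset G) (hs : ∀ i j h ω, cf a i j h ω ≠ 0 → h ∈ s)
    (i k : I) (h : G) (ω : Ω) :
    cf (a * b) i k h ω =
      ∑ j, ∑ h1 ∈ s, cf a i j h1 ω * cf b j k (h1⁻¹ * h) (h1⁻¹ • ω) := by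
  unfold cf
  rw [Matrix.mul_apply]
  have h1 : (∑ j, a i j * b j k).coeff = ∑ j, (a i j * b j k).coeff :=
    map_sum SkewMonoidAlgebra.coeffAddEquiv _ _
  rw [h1, Finsupp.finsetSum_apply, Fn.sum_apply]
  refine Finset.sum_congr rfl fun j _ => ?_
  rw [SkewMonoidAlgebra.coeff_mul_left, SkewMonoidAlgebra.sum_def', Fn.sum_apply]
  refine Finset.sum_subset ?_ ?_ |>.trans rfl
  · intro x hx
    rw [SkewMonoidAlgebra.mem_support_iff] at hx
    by_contra hxs
    apply hx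
    funext ω'
    by_contra hne
    exact hxs (hs i j x ω' hne)
  · intro x _ hx
    rw [SkewMonoidAlgebra.notMem_support_iff] at hx
    rw [hx, zero_mul]
    rfl

end

/-- Labelled relations. -/
def Rl (V G : Type) : Type := V → G → V → Prop

section

variable {V G : Type} [Group G]

/-- Composition of labelled relations. -/
def Rl.comp (A B : Rl V G) : Rl V G :=
  fun v h v'' => ∃ v' h1 h2, h = h1 * h2 ∧ A v h1 v' ∧ B v' h2 v''

/-- Paths of a given length. -/
def Rl.pw (A : Rl V G) : ℕ → Rl V G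
  | 0 => fun v h v' => h = 1 ∧ v = v'
  | n + 1 => A.comp (Rl.pw A n)

lemma Rl.pw_add {A : Rl V G} {m n : ℕ} {v v' v'' : V} {h h' : G}
    (H1 : A.pw m v h v') (H2 : A.pw n v' h' v'') : A.pw (m + n) v (h * h') v'' := by
  induction m generalizing v h with
  | zero =>
    obtain ⟨rfl, rfl⟩ := H1
    simpa using H2
  | succ m ih =>
    obtain ⟨u, h1, h2, rfl, Ha, Hb⟩ := H1
    rw [show m + 1 + n = (m + n) + 1 by ring]
    exact ⟨u, h1, h2 * h', by rw [mul_assoc], Ha, ih Hb⟩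

lemma Rl.pw_one {A : Rl V G} {v v' : V} {h : G} (H : A v h v') : A.pw 1 v h v' :=
  ⟨v', h, 1, by simp, H, rfl, rfl⟩

lemma Rl.pw_refl {A : Rl V G} (hA : ∀ v, A v 1 v) (n : ℕ) (v : V) : A.pw n v 1 v := by
  induction n with
  | zero => exact ⟨rfl, rfl⟩
  | succ n ih => exact ⟨v, 1, 1, by simp, hA v, ih⟩

lemma Rl.pw_mono {A : Rl V G} (hA : ∀ v, A v 1 v) {m n : ℕ} (hmn : m ≤ n) {v v' : V} {h : G}
    (H : A.pw m v h v') : A.pw n v h v' := by
  obtain ⟨k, rfl⟩ := Nat.exists_eq_add_of_le hmn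
  simpa using Rl.pw_add H (Rl.pw_refl hA k v')

lemma Rl.pw_map {V' : Type} {A : Rl V G} {B : Rl V' G} (π : V → V') {c : ℕ}
    (hAB : ∀ v h v', A v h v' → B.pw c (π v) h (π v')) {n : ℕ} {v v' : V} {h : G}
    (H : A.pw n v h v') : B.pw (c * n) (π v) h (π v') := by
  induction n generalizing v h with
  | zero =>
    obtain ⟨rfl, rfl⟩ := H
    exact ⟨rfl, rfl⟩
  | succ n ih =>
    obtain ⟨u, h1, h2, rfl, Ha, Hb⟩ := H
    rw [show c * (n + 1) = c + c * n by ring]
    exact Rl.pw_add (hAB _ _ _ Ha) (ih Hb)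

lemma Rl.pw_lip {A : Rl V G} (χ : V → ℝ) {β : ℝ}
    (hA : ∀ v h v', A v h v' → |χ v' - χ v| ≤ β) {n : ℕ} {v v' : V} {h : G}
    (H : A.pw n v h v') : |χ v' - χ v| ≤ n * β := by
  induction n generalizing v h with
  | zero =>
    obtain ⟨rfl, rfl⟩ := H
    simp
  | succ n ih =>
    obtain ⟨u, h1, h2, rfl, Ha, Hb⟩ := H
    have h3 := hA _ _ _ Ha
    have h4 := ih Hb
    have h5 := abs_add_le (χ v' - χ u) (χ u - χ v)
    rw [show χ v' - χ u + (χ u - χ v) = χ v' - χ v by ring] at h5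
    push_cast
    linarith

lemma Rl.pw_first {A : Rl V G} {n : ℕ} {v v' : V} {h : G}
    (H : A.pw n v h v') (hne : v ≠ v') : ∃ x s, x ≠ v ∧ A v s x := by
  induction n generalizing h with
  | zero => exact absurd H.2 hne
  | succ n ih =>
    obtain ⟨u, h1, h2, rfl, Ha, Hb⟩ := H
    by_cases hu : u = v
    · subst hu
      exact ih Hb
    · exact ⟨u, h1, hu, Ha⟩

lemma Rl.pw_last {A : Rl V G} {n : ℕ} {v v' : V} {h : G}
    (H : A.pw n v h v') (hne : v ≠ v') : ∃ x s, x ≠ v' ∧ A x s v' := by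
  induction n generalizing v h with
  | zero => exact absurd H.2 hne
  | succ n ih =>
    obtain ⟨u, h1, h2, rfl, Ha, Hb⟩ := H
    by_cases hu : u = v'
    · subst hu
      exact ⟨v, h1, hne, Ha⟩
    · exact ih Hb hu

end

section

variable {G Ω W : Type} [Group G] [MulAction G Ω] [CommRing W]
variable {I : Type} [Fintype I] [DecidableEq I]

/-- The matrix is supported on the labelled relation. -/
def Supp (a : MA I G Ω W) (A : Rl (I × Ω) G) : Prop :=
  ∀ i j h ω, cf a i j h ω ≠ 0 → A (i, ω) h (j, h⁻¹ • ω)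

omit [Fintype I] [DecidableEq I] in
lemma Supp.mono {a : MA I G Ω W} {A B : Rl (I × Ω) G} (H : Supp a A)
    (hAB : ∀ v h v', A v h v' → B v h v') : Supp a B :=
  fun i j h ω hne => hAB _ _ _ (H i j h ω hne)

omit [Fintype I] [DecidableEq I] in
lemma Supp.zero (A : Rl (I × Ω) G) : Supp (0 : MA I G Ω W) A :=
  fun _ _ _ _ hne => absurd (cf_zero _ _ _ _) hne

omit [Fintype I] [DecidableEq I] in
lemma Supp.add {a b : MA I G Ω W} {A : Rl (I × Ω) G} (Ha : Supp a A) (Hb : Supp b A) :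
    Supp (a + b) A := by
  intro i j h ω hne
  by_cases h0 : cf a i j h ω = 0
  · apply Hb
    intro h1
    apply hne
    simp [h0, h1]
  · exact Ha _ _ _ _ h0

omit [Fintype I] [DecidableEq I] in
lemma Supp.neg {a : MA I G Ω W} {A : Rl (I × Ω) G} (Ha : Supp a A) : Supp (-a) A := by
  intro i j h ω hne
  apply Ha
  simpa using hne

omit [Fintype I] [DecidableEq I] in
lemma Supp.sub {a b : MA I G Ω W} {A : Rl (I × Ω) G} (Ha : Supp a A) (Hb : Supp b A) :
    Supp (a - b) A := by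
  rw [sub_eq_add_neg]
  exact Ha.add Hb.neg

lemma Supp.intCast_mul {a : MA I G Ω W} {A : Rl (I × Ω) G} (Ha : Supp a A) (z : ℤ) :
    Supp ((z : MA I G Ω W) * a) A := by
  intro i j h ω hne
  apply Ha
  intro h0
  apply hne
  rw [cf_intCast_mul, h0, mul_zero]

omit [Fintype I] [DecidableEq I] in
lemma Supp.sum {ι : Type} (s : Finset ι) {a : ι → MA I G Ω W} {A : Rl (I × Ω) G}
    (Ha : ∀ x ∈ s, Supp (a x) A) : Supp (∑ x ∈ s, a x) A :=
  Finset.sum_induction _ (fun b => Supp b A) (fun _ _ => Supp.add) (Supp.zero A) Ha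

omit [Fintype I] in
lemma Supp.one (A : Rl (I × Ω) G) : Supp (1 : MA I G Ω W) (A.pw 0) := by
  intro i j h ω hne
  rw [cf_one] at hne
  by_cases hc : h = 1 ∧ i = j
  · obtain ⟨rfl, rfl⟩ := hc
    exact ⟨rfl, by simp⟩
  · simp [hc] at hne

omit [DecidableEq I] in
lemma Supp.mul {a b : MA I G Ω W} {A B : Rl (I × Ω) G} (Ha : Supp a A) (Hb : Supp b B) :
    Supp (a * b) (A.comp B) := by
  intro i k h ω hne
  rw [cf_mul a b (lab a) (fun _ _ _ _ => mem_lab)] at hne
  obtain ⟨j, -, hj⟩ := Finset.exists_ne_zero_of_sum_ne_zero hne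
  obtain ⟨h1, -, hh⟩ := Finset.exists_ne_zero_of_sum_ne_zero hj
  refine ⟨(j, h1⁻¹ • ω), h1, h1⁻¹ * h, by simp, Ha _ _ _ _ (left_ne_zero_of_mul hh), ?_⟩
  have := Hb _ _ _ _ (right_ne_zero_of_mul hh)
  simpa [mul_smul] using this

omit [DecidableEq I] in
lemma Supp.mul_pw {a b : MA I G Ω W} {A : Rl (I × Ω) G} {m n : ℕ} (Ha : Supp a (A.pw m))
    (Hb : Supp b (A.pw n)) : Supp (a * b) (A.pw (m + n)) := by
  refine (Ha.mul Hb).mono ?_
  rintro v h v'' ⟨v', h1, h2, rfl, H1, H2⟩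
  exact Rl.pw_add H1 H2

lemma Supp.pow {a : MA I G Ω W} {A : Rl (I × Ω) G} {m : ℕ} (Ha : Supp a (A.pw m)) (n : ℕ) :
    Supp (a ^ n) (A.pw (m * n)) := by
  induction n with
  | zero => simpa using Supp.one A
  | succ n ih => rw [pow_succ, mul_add, mul_one]; exact ih.mul_pw Ha

/-- The reflexive support graph of a matrix. -/
def gr (a : MA I G Ω W) : Rl (I × Ω) G :=
  fun v h v' => (h = 1 ∧ v = v') ∨ (v'.2 = h⁻¹ • v.2 ∧ cf a v.1 v'.1 h v.2 ≠ 0)

omit [Fintype I] [DecidableEq I] in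
lemma gr_refl (a : MA I G Ω W) (v : I × Ω) : gr a v 1 v := Or.inl ⟨rfl, rfl⟩

omit [Fintype I] [DecidableEq I] in
lemma supp_gr (a : MA I G Ω W) : Supp a (gr a) := fun _ _ _ _ hne => Or.inr ⟨rfl, hne⟩

omit [Fintype I] [DecidableEq I] in
lemma gr_snd {a : MA I G Ω W} {v v' : I × Ω} {h : G} (H : gr a v h v') : v'.2 = h⁻¹ • v.2 := by
  rcases H with ⟨rfl, rfl⟩ | ⟨H, -⟩
  · simp
  · exact H

omit [Fintype I] [DecidableEq I] in
lemma gr_pw_snd {a : MA I G Ω W} {n : ℕ} {v v' : I × Ω} {h : G} (H : (gr a).pw n v h v') :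
    v'.2 = h⁻¹ • v.2 := by
  induction n generalizing v h with
  | zero =>
    obtain ⟨rfl, rfl⟩ := H
    simp
  | succ n ih =>
    obtain ⟨u, h1, h2, rfl, Ha, Hb⟩ := H
    rw [ih Hb, gr_snd Ha, mul_inv_rev, mul_smul]

omit [DecidableEq I] in
lemma gr_lab {a : MA I G Ω W} {v v' : I × Ω} {h : G} (H : gr a v h v') :
    h ∈ insert 1 (lab a) := by
  rcases H with ⟨rfl, rfl⟩ | ⟨-, H⟩
  · simp
  · exact Finset.mem_insert_of_mem (mem_lab H)

omit [DecidableEq I] in
lemma gr_pw_finite (a : MA I G Ω W) (n : ℕ) :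
    {h : G | ∃ v v', (gr a).pw n v h v'}.Finite := by
  induction n with
  | zero => exact (Set.finite_singleton 1).subset (by rintro h ⟨v, v', rfl, -⟩; rfl)
  | succ n ih =>
    refine ((Finset.finite_toSet (insert 1 (lab a))).image2 (· * ·) ih).subset ?_
    rintro h ⟨v, v'', v', h1, h2, rfl, H1, H2⟩
    exact ⟨h1, gr_lab H1, h2, ⟨_, _, H2⟩, rfl⟩

end

end Pool.Agent.Lib.MP_7903c7_al
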