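import Pool.Agent.Lib.MP_7903c7_al.Trace

set_option autoImplicit false

namespace Pool.Agent.Lib.MP_7903c7_al

open scoped Classical
open Polynomial

lemma trace_deriv_pow {B k : Type} [Ring B] [CommRing k] (T : B[X] →+ k)
    (hT : ∀ a b, T (a * b) = T (b * a)) (u : B[X]) (j i : ℕ) :
    T (u ^ i * derivative (u ^ (j + 1))) = (j + 1 : ℕ) * T (u ^ (i + j) * derivative u) := by
  induction j generalizing i with
  | zero => simp
  | succ j ih =>
    rw [pow_succ' u (j + 1), derivative_mul, mul_add, map_add, ← mul_assoc, hT, ← mul_assoc,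
      ← pow_add, ← mul_assoc, ← pow_succ, ih, show j + 1 + i = i + (j + 1) by ring,
      show i + 1 + j = i + (j + 1) by ring]
    push_cast; ring

lemma trace_add_pow {B k : Type} [Ring B] [Field k] {p : ℕ} (hp : p.Prime) [CharP k p]
    (T : B →+ k) (hT : ∀ a b, T (a * b) = T (b * a)) (x y : B) :
    T ((x + y) ^ p) = T (x ^ p) + T (y ^ p) := by
  set u : B[X] := C x + monomial 1 y with hu
  have hdeg : u.natDegree ≤ 1 := by
    refine (natDegree_add_le _ _).trans (max_le (by simp) (natDegree_monomial_le _))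
  have hc : ∀ i, 0 < i → i < p → T ((u ^ p).coeff i) = 0 := by
    intro i hi0 hip
    obtain ⟨i, rfl⟩ := Nat.exists_eq_succ_of_ne_zero hi0.ne'
    obtain ⟨j, hj⟩ := Nat.exists_eq_succ_of_ne_zero hp.ne_zero
    let Ti : B[X] →+ k := T.comp (lcoeff B i).toAddMonoidHom
    have hTi : ∀ a b, Ti (a * b) = Ti (b * a) := by
      intro a b
      show T ((a * b).coeff i) = T ((b * a).coeff i)
      rw [coeff_mul, coeff_mul, map_sum, map_sum, ← Finset.Nat.sum_antidiagonal_swap]
      exact Finset.sum_congr rfl fun z _ => hT _ _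
    have h1 := trace_deriv_pow Ti hTi u j 0
    rw [pow_zero, one_mul, ← Nat.succ_eq_add_one, ← hj, CharP.cast_eq_zero, zero_mul] at h1
    have h2 : T ((derivative (u ^ p)).coeff i) = 0 := h1
    rw [coeff_derivative, ← Nat.cast_succ, ← nsmul_eq_mul', map_nsmul, nsmul_eq_mul] at h2
    refine (mul_eq_zero.mp h2).resolve_left ?_
    rw [CharP.cast_eq_zero_iff k p]
    exact Nat.not_dvd_of_pos_of_lt hi0 hip
  let ev1 : B[X] →+* B := eval₂RingHom' (RingHom.id B) 1 (fun a => Commute.one_right a)
  have e1 : ev1 u = x + y := by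
    show eval₂ _ 1 u = _
    simp [hu]
  have e2 : ev1 (u ^ p) = ∑ i ∈ Finset.range (p + 1), (u ^ p).coeff i := by
    have : (u ^ p).natDegree < p + 1 :=
      Nat.lt_succ_of_le (natDegree_pow_le.trans (by nlinarith))
    show eval₂ _ 1 (u ^ p) = _
    rw [eval₂_eq_sum_range' _ this]
    simp
  have e3 : (u ^ p).coeff 0 = x ^ p := by
    rw [← constantCoeff_apply, map_pow, constantCoeff_apply]
    simp [hu, coeff_monomial]
  have e4 : (u ^ p).coeff p = y ^ p := by
    have := coeff_pow_of_natDegree_le (m := p) hdeg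
    rw [mul_one] at this
    rw [this]
    simp [hu]
  rw [← e1, ← map_pow, e2, map_sum, Finset.sum_range_succ,
    Finset.sum_eq_single_of_mem 0 (Finset.mem_range.mpr hp.pos), e3, e4]
  intro i hi hi0
  exact hc i (Nat.pos_of_ne_zero hi0) (Finset.mem_range.mp hi)

lemma exists_frob {B k : Type} [Ring B] [Field k] {p : ℕ} (hp : p.Prime) [CharP k p]
    (T : B →+ k) (hT : ∀ a b, T (a * b) = T (b * a)) (m : ℕ) :
    ∃ Φ : B →+ k, (∀ a b, Φ (a * b) = Φ (b * a)) ∧ ∀ x, Φ x = T (x ^ p ^ m) := by
  induction m with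
  | zero => exact ⟨T, hT, fun x => by simp⟩
  | succ m ih =>
    obtain ⟨Φ, h1, h2⟩ := ih
    refine ⟨AddMonoidHom.mk' (fun x => Φ (x ^ p)) (trace_add_pow hp Φ h1), ?_, ?_⟩
    · intro a b
      obtain ⟨j, hj⟩ := Nat.exists_eq_succ_of_ne_zero hp.ne_zero
      show Φ ((a * b) ^ p) = Φ ((b * a) ^ p)
      rw [hj, pow_succ, ← mul_assoc, mul_pow_mul, h1, ← mul_assoc, ← pow_succ']
    · intro x
      show Φ (x ^ p) = _
      rw [h2, ← pow_mul, ← pow_succ']

section

variable {G W : Type} [Group G] [CommRing W] {I : Type} [Fintype I] [DecidableEq I]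

/-- The trace of a matrix over the group ring, summed over a set of group elements. -/
noncomputable def tau (C : G → Prop) : Matrix I I (MonoidAlgebra W G) →+ W where
  toFun a := ∑ i, tau0 C (a i i)
  map_zero' := by simp
  map_add' a b := by simp [Finset.sum_add_distrib]

omit [Group G] [DecidableEq I] in
lemma tau_apply (C : G → Prop) (a : Matrix I I (MonoidAlgebra W G)) :
    tau C a = ∑ i, tau0 C (a i i) := rfl

lemma tau0_mul_comm {C : G → Prop} (hC : ∀ a b, C (a * b) → C (b * a)) (a b : MonoidAlgebra W G) :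
    tau0 C (a * b) = tau0 C (b * a) := by
  induction a using MonoidAlgebra.induction_linear with
  | zero => simp
  | add a a' h1 h2 => rw [add_mul, mul_add, map_add, map_add, h1, h2]
  | single h r =>
    induction b using MonoidAlgebra.induction_linear with
    | zero => simp
    | add b b' h1 h2 => rw [add_mul, mul_add, map_add, map_add, h1, h2]
    | single h' r' =>
      rw [MonoidAlgebra.single_mul_single, MonoidAlgebra.single_mul_single, tau0_single,
        tau0_single, mul_comm r r']
      by_cases H : C (h * h')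
      · rw [if_pos H, if_pos (hC _ _ H)]
      · rw [if_neg H, if_neg (fun H' => H (hC _ _ H'))]

omit [DecidableEq I] in
lemma tau_mul_comm {C : G → Prop} (hC : ∀ a b, C (a * b) → C (b * a))
    (a b : Matrix I I (MonoidAlgebra W G)) : tau C (a * b) = tau C (b * a) := by
  simp only [tau_apply, Matrix.mul_apply, map_sum]
  rw [Finset.sum_comm]
  exact Finset.sum_congr rfl fun i _ => Finset.sum_congr rfl fun j _ => tau0_mul_comm hC _ _

omit [Group G] in
lemma tau0_eq_finsum (C : G → Prop) (a : MonoidAlgebra W G) :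
    tau0 C a = ∑ᶠ (h : G) (_ : C h), a.coeff h := by
  have h1 : ∀ h : G, ∑ᶠ (_ : C h), a.coeff h = if C h then a.coeff h else 0 :=
    fun h => finsum_eq_if
  simp only [h1]
  rw [finsum_eq_sum_of_support_subset (s := a.coeff.support)]
  · rfl
  · intro h hh
    rw [Finset.mem_coe, Finsupp.mem_support_iff]
    intro h0
    apply hh
    simp [h0]

omit [Group G] in
lemma tau0_congr {C C' : G → Prop} {a : MonoidAlgebra W G}
    (H : ∀ h, a.coeff h ≠ 0 → (C h ↔ C' h)) : tau0 C a = tau0 C' a := by
  show a.coeff.sum (fun h r => if C h then r else (0 : W)) =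
    a.coeff.sum (fun h r => if C' h then r else (0 : W))
  refine Finsupp.sum_congr fun h hh => ?_
  simp only [H h (Finsupp.mem_support_iff.mp hh)]

lemma isConj_swap (g : G) (a b : G) (H : IsConj (a * b) g) : IsConj (b * a) g :=
  IsConj.trans (isConj_iff.mpr ⟨a, by group⟩) H

theorem frob_conj {k : Type} [Field k] {p : ℕ} (hp : p.Prime) [CharP k p]
    {A : Matrix I I (MonoidAlgebra k G)} (hA : A * A = A) (g : G)
    (hne : tau (fun h => IsConj h g) A ≠ 0) : ∃ m : ℕ, 0 < m ∧ IsConj g (g ^ p ^ m) := by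
  let S : Finset G := Finset.univ.biUnion fun i => (A i i).coeff.support
  have key : ∀ m : ℕ, ∃ h ∈ S, IsConj (h ^ p ^ m) g := by
    intro m
    obtain ⟨Φ, h1, h2⟩ := exists_frob hp (tau (I := I) (W := k) (fun h => IsConj h g))
      (tau_mul_comm (isConj_swap g)) m
    obtain ⟨j, hj⟩ := Nat.exists_eq_succ_of_ne_zero (pow_ne_zero m hp.ne_zero)
    have h3 : Φ A ≠ 0 := by
      rw [h2, hj, IsIdempotentElem.pow_succ_eq j hA]
      exact hne
    rw [Matrix.matrix_eq_sum_single A, map_sum] at h3
    obtain ⟨i, -, hi⟩ := Finset.exists_ne_zero_of_sum_ne_zero h3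
    rw [map_sum] at hi
    obtain ⟨i', -, hi'⟩ := Finset.exists_ne_zero_of_sum_ne_zero hi
    have hii : i = i' := by
      by_contra hne
      apply hi'
      have : Matrix.single i i' (A i i') = Matrix.single i i 1 * Matrix.single i i' (A i i') := by
        rw [Matrix.single_mul_single_same, one_mul]
      rw [this, h1, Matrix.single_mul_single_of_ne _ _ _ _ (Ne.symm hne), map_zero]
    subst hii
    rw [← (A i i).sum_coeff_single, Finsupp.sum, ← Matrix.singleAddMonoidHom_apply, map_sum,
      map_sum] at hi'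
    obtain ⟨h, hh, hh'⟩ := Finset.exists_ne_zero_of_sum_ne_zero hi'
    refine ⟨h, Finset.mem_biUnion.mpr ⟨i, Finset.mem_univ _, hh⟩, ?_⟩
    by_contra hc
    apply hh'
    have hpow : ∀ (a : MonoidAlgebra k G) (j : ℕ),
        (Matrix.single i i a) ^ (j + 1) = Matrix.single i i (a ^ (j + 1)) := by
      intro a j
      induction j with
      | zero => simp
      | succ j ih => rw [pow_succ, ih, Matrix.single_mul_single_same, ← pow_succ]
    rw [h2, Matrix.singleAddMonoidHom_apply, hj, hpow, ← Nat.succ_eq_add_one, ← hj,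
      MonoidAlgebra.single_pow, tau_apply]
    refine Finset.sum_eq_zero fun l _ => ?_
    by_cases hl : i = l
    · subst hl
      rw [Matrix.single_apply_same, tau0_single, if_neg hc]
    · rw [Matrix.single_apply_of_ne _ _ _ _ _ (by simp [hl]), map_zero]
  choose f hf1 hf2 using key
  obtain ⟨a, b, hab, he⟩ := Set.Finite.exists_lt_map_eq_of_forall_mem (f := f) hf1
    (Finset.finite_toSet S)
  obtain ⟨d, rfl⟩ := Nat.exists_eq_add_of_lt hab
  refine ⟨d + 1, by omega, (hf2 (a + d + 1)).symm.trans ?_⟩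
  rw [← he, add_assoc, pow_add, pow_mul]
  exact (hf2 a).pow _

lemma int_jacobson : IsJacobsonRing ℤ := by
  rw [isJacobsonRing_iff_prime_eq]
  intro P hP
  by_cases h0 : P = ⊥
  · subst h0
    refine le_antisymm (fun x hx => ?_) Ideal.le_jacobson
    rw [Ideal.mem_jacobson_bot] at hx
    have := Int.isUnit_iff.mp (hx x)
    rw [Ideal.mem_bot]
    rcases this with h | h <;> nlinarith [mul_self_nonneg x]
  · have := Ring.DimensionLEOne.maximalOfPrime h0 hP
    exact Ideal.jacobson_eq_self_of_isMaximal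

lemma exists_maximal_notMem {R : Type} [CommRing R] [IsDomain R] [IsJacobsonRing R] {x : R}
    (hx : x ≠ 0) : ∃ m : Ideal R, m.IsMaximal ∧ x ∉ m := by
  have h : (⊥ : Ideal R).jacobson = ⊥ :=
    isJacobsonRing_iff_prime_eq.mp ‹_› ⊥ Ideal.isPrime_bot
  by_contra hcon
  push Not at hcon
  apply hx
  rw [← Ideal.mem_bot, ← h, Ideal.jacobson, Ideal.mem_sInf]
  intro J hJ
  exact hcon J hJ.2

omit [DecidableEq I] in
lemma tau_map {W' : Type} [CommRing W'] (φ : W →+* W') (C : G → Prop)
    (a : Matrix I I (MonoidAlgebra W G)) :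
    tau C (a.map (MonoidAlgebra.mapRingHom G φ)) = φ (tau C a) := by
  rw [tau_apply, tau_apply, map_sum]
  refine Finset.sum_congr rfl fun i _ => ?_
  rw [Matrix.map_apply]
  induction a i i using MonoidAlgebra.induction_linear with
  | zero => simp
  | add a a' h1 h2 => rw [map_add, map_add, map_add, map_add, h1, h2]
  | single h r =>
    rw [MonoidAlgebra.mapRingHom_single, tau0_single, tau0_single]
    split_ifs <;> simp

omit [DecidableEq I] in
theorem reduce_charP {R : Type} [CommRing R] [IsDomain R] (C : G → Prop)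
    {A : Matrix I I (MonoidAlgebra R G)} (hA : A * A = A) (hne : tau C A ≠ 0) :
    ∃ (k : Type) (_ : Field k) (p : ℕ) (_ : p.Prime) (_ : CharP k p) (_ : IsAlgClosed k)
      (A' : Matrix I I (MonoidAlgebra k G)), A' * A' = A' ∧ tau C A' ≠ 0 := by
  let S : Set R := ⋃ i, ⋃ j, Set.range (A i j).coeff
  have hS : S.Finite :=
    Set.finite_iUnion fun i => Set.finite_iUnion fun j => (A i j).coeff.finite_range
  let R0 := Algebra.adjoin ℤ S
  have : Algebra.FiniteType ℤ R0 := .adjoin_of_finite hS
  have := int_jacobson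
  have : IsJacobsonRing R0 := isJacobsonRing_of_finiteType (A := ℤ)
  let ι : R0 →+* R := R0.val.toRingHom
  have hι : Function.Injective ι := Subtype.val_injective
  have hex : ∀ i j, ∃ a : MonoidAlgebra R0 G, MonoidAlgebra.mapRingHom G ι a = A i j := by
    intro i j
    have : A i j ∈ Set.range (MonoidAlgebra.map (M := G) (ι : R0 →+ R)) := by
      rw [MonoidAlgebra.range_map]
      intro h
      exact ⟨⟨_, Algebra.subset_adjoin (Set.mem_iUnion₂.mpr ⟨i, j, h, rfl⟩)⟩, rfl⟩
    exact this
  choose A0 hA0 using hex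
  have hmap : (Matrix.of A0).map (MonoidAlgebra.mapRingHom G ι) = A := by
    ext1 i j
    exact hA0 i j
  have hinj : Function.Injective (MonoidAlgebra.mapRingHom G ι) :=
    MonoidAlgebra.map_injective (ι : R0 →+ R) hι
  have hidem : Matrix.of A0 * Matrix.of A0 = Matrix.of A0 := by
    apply Matrix.map_injective hinj
    simp only
    rw [Matrix.map_mul, hmap, hA]
  have hne0 : tau C (Matrix.of A0) ≠ 0 := by
    intro h0
    apply hne
    rw [← hmap, tau_map, h0, map_zero]
  obtain ⟨m, hm, hxm⟩ := exists_maximal_notMem hne0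
  let := Ideal.Quotient.field m
  have hfin := finite_of_finite_type_of_isJacobsonRing ℤ (R0 ⧸ m)
  obtain ⟨p, hp⟩ := CharP.exists (R0 ⧸ m)
  have hprime : p.Prime := by
    refine (CharP.char_is_prime_or_zero (R0 ⧸ m) p).resolve_right ?_
    rintro rfl
    have : CharZero (R0 ⧸ m) := CharP.charP_to_charZero _
    exact Int.not_isField (isField_of_isIntegral_of_isField (R := ℤ) (S := R0 ⧸ m)
      (algebraMap ℤ (R0 ⧸ m)).injective_int (Field.toIsField _))
  let k := AlgebraicClosure (R0 ⧸ m)
  let φ : R0 →+* k := (algebraMap (R0 ⧸ m) k).comp (Ideal.Quotient.mk m)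
  refine ⟨k, inferInstance, p, hprime, inferInstance, inferInstance,
    (Matrix.of A0).map (MonoidAlgebra.mapRingHom G φ), ?_, ?_⟩
  · rw [← Matrix.map_mul, hidem]
  · rw [tau_map]
    intro h0
    apply hxm
    rw [← Ideal.Quotient.eq_zero_iff_mem]
    exact (algebraMap (R0 ⧸ m) k).injective (by rw [map_zero]; exact h0)

end

end Pool.Agent.Lib.MP_7903c7_al
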