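import Pool.Agent.Lib.MP_7903c7_al.Unip

set_option autoImplicit false

namespace Pool.Agent.Lib.MP_7903c7_al

open scoped Classical MatrixGroups
open Matrix

section

variable {G X K : Type} [Group G] [MulAction G X] [Field K]

lemma coc_one {Γ : Type} [Group Γ] {c : G → X → Γ}
    (hc : ∀ h h' x, c (h * h') x = c h (h' • x) * c h' x) (x : X) : c 1 x = 1 := by
  have := hc 1 1 x
  rw [one_mul, one_smul] at this
  exact left_eq_mul.mp this

lemma coc_inv {Γ : Type} [Group Γ] {c : G → X → Γ}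
    (hc : ∀ h h' x, c (h * h') x = c h (h' • x) * c h' x) (h : G) (x : X) :
    c h⁻¹ (h • x) = (c h x)⁻¹ := by
  have := hc h⁻¹ h x
  rw [inv_mul_cancel, coc_one hc] at this
  exact eq_inv_of_mul_eq_one_left this.symm

lemma coc_conj {Γ : Type} [Group Γ] {c : G → X → Γ}
    (hc : ∀ h h' x, c (h * h') x = c h (h' • x) * c h' x) {g : G} {x : X} (hg : g • x = x)
    (y : G) : c (y * g * y⁻¹) (y • x) = c y x * c g x * (c y x)⁻¹ := by
  rw [hc, hc, inv_smul_smul, hg, coc_inv hc]

lemma coc_pow {Γ : Type} [Group Γ] {c : G → X → Γ}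
    (hc : ∀ h h' x, c (h * h') x = c h (h' • x) * c h' x) {g : G} {x : X} (hg : g • x = x)
    (n : ℕ) : c (g ^ n) x = c g x ^ n := by
  induction n with
  | zero => rw [pow_zero, pow_zero, coc_one hc]
  | succ n ih => rw [pow_succ, hc, hg, ih, pow_succ]

lemma coc_conj_pow {Γ : Type} [Group Γ] {c : G → X → Γ}
    (hc : ∀ h h' x, c (h * h') x = c h (h' • x) * c h' x) {g : G}
    (hfin : (Set.range (c g)).Finite) {x : X} (hx : ∀ z : G, z * g = g * z → z • x = x)
    {q : ℕ} (hq : 1 < q) (hconj : IsConj g (g ^ q)) :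
    ∃ Q : ℕ, 1 < Q ∧ IsConj (c g x) (c g x ^ Q) := by
  obtain ⟨t, ht⟩ := isConj_iff.mp hconj
  have hg : g • x = x := hx g rfl
  have h1 : ∀ k : ℕ, t ^ k * g * (t ^ k)⁻¹ = g ^ q ^ k := by
    intro k
    induction k with
    | zero => simp
    | succ k ih =>
      rw [pow_succ t, pow_succ q, pow_mul, ← ih, conj_pow, ← ht]
      group
  have h2 : ∀ k : ℕ, g • t ^ k • x = t ^ k • x := by
    intro k
    have h3 : ((t ^ k)⁻¹ * g * t ^ k) * g = g * ((t ^ k)⁻¹ * g * t ^ k) := by
      have h4 : g * (t ^ k * g * (t ^ k)⁻¹) = (t ^ k * g * (t ^ k)⁻¹) * g := by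
        rw [h1, ← pow_succ, ← pow_succ']
      calc _ = (t ^ k)⁻¹ * (g * (t ^ k * g * (t ^ k)⁻¹)) * t ^ k := by group
        _ = _ := by rw [h4]; group
    have h5 := hx _ h3
    rw [mul_smul, mul_smul, inv_smul_eq_iff] at h5
    exact h5
  have h3 : ∀ k : ℕ, IsConj (c g x) (c g (t ^ k • x) ^ q ^ k) := by
    intro k
    rw [← coc_pow hc (h2 k), ← h1, coc_conj hc hg]
    exact isConj_iff.mpr ⟨_, rfl⟩
  obtain ⟨a, b, hab, he⟩ := Set.Finite.exists_lt_map_eq_of_forall_mem
    (f := fun k : ℕ => c g (t ^ k • x)) (fun k => Set.mem_range_self _) hfin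
  obtain ⟨d, rfl⟩ := Nat.exists_eq_add_of_lt hab
  refine ⟨q ^ (d + 1), Nat.one_lt_pow (by omega) hq, (h3 (a + d + 1)).trans ?_⟩
  rw [← he, add_assoc, pow_add, pow_mul]
  exact ((h3 a).pow _).symm

/-- Elements conjugate to a member of `F`. -/
def Orb {H : Type} [Group H] (F : Finset H) : Type := {ω : H // ∃ f ∈ F, IsConj f ω}

instance {H : Type} [Group H] (F : Finset H) : MulAction H (Orb F) where
  smul h ω := ⟨h * ω.1 * h⁻¹, by
    obtain ⟨f, hf, hc⟩ := ω.2
    exact ⟨f, hf, hc.trans (isConj_iff.mpr ⟨h, rfl⟩)⟩⟩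
  one_smul ω := Subtype.ext (by
    show 1 * ω.1 * 1⁻¹ = ω.1
    simp)
  mul_smul a b ω := Subtype.ext (by
    show a * b * ω.1 * (a * b)⁻¹ = a * (b * ω.1 * b⁻¹) * a⁻¹
    group)

/-- The tautological marking. -/
def orbCen {H : Type} [Group H] (F : Finset H) : Cen H (Orb F) where
  Z ω := ω.1
  inj := Subtype.val_injective
  conj _ _ := rfl

variable {I : Type} [Fintype I] [DecidableEq I]

lemma tau0_mapDomain {W H : Type} [CommRing W] [Group H] (f : H →* G) (C : G → Prop)
    (a : MonoidAlgebra W H) :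
    tau0 C (MonoidAlgebra.mapDomainRingHom W f a) = tau0 (fun h => C (f h)) a := by
  induction a using MonoidAlgebra.induction_linear with
  | zero => simp
  | add a a' h1 h2 => rw [map_add, map_add, map_add, h1, h2]
  | single h r =>
    show tau0 C (MonoidAlgebra.mapDomain f _) = _
    rw [MonoidAlgebra.mapDomain_single, tau0_single, tau0_single]

theorem unip_vanish [CharZero K] {c : G → X → PGL(2, K)}
    (hc : ∀ h h' x, c (h * h') x = c h (h' • x) * c h' x) (hfin : ∀ h, (Set.range (c h)).Finite)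
    {g : G} {x : X} (hx : ∀ z : G, z * g = g * z → z • x = x) {ν0 : M2 K} (hν0 : Uni (c g x) ν0)
    {W k : Type} [CommRing W] [CommRing k] {p : ℕ} (hp : p.Prime) (π : W →+* k)
    (hsurj : Function.Surjective π) (hker : ∀ x, π x = 0 → ∃ y, x = p * y)
    (htf : ∀ x : W, p * x = 0 → x = 0) {N : ℕ} (hN : (p : k) ^ N = 0)
    {A : Matrix I I (MonoidAlgebra k G)} (hA : A * A = A) :
    tau (fun h => IsConj h g) A = 0 := by
  have hg : g • x = x := hx g rfl
  -- passing to a finitely generated subgroup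
  let S : Finset G := Finset.univ.biUnion fun i => Finset.univ.biUnion fun j =>
    (A i j).coeff.support
  let H := Subgroup.closure (S : Set G)
  let A0 : Matrix I I (MonoidAlgebra k H) := Matrix.of fun i j =>
    MonoidAlgebra.comapDomain H.subtype H.subtype_injective (A i j)
  have hmap : A0.map (MonoidAlgebra.mapDomainRingHom k H.subtype) = A := by
    ext1 i j
    refine MonoidAlgebra.mapDomain_comapDomain ?_ H.subtype_injective
    intro h hh
    exact ⟨⟨h, Subgroup.subset_closure (Finset.mem_coe.mpr (Finset.mem_biUnion.mpr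
      ⟨i, Finset.mem_univ _, Finset.mem_biUnion.mpr ⟨j, Finset.mem_univ _, hh⟩⟩))⟩, rfl⟩
  have hA0 : A0 * A0 = A0 := by
    apply Matrix.map_injective (f := MonoidAlgebra.mapDomainRingHom k H.subtype)
      (MonoidAlgebra.mapDomain_injective H.subtype_injective)
    simp only
    rw [Matrix.map_mul, hmap, hA]
  let F : Finset H := (Finset.univ.biUnion fun i => (A0 i i).coeff.support).filter
    fun h => IsConj (h : G) g
  have hΩ : ∀ ω : Orb F, IsConj g (ω.1 : G) := by
    intro ω
    obtain ⟨f, hf, hc⟩ := ω.2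
    exact (Finset.mem_filter.mp hf).2.symm.trans (H.subtype.map_isConj hc)
  have hT : tau (fun h => IsConj h g) A = (orbCen F).T ((emb0 H (Orb F) k).mapMatrix A0) := by
    rw [← hmap, tau_apply, Cen.T_apply]
    refine Finset.sum_congr rfl fun i _ => ?_
    rw [Matrix.map_apply, tau0_mapDomain, RingHom.mapMatrix_apply, Matrix.map_apply,
      Cen.T0_emb0]
    refine tau0_congr fun h hh => ⟨fun H1 => ⟨⟨h, h, Finset.mem_filter.mpr
      ⟨Finset.mem_biUnion.mpr ⟨i, Finset.mem_univ _, Finsupp.mem_support_iff.mpr hh⟩, H1⟩,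
      IsConj.refl _⟩, rfl⟩, ?_⟩
    rintro ⟨ω, rfl⟩
    exact (hΩ ω).symm
  rw [hT]
  -- marked points
  choose yy hyy using fun ω => isConj_iff.mp (hΩ ω)
  let pt : Orb F → X := fun ω => yy ω • x
  have hpt : ∀ (ω : Orb F) (y : G), y * g * y⁻¹ = ω.1 → pt ω = y • x := by
    intro ω y hy
    have h1 : (y⁻¹ * yy ω) * g = g * (y⁻¹ * yy ω) := by
      calc _ = y⁻¹ * (yy ω * g * (yy ω)⁻¹) * yy ω := by group
        _ = _ := by rw [hyy, ← hy]; group
    have h2 := hx _ h1
    rw [mul_smul, inv_smul_eq_iff] at h2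
    exact h2
  have hpte : ∀ (h : H) (ω : Orb F), pt (h • ω) = (h : G) • pt ω := by
    intro h ω
    rw [hpt (h • ω) ((h : G) * yy ω), mul_smul]
    show _ = ((h * ω.1 * h⁻¹ : H) : G)
    rw [Subgroup.coe_mul, Subgroup.coe_mul, Subgroup.coe_inv, ← hyy]
    group
  have hptf : ∀ ω : Orb F, (ω.1 : G) • pt ω = pt ω := by
    intro ω
    rw [← hpte]
    congr 1
    exact Subtype.ext (by
      show ω.1 * ω.1 * ω.1⁻¹ = ω.1
      group)
  have hconj : ∀ (h : H) (ω : Orb F) (P : GL (Fin 2) K) (ν : M2 K),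
      ProjGenLinGroup.mk P = c h (pt ω) → Uni (c ω.1 (pt ω)) ν →
      Uni (c (h • ω).1 (pt (h • ω))) (P.val * ν * (P⁻¹).val) := by
    intro h ω P ν hP hν
    have := hν.conj P
    rw [hP, ← coc_conj hc (hptf ω), ← hpte] at this
    exact this
  have hexν : ∀ ω : Orb F, ∃ ν, Uni (c ω.1 (pt ω)) ν := by
    intro ω
    obtain ⟨P, hP⟩ := ProjGenLinGroup.mk_surjective (c (yy ω) x)
    have := hν0.conj P
    rw [hP, ← coc_conj hc hg, hyy] at this
    exact ⟨_, this⟩
  choose ν hν using hexν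
  choose rep hrep using ProjGenLinGroup.mk_surjective (n := Fin 2) (R := K)
  let fo : F → Orb F := fun f => ⟨f.1, f.1, f.2, IsConj.refl _⟩
  let Φ : Set K := (⋃ s ∈ (S : Set G), ⋃ γ ∈ Set.range (c s), ⋃ i, ⋃ j,
    {(rep γ).val i j, ((rep γ)⁻¹).val i j}) ∪ ⋃ f : F, ⋃ i, ⋃ j, {ν (fo f) i j}
  have hΦ : Φ.Finite :=
    (S.finite_toSet.biUnion fun s _ => (hfin s).biUnion fun γ _ => Set.finite_iUnion fun i =>
      Set.finite_iUnion fun j => Set.toFinite _).union
      (Set.finite_iUnion fun f => Set.finite_iUnion fun i => Set.finite_iUnion fun j =>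
        Set.toFinite _)
  let R := Subring.closure Φ
  let jj : GL (Fin 2) R →* PGL(2, K) :=
    ProjGenLinGroup.mk.comp (GeneralLinearGroup.map R.subtype)
  have hint : ∀ h ∈ H, ∀ z : X, c h z ∈ jj.range := by
    intro h hh
    induction hh using Subgroup.closure_induction with
    | mem s hs =>
      intro z
      obtain ⟨M, hM⟩ := exists_lift_GL (R := R) (rep (c s z))
        (fun i j => Subring.subset_closure (Or.inl (by
          simp only [Set.mem_iUnion]
          exact ⟨s, hs, c s z, ⟨z, rfl⟩, i, j, Or.inl rfl⟩)))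
        (fun i j => Subring.subset_closure (Or.inl (by
          simp only [Set.mem_iUnion]
          exact ⟨s, hs, c s z, ⟨z, rfl⟩, i, j, Or.inr rfl⟩)))
      exact ⟨M, by rw [← hrep (c s z), ← hM]; rfl⟩
    | one => intro z; rw [coc_one hc]; exact Subgroup.one_mem _
    | mul a b _ _ h1 h2 => intro z; rw [hc]; exact Subgroup.mul_mem _ (h1 _) (h2 _)
    | inv a _ h1 =>
      intro z
      have := coc_inv hc a (a⁻¹ • z)
      rw [smul_inv_smul] at this
      rw [this]
      exact Subgroup.inv_mem _ (h1 _)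
  let l0 : PGL(2, K) → GL (Fin 2) R := fun γ => if H1 : γ ∈ jj.range then H1.choose else 1
  have hl0 : ∀ (h : H) (z : X), jj (l0 (c h z)) = c h z := by
    intro h z
    have H1 := hint h h.2 z
    simp only [l0, dif_pos H1]
    exact H1.choose_spec
  have hνf : ∀ f : F, ∃ ν' : M2 R, R.subtype.mapMatrix ν' = ν (fo f) := fun f =>
    exists_lift_M2 _ fun i j => Subring.subset_closure (Or.inr (by
      simp only [Set.mem_iUnion]
      exact ⟨f, i, j, rfl⟩))
  choose νf hνf using hνf
  have hνR : ∀ ω : Orb F, ∃ (f : F) (M : GL (Fin 2) R),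
      R.subtype.mapMatrix (M.val * νf f * (M⁻¹).val) = ν ω := by
    intro ω
    obtain ⟨f, hf, hcf⟩ := ω.2
    obtain ⟨h, hh⟩ := isConj_iff.mp hcf
    have hω : h • fo ⟨f, hf⟩ = ω := Subtype.ext hh
    refine ⟨⟨f, hf⟩, l0 (c h (pt (fo ⟨f, hf⟩))), ?_⟩
    have := hconj h (fo ⟨f, hf⟩) _ _ (hl0 h _) (hν _)
    rw [hω] at this
    rw [map_mul, map_mul, hνf, ← this.unique (hν ω), ← map_inv]
    rfl
  choose fω Mω hMω using hνR
  let νR : Orb F → M2 R := fun ω => (Mω ω).val * νf (fω ω) * ((Mω ω)⁻¹).val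
  have hνR : ∀ ω, R.subtype.mapMatrix (νR ω) = ν ω := hMω
  have hent : ∀ f : F, ∃ i j, νf f i j ≠ 0 := by
    intro f
    by_contra hcon
    push Not at hcon
    obtain ⟨-, h0, -⟩ := hν (fo f)
    apply h0
    rw [← hνf, show νf f = 0 from Matrix.ext hcon, map_zero]
  choose ei ej hij using hent
  obtain ⟨K', i1, i2, σ, Φ', hξ, hΦ', hσ⟩ := exists_specialise hΦ (∏ f : F, νf f (ei f) (ej f))
    (Finset.prod_ne_zero_iff.mpr fun f _ => hij f)
  have hsq : ∀ ω, νR ω * νR ω = 0 := by
    intro ω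
    apply mapMatrix_injective R
    rw [map_mul, hνR, map_zero]
    exact (hν ω).1
  have hsm : ∀ (a : R) (B : M2 R), σ.mapMatrix (a • B) = σ a • σ.mapMatrix B := by
    intro a B
    ext i j
    simp
  let mm : H → Orb F → GL (Fin 2) R := fun h ω => l0 (c h (pt (h⁻¹ • ω)))
  let P : ParData (orbCen F) K' :=
    { ν := fun ω => σ.mapMatrix (νR ω)
      m := fun h ω => σ.mapMatrix (mm h ω).val
      det_ne := fun h ω => GeneralLinearGroup.det_ne_zero (GeneralLinearGroup.map σ (mm h ω))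
      fin := fun h => ((hfin h).image fun γ => σ.mapMatrix (l0 γ).val).subset (by
        rintro _ ⟨ω, rfl⟩
        exact ⟨_, ⟨_, rfl⟩, rfl⟩)
      sq := fun ω => by rw [← map_mul, hsq, map_zero]
      ne := fun ω h0 => by
        have h1 : σ.mapMatrix (νf (fω ω)) = 0 := by
          have : νf (fω ω) = ((Mω ω)⁻¹).val * νR ω * (Mω ω).val := by
            simp only [νR, ← mul_assoc, Units.inv_mul, one_mul]
            rw [mul_assoc, Units.inv_mul, mul_one]
          rw [this, map_mul, map_mul, h0, mul_zero, zero_mul]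
        apply hξ
        rw [map_prod]
        exact Finset.prod_eq_zero (Finset.mem_univ (fω ω))
          (congrFun (congrFun h1 (ei _)) (ej _))
      inter := fun h ω => by
        rw [← map_mul, ← map_mul]
        congr 1
        apply mapMatrix_injective R
        have := hconj h (h⁻¹ • ω) _ _ (hl0 h _) (hν _)
        rw [smul_inv_smul] at this
        rw [map_mul _ _ (νR _), map_mul _ (νR _), hνR, hνR, ← this.unique (hν ω)]
        exact (Units.inv_mul_cancel_right _ _).symm
      coc := fun h1 h2 ω => by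
        have : jj (mm (h1 * h2) ω) = jj (mm h1 ω * mm h2 (h1⁻¹ • ω)) := by
          rw [map_mul, hl0, hl0, hl0, Subgroup.coe_mul, hc, ← hpte, _root_.mul_inv_rev, mul_smul,
            smul_inv_smul]
        obtain ⟨a, ha⟩ := prop_of_mk_eq this
        refine ⟨σ a, ?_⟩
        rw [ha, Units.val_mul, ← map_mul]
        exact hsm _ _
      cen := fun ω => by
        have : jj (mm ω.1 ω) = jj (uni (νR ω) (hsq ω)) := by
          have e1 : (ω.1)⁻¹ • ω = ω := (orbCen F).fix ω
          obtain ⟨h1, -, h2⟩ := hν ω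
          simp only [mm]
          rw [hl0, e1, ← h2]
          show ProjGenLinGroup.mk _ = ProjGenLinGroup.mk _
          congr 1
          apply Units.ext
          show 1 + ν ω = R.subtype.mapMatrix (1 + νR ω)
          rw [map_add, map_one, hνR]
        obtain ⟨a, ha⟩ := prop_of_mk_eq this
        refine ⟨σ a, ?_⟩
        show σ.mapMatrix (mm ω.1 ω).val = _
        rw [ha, ← map_one σ.mapMatrix, ← map_add]
        exact hsm _ _ }
  refine par_vanish P hΦ' (fun ω i j => hσ _) hp π hsurj hker htf hN ?_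
  rw [← map_mul, hA0]

theorem cocycle_vanish [CharZero K] {c : G → X → PGL(2, K)}
    (hc : ∀ h h' x, c (h * h') x = c h (h' • x) * c h' x) (hfin : ∀ h, (Set.range (c h)).Finite)
    {g : G} {x : X} (hx : ∀ z : G, z * g = g * z → z • x = x) (hinf : ¬ IsOfFinOrder (c g x))
    {R : Type} [CommRing R] [IsDomain R] {A : Matrix I I (MonoidAlgebra R G)} (hA : A * A = A) :
    tau (fun h => IsConj h g) A = 0 := by
  by_contra hne
  obtain ⟨k, i1, p, hp, i2, i3, A', hA', hne'⟩ := reduce_charP _ hA hne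
  obtain ⟨m, hm, hconj⟩ := frob_conj hp hA' g hne'
  obtain ⟨Q, hQ, hcQ⟩ := coc_conj_pow hc (hfin g) hx (Nat.one_lt_pow hm.ne' hp.one_lt) hconj
  obtain ⟨ν0, hν0⟩ := uni_of_conj_pow hQ hcQ hinf
  have : Fact p.Prime := ⟨hp⟩
  refine hne' (unip_vanish hc hfin hx hν0 hp (WittVector.constantCoeff (p := p) (R := k))
    (fun r => ⟨WittVector.teichmuller p r, rfl⟩) ?_ ?_ (N := 1) (by simp) hA')
  · intro z hz
    have := (WittVector.mem_span_p_iff_coeff_zero_eq_zero z).mpr hz
    obtain ⟨y, hy⟩ := Ideal.mem_span_singleton'.mp this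
    exact ⟨y, by rw [← hy, mul_comm]⟩
  · intro z hz
    exact WittVector.eq_zero_of_p_mul_eq_zero z (by rw [mul_comm, hz])

end

end Pool.Agent.Lib.MP_7903c7_al
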