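import Pool.Agent.Lib.MP_7903c7_al.Squeeze
import Pool.Agent.Lib.MP_7903c7_al.Padic

set_option autoImplicit false

namespace Pool.Agent.Lib.MP_7903c7_al

open scoped Classical
open Filter Topology

section

variable {G Ω W : Type} [Group G] [MulAction G Ω] [CommRing W]
variable {I : Type} [Fintype I] [DecidableEq I]

omit [Fintype I] [DecidableEq I] in
lemma path_bound_to {K : Type} [Field K] (a : AbsoluteValue K ℝ) (e : MA I G Ω W) (w : G → Ω → K)
    (hw : ∀ h1 h2 ω, w (h1 * h2) ω = w h1 ω + w h2 (h1⁻¹ • ω)) (P : I × Ω → Prop) (ε : ℝ)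
    (hstep : ∀ v h v', gr e v h v' → P v → a (w h v.2) ≤ ε) {j : ℕ} {v x : I × Ω} {h : G}
    (H : (gr e).pw j v h x) (hP : ∀ y h', (gr e).pw j y h' x → P y) : a (w h v.2) ≤ j * ε := by
  induction j generalizing v h with
  | zero =>
    obtain ⟨rfl, rfl⟩ := H
    have : w 1 v.2 = 0 := by simpa using hw 1 1 v.2
    simp [this]
  | succ j ih =>
    have h0 := hP _ _ H
    obtain ⟨u, h1, h2, rfl, Ha, Hb⟩ := H
    have k1 := hstep _ _ _ Ha h0
    have k2 := ih Hb (fun y h' Hy => hP y h' (Rl.pw_mono (gr_refl e) (Nat.le_succ j) Hy))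
    rw [hw, ← gr_snd Ha]
    have := a.add_le (w h1 v.2) (w h2 u.2)
    push_cast
    linarith

omit [Fintype I] [DecidableEq I] in
lemma path_bound_from {K : Type} [Field K] (a : AbsoluteValue K ℝ) (e : MA I G Ω W)
    (w : G → Ω → K)
    (hw : ∀ h1 h2 ω, w (h1 * h2) ω = w h1 ω + w h2 (h1⁻¹ • ω)) (P : I × Ω → Prop) (ε : ℝ)
    (hstep : ∀ v h v', gr e v h v' → P v → a (w h v.2) ≤ ε) {j : ℕ} {v x : I × Ω} {h : G}
    (H : (gr e).pw j x h v) (hP : ∀ y h', (gr e).pw j x h' y → P y) : a (w h x.2) ≤ j * ε := by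
  induction j generalizing x h with
  | zero =>
    obtain ⟨rfl, rfl⟩ := H
    have : w 1 x.2 = 0 := by simpa using hw 1 1 x.2
    simp [this]
  | succ j ih =>
    have h0 := hP _ _ (Rl.pw_refl (gr_refl e) _ x)
    obtain ⟨u, h1, h2, rfl, Ha, Hb⟩ := H
    have k1 := hstep _ _ _ Ha h0
    have k2 := ih Hb (fun y h' Hy => hP y (h1 * h') ⟨u, h1, h', rfl, Ha, Hy⟩)
    rw [hw, ← gr_snd Ha]
    have := a.add_le (w h1 x.2) (w h2 u.2)
    push_cast
    linarith

lemma uniform_bound {G : Type} {S : Set G} (hS : S.Finite) (P : G → ℝ → Prop)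
    (hmono : ∀ h c c', c ≤ c' → P h c → P h c') (H : ∀ h, ∃ c, P h c) :
    ∃ c, 1 ≤ c ∧ ∀ h ∈ S, P h c := by
  choose f hf using H
  obtain ⟨c, hc⟩ := (hS.image f).bddAbove
  exact ⟨max 1 c, le_max_left _ _, fun h hh =>
    hmono h _ _ ((hc ⟨h, hh, rfl⟩).trans (le_max_right _ _)) (hf h)⟩

theorem criterion (c : Cen G Ω) {k : Type} [CommRing k] {p : ℕ} (hp : p.Prime) (π : W →+* k)
    (hsurj : Function.Surjective π) (hker : ∀ x, π x = 0 → ∃ y, x = p * y)
    (htf : ∀ x : W, p * x = 0 → x = 0) {N : ℕ} (hN : (p : k) ^ N = 0)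
    {K : Type} [Field K] [CharZero K] {V : Type} [Fintype V] (av : V → AbsoluteValue K ℝ)
    (w : V → G → Ω → K) (hw : ∀ x h1 h2 ω, w x (h1 * h2) ω = w x h1 ω + w x h2 (h1⁻¹ • ω))
    (hζ : ∀ x ω, w x (c.Z ω) ω = 1) (Nv : V → Ω → ℝ) (hpos : ∀ x ω, 0 < Nv x ω)
    (hlip : ∀ h : G, ∃ l : ℝ, ∀ x ω, Nv x (h⁻¹ • ω) ≤ l * Nv x ω)
    (hbd : ∀ h : G, ∃ C : ℝ, ∀ x ω, av x (w x h ω) * Nv x ω ≤ C)
    (x0 : V) (hna : IsNonarchimedean (av x0)) (hp0 : av x0 p < 1) (D : ℕ)
    (hprod : ∀ B : ℝ, 1 ≤ B → ∀ ω, (∀ x, Nv x ω ≤ B) → 1 ≤ Nv x0 ω * B ^ D)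
    {e : MA I G Ω k} (he : e * e = e) : c.T e = 0 := by
  have hZ : ∀ ω, c.Z ω ≠ 1 := by
    intro ω h0
    have h1 : w x0 1 ω = 0 := by simpa using hw x0 1 1 ω
    have h2 := hζ x0 ω
    rw [h0, h1] at h2
    exact zero_ne_one h2
  set d := (Finset.univ : Finset V).card with hd
  have hS := gr_pw_finite e (13 ^ d)
  set S := {h : G | ∃ v v', (gr e).pw (13 ^ d) v h v'}
  obtain ⟨l, hl1, hl⟩ := uniform_bound hS
    (fun h l => ∀ x ω, Nv x (h⁻¹ • ω) ≤ l * Nv x ω ∧ Nv x ω ≤ l * Nv x (h⁻¹ • ω))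
    (fun h c c' hc H x ω => ⟨(H x ω).1.trans (mul_le_mul_of_nonneg_right hc (hpos _ _).le),
      (H x ω).2.trans (mul_le_mul_of_nonneg_right hc (hpos _ _).le)⟩)
    (fun h => by
      obtain ⟨l1, h1⟩ := hlip h
      obtain ⟨l2, h2⟩ := hlip h⁻¹
      refine ⟨max l1 l2, fun x ω => ⟨(h1 x ω).trans
        (mul_le_mul_of_nonneg_right (le_max_left _ _) (hpos _ _).le), ?_⟩⟩
      have := h2 x (h⁻¹ • ω)
      rw [inv_inv, smul_inv_smul] at this
      exact this.trans (mul_le_mul_of_nonneg_right (le_max_right _ _) (hpos _ _).le))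
  obtain ⟨C, hC1, hC⟩ := uniform_bound hS (fun h C => ∀ x ω, av x (w x h ω) * Nv x ω ≤ C)
    (fun h c c' hc H x ω => (H x ω).trans hc) hbd
  set ρ := av x0 p with hρ
  have hρ0 : 0 < ρ := (av x0).pos (by exact_mod_cast hp.ne_zero)
  set A : ℝ := (9 * C + 1) * l ^ 26 with hA
  have hA1 : 1 ≤ A := one_le_mul_of_one_le_of_one_le (by linarith) (one_le_pow₀ hl1)
  -- choice of the precision
  obtain ⟨s, hs⟩ : ∃ s : ℕ, ((s + 1 + N : ℕ) : ℝ) ^ D * ρ ^ (s + 1) * (C * A ^ D) < 1 := by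
    have h1 := tendsto_pow_const_mul_const_pow_of_abs_lt_one D
      (show |ρ| < 1 by rw [abs_of_pos hρ0]; exact hp0)
    have h2 := (h1.mul_const (C * A ^ D / ρ ^ N)).comp (tendsto_add_atTop_nat (1 + N))
    rw [zero_mul] at h2
    obtain ⟨s, hs⟩ := (h2.eventually (gt_mem_nhds zero_lt_one)).exists
    refine ⟨s, lt_of_eq_of_lt ?_ hs⟩
    simp only [Function.comp]
    rw [← add_assoc, pow_add ρ (s + 1) N]
    field_simp
  set n := s + 1 + N with hn
  have hn1 : (1 : ℝ) ≤ n := by rw [hn]; push_cast; have := Nat.cast_nonneg (α := ℝ) s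
                               have := Nat.cast_nonneg (α := ℝ) N; linarith
  set m := 4 * n + 5 with hm
  set B0 : ℝ := m * C + 1 with hB0
  have hm0 : (0 : ℝ) ≤ m := Nat.cast_nonneg _
  have hB01 : 1 ≤ B0 := by rw [hB0]; nlinarith
  set B : ℝ := B0 * l ^ 26 with hB
  have hB1 : 1 ≤ B := one_le_mul_of_one_le_of_one_le hB01 (one_le_pow₀ hl1)
  have hBA : B ≤ n * A := by
    rw [hB, hA, ← mul_assoc]
    refine mul_le_mul_of_nonneg_right ?_ (by positivity)
    rw [hB0, hm]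
    push_cast
    nlinarith
  obtain ⟨I', i1, i2, e', pr, k1, k2, k3, k4⟩ := squeeze_all c hZ he Finset.univ
    (fun x ω => Real.log (Nv x ω)) (fun _ => Real.log B0 + 13 * Real.log l) (Real.log l)
    (Real.log_nonneg hl1) (by
      intro x _ v h v' Hv
      have h1 := hl h ⟨v, v', Hv⟩ x v.2
      rw [← gr_pw_snd Hv] at h1
      have h2 := Real.log_le_log (hpos _ _) h1.1
      have h3 := Real.log_le_log (hpos _ _) h1.2
      rw [Real.log_mul (by positivity) (hpos _ _).ne'] at h2 h3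
      rw [abs_le]
      constructor <;> linarith) m
  rw [← k2]
  let O : AddSubgroup K :=
    { carrier := {z | av x0 z ≤ C * B ^ D}
      add_mem' := fun {a b} ha hb => (hna a b).trans (max_le ha hb)
      zero_mem' := by
        show av x0 0 ≤ _
        rw [map_zero]; positivity
      neg_mem' := fun {a} ha => by
        show av x0 (-a) ≤ _
        rw [AbsoluteValue.map_neg]; exact ha }
  refine padic_vanish c hp π hsurj hker htf hN (w x0) (hw x0) 1 (hζ x0) O ?_ (s := s) ?_ k1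
    (n := n) (by omega) ?_
  · show av x0 1 ≤ _
    rw [map_one]
    exact one_le_mul_of_one_le_of_one_le hC1 (one_le_pow₀ hB1)
  · intro z hz h1
    have h2 : av x0 z ≤ C * B ^ D := hz
    have h3 : (1 : ℝ) = ρ ^ (s + 1) * av x0 z := by
      have := congrArg (av x0) h1
      rw [map_one, zsmul_eq_mul, map_mul] at this
      push_cast at this
      rwa [map_pow] at this
    have h4 : B ^ D ≤ (n * A) ^ D := pow_le_pow_left₀ (by positivity) hBA D
    have h5 : ρ ^ (s + 1) * av x0 z ≤ ρ ^ (s + 1) * (C * (n * A) ^ D) :=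
      mul_le_mul_of_nonneg_left (h2.trans (mul_le_mul_of_nonneg_left h4 (by positivity)))
        (by positivity)
    rw [mul_pow] at h5
    linarith
  · intro a b x σ x' v h1 h2 hab H1 H2 H3 H4
    have hall : ∀ y, Nv y x.2 ≤ B := by
      intro y
      by_contra hlt
      push Not at hlt
      have hlog : Real.log B0 + 13 * Real.log l + 13 * Real.log l < Real.log (Nv y x.2) := by
        have := Real.log_lt_log (by positivity) hlt
        rw [hB, Real.log_mul (by positivity) (by positivity), Real.log_pow] at this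
        push_cast at this
        linarith
      have hstep : ∀ v h v', gr e' v h v' → B0 ≤ Nv y v.2 → av y (w y h v.2) ≤ C / B0 := by
        intro v h v' Hv hv
        have h5 := hC h ⟨_, _, k3 v h v' Hv⟩ y v.2
        rw [le_div_iff₀ (by positivity)]
        exact (mul_le_mul_of_nonneg_left hv ((av y).nonneg _)).trans h5
      have hP : ∀ u : I' × Ω, ¬ Real.log (Nv y u.2) <
          Real.log B0 + 13 * Real.log l - 13 * Real.log l → B0 ≤ Nv y u.2 := by
        intro u hu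
        rw [add_sub_cancel_right, not_lt] at hu
        exact (Real.log_le_log_iff (by positivity) (hpos _ _)).mp hu
      have b1 := path_bound_to (av y) e' (w y) (hw y) (fun u => B0 ≤ Nv y u.2) _ hstep H1
        (fun u h' Hu => hP u fun hu => (k4 y (Finset.mem_univ _) u h' x
          (Rl.pw_mono (gr_refl e') (by omega) Hu)).1 ⟨hu, hlog⟩)
      have b2 := path_bound_from (av y) e' (w y) (hw y) (fun u => B0 ≤ Nv y u.2) _ hstep
        (Rl.pw_add (Rl.pw_one H2) H3)
        (fun u h' Hu => hP u fun hu => (k4 y (Finset.mem_univ _) x h' u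
          (Rl.pw_mono (gr_refl e') (by omega) Hu)).2 ⟨hu, hlog⟩)
      have h6 := hζ y v.2
      rw [← H4, mul_assoc, hw, ← gr_pw_snd H1] at h6
      have h7 := (av y).add_le (w y h1 v.2) (w y (σ * h2) x.2)
      rw [h6, map_one] at h7
      have h8 : ((a : ℝ) + (1 + b : ℕ)) ≤ m := by
        exact_mod_cast (show a + (1 + b) ≤ m by omega)
      have h9 : ((a : ℝ) + (1 + b : ℕ)) * (C / B0) ≤ m * (C / B0) :=
        mul_le_mul_of_nonneg_right h8 (by positivity)
      have h10 : m * (C / B0) < 1 := by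
        rw [← mul_div_assoc, div_lt_one (by positivity)]
        linarith
      linarith
    show av x0 (w x0 σ x.2) ≤ C * B ^ D
    have h5 := hC σ ⟨_, _, k3 x σ x' H2⟩ x0 x.2
    have h6 := hprod B hB1 x.2 hall
    calc av x0 (w x0 σ x.2) = av x0 (w x0 σ x.2) * 1 := (mul_one _).symm
      _ ≤ av x0 (w x0 σ x.2) * (Nv x0 x.2 * B ^ D) :=
        mul_le_mul_of_nonneg_left h6 ((av x0).nonneg _)
      _ = av x0 (w x0 σ x.2) * Nv x0 x.2 * B ^ D := by ring
      _ ≤ C * B ^ D := mul_le_mul_of_nonneg_right h5 (by positivity)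

end

end Pool.Agent.Lib.MP_7903c7_al
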