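import Mathlib

set_option autoImplicit false

namespace Pool.Agent.Lib.MP_7903c7_al

/-- No element of `S` moves a point of `U` into `V`. -/
def Apart {Γ Y : Type} [Group Γ] [MulAction Γ Y] (S : Finset Γ) (U V : Set Y) : Prop :=
  ∀ s ∈ S, ∀ y ∈ U, s • y ∉ V

/-- Every member of `𝒳` is the union of two families of members of `𝒴`, the members of each
family being pairwise `S`-apart. -/
def Decomposes {Γ Y : Type} [Group Γ] [MulAction Γ Y] (S : Finset Γ) (𝒳 𝒴 : Set (Set Y)) : Prop :=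
  ∀ X ∈ 𝒳, ∃ 𝒜 ℬ : Set (Set Y), 𝒜 ⊆ 𝒴 ∧ ℬ ⊆ 𝒴 ∧ 𝒜.Pairwise (Apart S) ∧ ℬ.Pairwise (Apart S) ∧
    X = ⋃₀ 𝒜 ∪ ⋃₀ ℬ

/-- Straight finite decomposition complexity (Dranishnikov and Zarichnyi) of a `Γ`-set, for the
coarse structure whose scales are the finite subsets of `Γ` (the Schreier graph metric when `Γ`
is finitely generated). -/
def StraightFDC (Γ Y : Type) [Group Γ] [MulAction Γ Y] : Prop :=
  ∀ S : ℕ → Finset Γ, ∃ (n : ℕ) (𝒱 : ℕ → Set (Set Y)) (T : Finset Γ),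
    𝒱 0 = {Set.univ} ∧ (∀ i < n, Decomposes (S i) (𝒱 i) (𝒱 (i + 1))) ∧
      ∀ U ∈ 𝒱 n, ∀ y ∈ U, ∀ y' ∈ U, ∃ t ∈ T, t • y = y'

end Pool.Agent.Lib.MP_7903c7_al
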