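import Pool.Agent.Lib.MP_7903c7_al.Sq2
import Pool.Agent.Lib.MP_7903c7_al.DefsFDC

set_option autoImplicit false

namespace Pool.Agent.Lib.MP_7903c7_al

open scoped Classical Pointwise

section

variable {Γ Y : Type} [Group Γ] [MulAction Γ Y]

/-- Nearness of points. -/
def Nr (D : Finset Γ) (r : ℕ) (y y' : Y) : Prop := ∃ t ∈ D ^ r, y = t • y'

lemma Nr.trans {D : Finset Γ} {r r' : ℕ} {y y' y'' : Y} (H : Nr D r y y') (H' : Nr D r' y' y'') :
    Nr D (r + r') y y'' := by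
  obtain ⟨t, ht, rfl⟩ := H
  obtain ⟨t', ht', rfl⟩ := H'
  exact ⟨t * t', by rw [pow_add]; exact Finset.mul_mem_mul ht ht', by rw [mul_smul]⟩

lemma inv_mem_pow {D : Finset Γ} (hD : D⁻¹ = D) {r : ℕ} {t : Γ} (ht : t ∈ D ^ r) :
    t⁻¹ ∈ D ^ r := by
  rw [← hD, inv_pow]
  exact Finset.inv_mem_inv ht

lemma Nr.symm {D : Finset Γ} (hD : D⁻¹ = D) {r : ℕ} {y y' : Y} (H : Nr D r y y') :
    Nr D r y' y := by
  obtain ⟨t, ht, rfl⟩ := H
  exact ⟨t⁻¹, inv_mem_pow hD ht, by rw [inv_smul_smul]⟩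

lemma Nr.mono {D : Finset Γ} (h1 : (1 : Γ) ∈ D) {r r' : ℕ} {y y' : Y} (H : Nr D r y y')
    (hr : r ≤ r') : Nr D r' y y' := by
  obtain ⟨t, ht, rfl⟩ := H
  exact ⟨t, Finset.pow_subset_pow_right h1 hr ht, rfl⟩

lemma Nr.refl (D : Finset Γ) (y : Y) : Nr D 0 y y := ⟨1, by simp, by simp⟩

/-- Propagation after `i` levels. -/
def ell : ℕ → ℕ
  | 0 => 1
  | i + 1 => ell i * 13 ^ 2 ^ i

/-- Radius of control after `i` levels. -/
def rad : ℕ → ℕ
  | 0 => 0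
  | i + 1 => ell i * (27 * 13 ^ 2 ^ i) + rad i

variable {G Ω W : Type} [Group G] [MulAction G Ω] [CommRing W]
variable {I : Type} [Fintype I] [DecidableEq I]

omit [Fintype I] [DecidableEq I] in
lemma nr_of_nb {e : MA I G Ω W} {pr : Ω → Y} {D : Finset Γ} (hD : D⁻¹ = D)
    (hst : ∀ v h v', gr e v h v' → Nr D 1 (pr v.2) (pr v'.2)) {r : ℕ} {v v' : I × Ω}
    (H : (gr e).nb r v v') : Nr D r (pr v.2) (pr v'.2) := by
  obtain ⟨h, H⟩ := H
  induction r generalizing v h with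
  | zero =>
    obtain ⟨-, rfl⟩ := H
    exact Nr.refl D _
  | succ r ih =>
    obtain ⟨u, h1, h2, -, Ha, Hb⟩ := H
    rw [add_comm]
    refine Nr.trans ?_ (ih _ Hb)
    rcases Ha with Ha | Ha
    · exact hst _ _ _ Ha
    · exact (hst _ _ _ Ha).symm hD

theorem decomp_ind (c : Cen G Ω) (H : ∀ ω, c.Z ω ≠ 1) {e : MA I G Ω W} (he : e * e = e)
    (pr : Ω → Y) {D : Finset Γ} (hD : D⁻¹ = D) (hD1 : (1 : Γ) ∈ D)
    (hst : ∀ v h v', gr e v h v' → Nr D 1 (pr v.2) (pr v'.2))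
    {𝒱 : ℕ → Set (Set Y)} (h0 : 𝒱 0 = {Set.univ}) {n : ℕ}
    (hdec : ∀ i < n, Decomposes (D ^ (rad (i + 1) + ell (i + 1) + rad (i + 1))) (𝒱 i) (𝒱 (i + 1)))
    (Q : ℕ) (i : ℕ) (hi : i ≤ n) (m : ℕ) :
    ∃ (I' : Type) (_ : Fintype I') (_ : DecidableEq I') (e' : MA I' G Ω W) (π : I' → I)
      (Ad : Type) (_ : Fintype Ad) (Ch : Ad → Y → Set Y → Prop) (ad : Fin Q → I' × Ω → Ad),
      e' * e' = e' ∧ c.T e' = c.T e ∧
      (∀ v h v', gr e' v h v' → (gr e).pw (ell i) (π v.1, v.2) h (π v'.1, v'.2)) ∧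
      Fintype.card Ad = 2 ^ i ∧
      (∀ a y U U', Ch a y U → Ch a y U' → U = U') ∧
      (∀ a y U, Ch a y U → U ∈ 𝒱 i ∧ ∃ u ∈ U, Nr D (rad i) y u) ∧
      (∀ s v, ∃ U, ∀ v', (gr e').nb m v v' → Ch (ad s v) (pr v'.2) U) ∧
      ∀ v, ∃ B : Finset (Fin Q), B.card < 2 ^ i ∧
        ∀ s ∉ B, ∀ v', (gr e').nb m v v' → ad s v' = ad s v := by
  induction i generalizing m with
  | zero =>
    refine ⟨I, inferInstance, inferInstance, e, id, Unit, inferInstance,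
      fun _ _ U => U = Set.univ, fun _ _ => (), he, rfl, fun v h v' Hv => Rl.pw_one Hv, by simp,
      fun _ _ _ _ h1 h2 => h1.trans h2.symm, ?_, fun _ _ => ⟨_, fun _ _ => rfl⟩,
      fun _ => ⟨∅, by simp, fun _ _ _ _ => rfl⟩⟩
    rintro _ y U rfl
    exact ⟨by rw [h0]; rfl, y, trivial, Nr.refl D y⟩
  | succ i ih =>
    set l := 13 ^ 2 ^ i with hl
    obtain ⟨I1, i1, i2, e1, π1, Ad, i3, Ch, ad, k1, k2, k3, k4, k5, k6, k7, k8⟩ :=
      ih (by omega) (l * m + 27 * l)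
    choose! 𝒜 ℬ d1 d2 d3 d4 d5 using hdec i (by omega)
    let L : Ad → Set (I1 × Ω) := fun a =>
      {v | ∃ U, Ch a (pr v.2) U ∧ ∃ U0 ∈ 𝒜 U, ∃ u ∈ U0, Nr D (rad i) (pr v.2) u}
    let b0 := Q * (2 * m + 1)
    obtain ⟨I2, j1, j2, e2, π2, l1, l2, l3, l4⟩ :=
      squeeze_sets c H k1 (Finset.univ : Finset Ad) L (b0 + m)
    rw [Finset.card_univ, k4, ← hl] at l3 l4
    let ct : Fin Q → ℕ := fun s => (s + 1) * (2 * m + 1)
    have hct : ∀ s, m < ct s ∧ ct s ≤ b0 := fun s =>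
      ⟨by simp only [ct]; nlinarith, Nat.mul_le_mul_right _ s.2⟩
    let σ : Ad → I2 × Ω → ℕ := fun a => (gr e2).dst {w | (π2 w.1, w.2) ∈ L a} b0
    let 𝒞 : Bool → Set Y → Set (Set Y) := fun b U => if b then 𝒜 U else ℬ U
    have h𝒞 : ∀ b, ∀ U ∈ 𝒱 i, 𝒞 b U ⊆ 𝒱 (i + 1) ∧
        (𝒞 b U).Pairwise (Apart (D ^ (rad (i + 1) + ell (i + 1) + rad (i + 1)))) := by
      intro b U hU
      cases b
      · exact ⟨d2 U hU, d4 U hU⟩
      · exact ⟨d1 U hU, d3 U hU⟩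
    have hsame : ∀ b, ∀ U ∈ 𝒱 i, ∀ U0 ∈ 𝒞 b U, ∀ U0' ∈ 𝒞 b U, ∀ y y' : Y,
        (∃ u ∈ U0, Nr D (rad (i + 1)) y u) → (∃ u ∈ U0', Nr D (rad (i + 1)) y' u) →
        Nr D (ell (i + 1)) y y' → U0 = U0' := by
      rintro b U hU U0 h1 U0' h2 y y' ⟨u, hu, h3⟩ ⟨u', hu', h4⟩ h5
      by_contra hne
      obtain ⟨t, ht, rfl⟩ := ((h3.symm hD).trans h5).trans h4
      exact (h𝒞 b U hU).2 h2 h1 (Ne.symm hne) t ht u' hu' hu
    have hp2 : ∀ {r : ℕ} {v v' : I2 × Ω}, (gr e2).nb r v v' →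
        (gr e1).nb (l * r) (π2 v.1, v.2) (π2 v'.1, v'.2) := fun Hv =>
      Hv.map (B := gr e1) (fun v : I2 × Ω => (π2 v.1, v.2)) l3
    have hp1 : ∀ {r : ℕ} {v v' : I1 × Ω}, (gr e1).nb r v v' →
        Nr D (ell i * r) (pr v.2) (pr v'.2) := fun Hv =>
      nr_of_nb hD hst (Hv.map (B := gr e) (fun v : I1 × Ω => (π1 v.1, v.2)) k3)
    refine ⟨I2, j1, j2, e2, π1 ∘ π2, Ad × Bool, inferInstance,
      fun ab y U0 => ∃ U, Ch ab.1 y U ∧ U0 ∈ 𝒞 ab.2 U ∧ ∃ u ∈ U0, Nr D (rad (i + 1)) y u,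
      fun s v => (ad s (π2 v.1, v.2), decide (σ (ad s (π2 v.1, v.2)) v < ct s)),
      l1, l2.trans k2, ?_, ?_, ?_, ?_, ?_, ?_⟩
    · intro v h v' Hv
      exact Rl.pw_map (B := gr e) (fun v : I1 × Ω => (π1 v.1, v.2)) k3 (l3 v h v' Hv)
    · rw [Fintype.card_prod, k4, Fintype.card_bool, pow_succ]
    · rintro ⟨a, b⟩ y U0 U0' ⟨U, h1, h2, h3⟩ ⟨U', h4, h5, h6⟩
      obtain rfl := k5 _ _ _ _ h1 h4
      exact hsame b U (k6 _ _ _ h1).1 _ h2 _ h5 y y h3 h6 ((Nr.refl D y).mono hD1 (by omega))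
    · rintro ⟨a, b⟩ y U0 ⟨U, h1, h2, h3⟩
      exact ⟨(h𝒞 b U (k6 _ _ _ h1).1).1 h2, h3⟩
    · intro s v
      obtain ⟨U, hU⟩ := k7 s (π2 v.1, v.2)
      set a := ad s (π2 v.1, v.2) with ha
      have hU' : ∀ v', (gr e2).nb m v v' → ∀ x, (gr e1).nb (27 * l) (π2 v'.1, v'.2) x →
          Ch a (pr x.2) U := fun v' Hv x Hx => hU x ((hp2 Hv).trans Hx)
      have hUV : U ∈ 𝒱 i := (k6 _ _ _ (hU _ (Rl.nb_refl (gr_refl e1) _ _))).1
      have hpt : ∀ v', (gr e2).nb m v v' → ∃ U0 ∈ 𝒞 (decide (σ a v < ct s)) U,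
          ∃ u ∈ U0, Nr D (rad (i + 1)) (pr v'.2) u := by
        intro v' Hv
        by_cases hlt : σ a v < ct s
        · obtain ⟨w, hw, Hw⟩ := Rl.dst_spec (A := gr e2) (L := {w | (π2 w.1, w.2) ∈ L a})
            (b := b0) (v := v) (hlt.trans_le (hct s).2)
          have Hw' : (gr e2).nb (b0 + m) w v' :=
            ((Hw.symm.mono (gr_refl e2) (hlt.le.trans (hct s).2))).trans Hv
          have h1 := l4 a (Finset.mem_univ _) w v' Hw'
          have h2 : ¬ (π2 v'.1, v'.2) ∈ (gr e1).deep (27 * l) (L a)ᶜ := fun h => h1 ⟨hw, h⟩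
          simp only [Rl.deep, Set.mem_ofPred_eq, not_forall, Set.mem_compl_iff, not_not] at h2
          obtain ⟨x, Hx, U', h3, U0, h4, u, hu, h5⟩ := h2
          obtain rfl := k5 _ _ _ _ h3 (hU' v' Hv x Hx)
          exact ⟨U0, by simp only [𝒞, hlt, decide_true, if_true]; exact h4, u, hu,
            (hp1 Hx).trans h5⟩
        · have h1 : (π2 v'.1, v'.2) ∉ L a := by
            intro h
            have := Rl.dst_le (A := gr e2) (L := {w | (π2 w.1, w.2) ∈ L a}) b0 h Hv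
            have := (hct s).1
            exact hlt (by simp only [σ]; omega)
          have h3 := hU' v' Hv _ (Rl.nb_refl (gr_refl e1) _ _)
          obtain ⟨u, hu, h5⟩ := (k6 _ _ _ h3).2
          rw [d5 U hUV] at hu
          rcases hu with ⟨U0, h4, hu⟩ | ⟨U0, h4, hu⟩
          · exact absurd ⟨U, h3, U0, h4, u, hu, h5⟩ h1
          · exact ⟨U0, by simp only [𝒞, hlt, decide_false]; exact h4, u, hu,
              h5.mono hD1 (Nat.le_add_left _ _)⟩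
      obtain ⟨U0, h1, h2⟩ := hpt v (Rl.nb_refl (gr_refl e2) _ _)
      have key : ∀ r ≤ m, ∀ v', (gr e2).nb r v' v → ∃ u ∈ U0, Nr D (rad (i + 1)) (pr v'.2) u := by
        intro r
        induction r with
        | zero =>
          intro _ v' Hv
          rw [Rl.nb_zero Hv]
          exact h2
        | succ r ihr =>
          intro hr v' Hv
          obtain ⟨x, Hx, Hx'⟩ := Rl.nb_succ Hv
          obtain ⟨U0', h3, h4⟩ := hpt v' (Hv.symm.mono (gr_refl e2) hr)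
          have h5 := hp1 (hp2 Hx)
          rw [mul_one] at h5
          rwa [hsame _ U hUV _ h3 _ h1 _ _ h4 (ihr (by omega) x Hx') h5] at h4
      exact ⟨U0, fun v' Hv => ⟨U, hU' v' Hv _ (Rl.nb_refl (gr_refl e1) _ _), h1,
        key m le_rfl v' Hv.symm⟩⟩
    · intro v
      obtain ⟨B, hB, hB'⟩ := k8 (π2 v.1, v.2)
      refine ⟨B ∪ Finset.univ.biUnion fun a => Finset.univ.filter
        fun s => ct s ≤ σ a v + m ∧ σ a v < ct s + m, ?_, ?_⟩
      · refine (Finset.card_union_le _ _).trans_lt ?_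
        have h1 := Finset.card_biUnion_le_card_mul (Finset.univ : Finset Ad) (fun a =>
          Finset.univ.filter fun s : Fin Q => ct s ≤ σ a v + m ∧ σ a v < ct s + m) 1 (by
            intro a _
            rw [Finset.card_le_one]
            intro s hs s' hs'
            simp only [Finset.mem_filter, Finset.mem_univ, true_and, ct] at hs hs'
            apply Fin.ext
            rcases lt_trichotomy (s : ℕ) s' with h | h | h
            · nlinarith [Nat.mul_le_mul_right (2 * m + 1) (Nat.succ_le_succ h)]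
            · exact h
            · nlinarith [Nat.mul_le_mul_right (2 * m + 1) (Nat.succ_le_succ h)])
        rw [Finset.card_univ, k4] at h1
        rw [pow_succ]
        omega
      · intro s hs v' Hv
        simp only [Finset.mem_union, Finset.mem_biUnion, Finset.mem_univ, true_and,
          Finset.mem_filter, not_or, not_exists] at hs
        have h1 := hB' s hs.1 _ ((hp2 Hv).mono (gr_refl e1) (Nat.le_add_right _ _))
        have h2 := hs.2 (ad s (π2 v.1, v.2))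
        have h3 : σ (ad s (π2 v.1, v.2)) v ≤ m + σ (ad s (π2 v.1, v.2)) v' := Rl.dst_lip _ _ Hv
        have h4 : σ (ad s (π2 v.1, v.2)) v' ≤ m + σ (ad s (π2 v.1, v.2)) v :=
          Rl.dst_lip _ _ Hv.symm
        simp only [h1]
        congr 1
        rw [decide_eq_decide]
        omega

end

end Pool.Agent.Lib.MP_7903c7_al
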