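import Mathlib

set_option autoImplicit false

namespace Pool.Agent.Lib.MP_7903c7_al

/-- An increasing homeomorphism of the real line is piecewise projective if there is a finite set
of break points such that on every interval free of break points it is a Moebius map. -/
def PiecewiseProjective (f : ℝ ≃o ℝ) : Prop :=
  ∃ B : Finset ℝ, ∀ J : Set ℝ, J.OrdConnected → Disjoint J (B : Set ℝ) →
    ∃ a b c d : ℝ, a * d - b * c ≠ 0 ∧
      ∀ z ∈ J, c * z + d ≠ 0 ∧ f z = (a * z + b) / (c * z + d)

end Pool.Agent.Lib.MP_7903c7_al
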