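import Pool.Agent.Lib.MP_7903c7_al.Sq2
import Pool.Agent.Lib.MP_7903c7_al.Padic

set_option autoImplicit false
set_option linter.unusedSimpArgs false

namespace Pool.Agent.Lib.MP_7903c7_al

open scoped Classical
open Polynomial

lemma trace_eq_of_nilpotent {B M : Type} [Ring B] [AddCommGroup M] (T : B →+ M)
    (hT : ∀ a b, T (a * b) = T (b * a)) {P Q : B} (hP : P * P = P) (hQ : Q * Q = Q) {n : ℕ}
    (hn : (P - Q) ^ n = 0) : T P = T Q := by
  have kP : ∀ z, P * (P * z) = P * z := fun z => by rw [← mul_assoc, hP]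
  have kQ : ∀ z, Q * (Q * z) = Q * z := fun z => by rw [← mul_assoc, hQ]
  have c1 : Commute ((P - Q) * (P - Q)) P := by
    show _ = _
    simp only [mul_sub, sub_mul, mul_assoc, hP, hQ, kP]
    abel
  have c2 : Commute ((P - Q) * (P - Q)) Q := by
    show _ = _
    simp only [mul_sub, sub_mul, mul_assoc, hP, hQ, kQ]
    abel
  have e1 : (P - Q) * (P - Q) * (P - Q) = (P - Q) - P * Q * P + Q * P * Q := by
    simp only [mul_sub, sub_mul, mul_assoc, hP, hQ]
    abel
  have key : ∀ k : ℕ, T (((P - Q) * (P - Q)) ^ k * (P - Q)) = T (P - Q) := by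
    intro k
    induction k with
    | zero => simp
    | succ k ih =>
      set S := ((P - Q) * (P - Q)) ^ k
      have d1 : S * P = P * S := (c1.pow_left k).eq
      have d2 : S * Q = Q * S := (c2.pow_left k).eq
      have t1 : T (S * (P * Q * P)) = T (S * P * Q) := by
        rw [← mul_assoc, hT, ← mul_assoc, ← mul_assoc, ← d1, mul_assoc S, hP]
      have t2 : T (S * (Q * P * Q)) = T (S * P * Q) := by
        rw [← mul_assoc, hT, ← mul_assoc, ← mul_assoc, ← d2, mul_assoc S, hQ, hT, ← mul_assoc,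
          ← d1]
      rw [pow_succ, mul_assoc, e1, mul_add, mul_sub, map_add, map_sub, t1, t2, ih]
      abel
  have := key n
  rw [(Commute.refl (P - Q)).mul_pow, hn, zero_mul, zero_mul, map_zero, map_sub] at this
  exact sub_eq_zero.mp this.symm

lemma exists_idem_poly (n : ℕ) : ∃ f u q : ℤ[X], f.natDegree < 2 * n + 2 ∧
    f * f - f = (X ^ 2 - X) ^ (n + 1) * u ∧ f = X + q * (X ^ 2 - X) := by
  have hc : IsCoprime (X : ℤ[X]) (X - 1) := ⟨1, -1, by ring⟩
  obtain ⟨a, b, hab⟩ : IsCoprime ((X : ℤ[X]) ^ (n + 1)) ((X - 1) ^ (n + 1)) := hc.pow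
  have hm1 : (X - 1 : ℤ[X]).Monic := monic_X_sub_C (1 : ℤ)
  have hd1 : (X - 1 : ℤ[X]).natDegree = 1 := natDegree_X_sub_C (1 : ℤ)
  have hm : (X ^ (n + 1) * (X - 1) ^ (n + 1) : ℤ[X]).Monic := (monic_X.pow _).mul (hm1.pow _)
  have hdeg : (X ^ (n + 1) * (X - 1) ^ (n + 1) : ℤ[X]).natDegree = 2 * n + 2 := by
    rw [(monic_X.pow _).natDegree_mul (hm1.pow _), natDegree_X_pow, hm1.natDegree_pow, hd1]
    ring
  set P : ℤ[X] := X ^ (n + 1) * (X - 1) ^ (n + 1) with hP
  set f := (a * X ^ (n + 1)) %ₘ P with hf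
  have hfd : f.natDegree < 2 * n + 2 := by
    rw [← hdeg]
    refine natDegree_modByMonic_lt _ hm ?_
    intro h1
    rw [h1, natDegree_one] at hdeg
    omega
  have e1 : f = a * X ^ (n + 1) - P * ((a * X ^ (n + 1)) /ₘ P) := by
    rw [hf, eq_sub_iff_add_eq, modByMonic_add_div]
  set d := (a * X ^ (n + 1)) /ₘ P
  have e2 : f = X ^ (n + 1) * (a - (X - 1) ^ (n + 1) * d) := by rw [e1, hP]; ring
  have e3 : f = 1 + (X - 1) ^ (n + 1) * (-b - X ^ (n + 1) * d) := by
    rw [e1, hP]; linear_combination hab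
  have k1 : (X : ℤ[X]) ∣ f - X := by
    refine Dvd.dvd.sub ?_ dvd_rfl
    rw [e2, pow_succ']
    exact Dvd.dvd.mul_right (Dvd.intro _ rfl) _
  have k2 : (X - 1 : ℤ[X]) ∣ f - X := by
    rw [e3, pow_succ']
    exact ⟨(X - 1) ^ n * (-b - X ^ (n + 1) * d) - 1, by ring⟩
  obtain ⟨q, hq⟩ := hc.mul_dvd k1 k2
  refine ⟨f, (a - (X - 1) ^ (n + 1) * d) * (-b - X ^ (n + 1) * d), q, hfd, ?_,
    by rw [← sub_eq_iff_eq_add', hq]; ring⟩
  have e4 : (X ^ 2 - X : ℤ[X]) ^ (n + 1) = X ^ (n + 1) * (X - 1) ^ (n + 1) := by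
    rw [← mul_pow]
    congr 1
    ring
  calc f * f - f = f * (f - 1) := by ring
    _ = _ := by
      rw [e4]
      nth_rewrite 1 [e2]
      rw [e3]
      ring

lemma one_add_sq_pow {p : ℕ} (hp : p.Prime) (a n : ℕ) :
    ∃ y : ℤ, (1 + (p : ℤ) ^ 2) ^ (p ^ a * n) = 1 + (p : ℤ) ^ (a + 2) * (n + p * y) := by
  have h1 : ∀ n : ℕ, ∃ y : ℤ, (1 + (p : ℤ) ^ 2) ^ n = 1 + (p : ℤ) ^ 2 * (n + p * y) := by
    intro n
    induction n with
    | zero => exact ⟨0, by simp⟩
    | succ n ih =>
      obtain ⟨y, hy⟩ := ih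
      refine ⟨y + p * (n + p * y), ?_⟩
      rw [pow_succ, hy]
      push_cast
      ring
  obtain ⟨y, hy⟩ := h1 n
  obtain ⟨z, hz⟩ := ZMod.exists_one_add_mul_pow_prime_pow_eq (R := ℤ) (u := (p : ℤ) ^ 2) (v := p) hp
    (dvd_pow_self _ two_ne_zero) (by
      rw [← pow_mul, ← pow_succ', ← pow_succ]
      exact pow_dvd_pow _ (by have := hp.two_le; omega)) (n + p * y) a
  refine ⟨y + z, ?_⟩
  rw [mul_comm (p ^ a) n, pow_mul, hy, hz]
  ring

section

variable {G Ω W : Type} [Group G] [MulAction G Ω] [CommRing W]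
variable {I : Type} [Fintype I] [DecidableEq I]

omit [Group G] [MulAction G Ω] [Fintype I] [DecidableEq I] in
lemma cf_sum {ι : Type} (s : Finset ι) (a : ι → MA I G Ω W) (i j : I) (h : G) (ω : Ω) :
    cf (∑ x ∈ s, a x) i j h ω = ∑ x ∈ s, cf (a x) i j h ω := by
  induction s using Finset.induction_on with
  | empty => simp
  | insert x s hx ih => rw [Finset.sum_insert hx, Finset.sum_insert hx, cf_add, ih]

/-- The support graph, with labels recording integer weights. -/
def wr {Q : Type} (e : MA I G Ω W) (om : Q → I × Ω → G → ℤ) :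
    Rl (I × Ω) (G × Multiplicative (Q → ℤ)) :=
  fun v x v' => v'.2 = x.1⁻¹ • v.2 ∧ cf e v.1 v'.1 x.1 v.2 ≠ 0 ∧
    x.2 = Multiplicative.ofAdd fun s => om s v x.1

lemma expand {k Q 𝒮 : Type} [CommRing k] [Fintype 𝒮] {e : MA I G Ω k} (om : Q → I × Ω → G → ℤ)
    {a : MA I G Ω W} (ha : ∀ i j h ω, cf a i j h ω ≠ 0 → cf e i j h ω ≠ 0)
    (χ : 𝒮 → Multiplicative (Q → ℤ) →* W) (N : ℕ) (r : 𝒮 → W) (i j : I) (h : G) (ω : Ω)
    (H : ∀ μ, (wr e om).pw N (i, ω) (h, μ) (j, h⁻¹ • ω) → ∑ S, r S * χ S μ = 0) :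
    ∑ S, r S * cf ((wmulI (fun v h => χ S (Multiplicative.ofAdd fun s => om s v h)) a) ^ N)
      i j h ω = 0 := by
  induction N generalizing r i h ω with
  | zero =>
    simp only [pow_zero, cf_one]
    split_ifs with h0
    · obtain ⟨rfl, rfl⟩ := h0
      simpa using H 1 ⟨rfl, by simp⟩
    · simp
  | succ N ih =>
    have e1 : ∀ S, r S * cf ((wmulI (fun v h => χ S (Multiplicative.ofAdd fun s => om s v h)) a) ^
        (N + 1)) i j h ω = ∑ j', ∑ h1 ∈ lab a, cf a i j' h1 ω *
          ((r S * χ S (Multiplicative.ofAdd fun s => om s (i, ω) h1)) *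
            cf ((wmulI (fun v h => χ S (Multiplicative.ofAdd fun s => om s v h)) a) ^ N)
              j' j (h1⁻¹ * h) (h1⁻¹ • ω)) := by
      intro S
      rw [pow_succ', cf_mul _ _ (lab a) (fun _ _ _ _ H => mem_lab (right_ne_zero_of_mul H)),
        Finset.mul_sum]
      refine Finset.sum_congr rfl fun j' _ => ?_
      rw [Finset.mul_sum]
      refine Finset.sum_congr rfl fun h1 _ => ?_
      rw [cf_wmulI]
      ring
    simp only [e1]
    rw [Finset.sum_comm]
    refine Finset.sum_eq_zero fun j' _ => ?_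
    rw [Finset.sum_comm]
    refine Finset.sum_eq_zero fun h1 _ => ?_
    rw [← Finset.mul_sum]
    by_cases h0 : cf a i j' h1 ω = 0
    · rw [h0, zero_mul]
    · rw [ih, mul_zero]
      intro μ Hμ
      have he : (h1⁻¹ * h)⁻¹ • h1⁻¹ • ω = h⁻¹ • ω := by simp [mul_smul]
      rw [he] at Hμ
      have := H (Multiplicative.ofAdd (fun s => om s (i, ω) h1) * μ)
        ⟨(j', h1⁻¹ • ω), (h1, Multiplicative.ofAdd fun s => om s (i, ω) h1), (h1⁻¹ * h, μ),
          by simp, ⟨rfl, ha _ _ _ _ h0, rfl⟩, Hμ⟩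
      simpa only [map_mul, mul_assoc] using this

theorem weights_vanish (c : Cen G Ω) {k : Type} [CommRing k] {p : ℕ} (hp : p.Prime)
    (π : W →+* k) (hsurj : Function.Surjective π) (hker : ∀ x, π x = 0 → ∃ y, x = p * y)
    (htf : ∀ x : W, p * x = 0 → x = 0) (hpk : (p : k) = 0) {e : MA I G Ω k} (he : e * e = e)
    {Q : Type} [Fintype Q] (om : Q → I × Ω → G → ℤ) {j a n : ℕ} (hn : ¬ p ∣ n)
    (hj : (a + 2) * Fintype.card Q ≤ j)
    (hloop : ∀ N < 2 * j + 2, ∀ v μ, (wr e om).pw N v (c.Z v.2, μ) v →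
      ∃ s, μ.toAdd s = (p ^ a * n : ℕ)) : c.T e = 0 := by
  let J : Ideal W := Ideal.span {(p : W) ^ (j + 1)}
  let W' := W ⧸ J
  let π' : W' →+* k := Ideal.Quotient.lift J π (by
    intro x hx
    obtain ⟨y, rfl⟩ := Ideal.mem_span_singleton'.mp hx
    simp [hpk])
  have hnil : (p : W') ^ (j + 1) = 0 := by
    have : Ideal.Quotient.mk J ((p : W) ^ (j + 1)) = 0 :=
      Ideal.Quotient.eq_zero_iff_mem.mpr (Ideal.mem_span_singleton_self _)
    simpa using this
  have hker' : ∀ x : W', π' x = 0 → ∃ y, x = p * y := by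
    intro x hx
    obtain ⟨x, rfl⟩ := Ideal.Quotient.mk_surjective x
    obtain ⟨y, rfl⟩ := hker x hx
    exact ⟨Ideal.Quotient.mk J y, by simp⟩
  have hsurj' : Function.Surjective π' := fun x =>
    let ⟨y, hy⟩ := hsurj x
    ⟨Ideal.Quotient.mk J y, hy⟩
  have hcancel : ∀ (i : ℕ) (x : W), (p : W) ^ i * x = 0 → x = 0 := by
    intro i
    induction i with
    | zero => intro x hx; simpa using hx
    | succ i ih =>
      intro x hx
      rw [pow_succ', mul_assoc] at hx
      exact ih x (htf _ hx)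
  have htf' : ∀ i ≤ j, ∀ x : W', (p : W') ^ i * x = 0 → π' x = 0 := by
    intro i hi x hx
    obtain ⟨x, rfl⟩ := Ideal.Quotient.mk_surjective x
    have : Ideal.Quotient.mk J ((p : W) ^ i * x) = 0 := by simpa using hx
    obtain ⟨y, hy⟩ := Ideal.mem_span_singleton'.mp (Ideal.Quotient.eq_zero_iff_mem.mp this)
    obtain ⟨t, rfl⟩ := Nat.exists_eq_add_of_le hi
    have h1 : x = p * ((p : W) ^ t * y) := by
      rw [← sub_eq_zero]
      apply hcancel i
      linear_combination -hy
    show π x = 0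
    rw [h1, map_mul, map_natCast, hpk, zero_mul]
  -- elements of the kernel are nilpotent
  have hknil : ∀ x : MA I G Ω W', mapHom π' x = 0 → x ^ (j + 1) = 0 := by
    intro x hx
    let dv : W' → W' := fun x => if H : x ≠ 0 ∧ ∃ y, x = p * y then H.2.choose else 0
    have dv0 : dv 0 = 0 := by simp [dv]
    have hdvp : ∀ x, π' x = 0 → x = p * dv x := by
      intro x hx
      by_cases h0 : x = 0
      · rw [h0, dv0, mul_zero]
      · have H : x ≠ 0 ∧ ∃ y, x = p * y := ⟨h0, hker' x hx⟩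
        simp only [dv, dif_pos H]
        exact H.2.choose_spec
    have h1 : x = ((p : ℤ) : MA I G Ω W') * cmap dv dv0 x := by
      refine cf_ext fun i j h ω => ?_
      rw [cf_intCast_mul, cf_cmap, Int.cast_natCast]
      apply hdvp
      rw [← cf_mapHom, hx, cf_zero]
    rw [h1, (Int.cast_commute _ _).mul_pow, ← Int.cast_pow]
    refine cf_ext fun i j h ω => ?_
    rw [cf_intCast_mul, cf_zero]
    push_cast
    rw [hnil, zero_mul]
  obtain ⟨f, u, q, hf, hfu, hfq⟩ := exists_idem_poly j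
  have hlift : ∀ x : MA I G Ω W', mapHom π' x = e →
      pev x f * pev x f = pev x f ∧ mapHom π' (pev x f) = e := by
    intro x hx
    constructor
    · rw [← sub_eq_zero, ← map_mul, ← map_sub, hfu, map_mul, map_pow, hknil, zero_mul]
      rw [map_sub, map_pow, pev_X, map_sub, map_pow, hx, pow_two, he, sub_self]
    · rw [map_pev, hx, hfq, map_add, map_mul, map_sub, map_pow, pev_X, pow_two, he, sub_self,
        mul_zero, add_zero]
  have hind : ∀ x y : MA I G Ω W', mapHom π' x = e → mapHom π' y = e →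
      c.T (pev x f) = c.T (pev y f) := by
    intro x y hx hy
    refine trace_eq_of_nilpotent c.T c.T_mul_comm (hlift x hx).1 (hlift y hy).1 (hknil _ ?_)
    rw [map_sub, (hlift x hx).2, (hlift y hy).2, sub_self]
  -- the lift
  let sec : k → W' := fun x => if x = 0 then 0 else (hsurj' x).choose
  have sec0 : sec 0 = 0 := by simp [sec]
  have hπsec : ∀ x, π' (sec x) = x := by
    intro x
    by_cases h0 : x = 0
    · simp [sec, h0]
    · simp only [sec, if_neg h0]
      exact (hsurj' x).choose_spec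
  let E : MA I G Ω W' := cmap sec sec0 e
  have hπE : mapHom π' E = e := cf_ext fun i j h ω => by rw [cf_mapHom, cf_cmap, hπsec]
  have hE : ∀ i j h ω, cf E i j h ω ≠ 0 → cf e i j h ω ≠ 0 := by
    intro i j h ω hne h0
    apply hne
    rw [cf_cmap, h0, sec0]
  have hu : IsUnit (1 + (p : W') ^ 2) :=
    IsNilpotent.isUnit_one_add ⟨j + 1, by rw [← pow_mul, mul_comm, pow_mul, hnil]; simp⟩
  let lam : W'ˣ := hu.unit
  have hlam : ∀ z : ℤ, π' ((lam ^ z : W'ˣ) : W') = 1 := by
    intro z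
    have : Units.map (π' : W' →* k) lam = 1 := by
      ext
      simp [lam, hpk]
    have h2 := congrArg (fun x : kˣ => ((x ^ z : kˣ) : k)) this
    simp only [one_zpow, Units.val_one, ← map_zpow] at h2
    exact h2
  let χ : (Q → Bool) → Multiplicative (Q → ℤ) →* W' := fun S =>
    { toFun := fun μ => ∏ s, if S s then ((lam ^ (μ.toAdd s) : W'ˣ) : W') else 1
      map_one' := by simp
      map_mul' := fun μ μ' => by
        rw [← Finset.prod_mul_distrib]
        refine Finset.prod_congr rfl fun s _ => ?_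
        split_ifs
        · rw [toAdd_mul, Pi.add_apply, zpow_add, Units.val_mul]
        · rw [mul_one] }
  let Λ : W' := ((lam ^ ((p ^ a * n : ℕ) : ℤ) : W'ˣ) : W')
  let r : (Q → Bool) → W' := fun S => ∏ s, if S s then 1 else -Λ
  have hr : ∀ μ, ∑ S, r S * χ S μ = ∏ s, (((lam ^ (μ.toAdd s) : W'ˣ) : W') - Λ) := by
    intro μ
    have := Finset.prod_univ_sum (fun _ : Q => (Finset.univ : Finset Bool))
      (fun s b => if b then ((lam ^ (μ.toAdd s) : W'ˣ) : W') else -Λ)
    simp only [Fintype.piFinset_univ, Fintype.univ_bool, Finset.mem_singleton, Bool.true_eq_false,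
      not_false_eq_true, Finset.sum_insert, if_true, Finset.sum_singleton, Bool.false_eq_true,
      if_false, ← sub_eq_add_neg] at this
    rw [this]
    refine Finset.sum_congr rfl fun S _ => ?_
    show (∏ s, _) * (∏ s, _) = _
    rw [← Finset.prod_mul_distrib]
    refine Finset.prod_congr rfl fun s _ => ?_
    split_ifs
    · rw [one_mul]
    · rw [mul_one]
  let aS : (Q → Bool) → MA I G Ω W' := fun S =>
    wmulI (fun v h => χ S (Multiplicative.ofAdd fun s => om s v h)) E
  have haS : ∀ S, mapHom π' (aS S) = e := by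
    intro S
    refine cf_ext fun i j h ω => ?_
    rw [cf_mapHom, cf_wmulI, map_mul, ← cf_mapHom, hπE]
    have : π' (χ S (Multiplicative.ofAdd fun s => om s (i, ω) h)) = 1 := by
      show π' (∏ s, _) = 1
      rw [map_prod]
      refine Finset.prod_eq_one fun s _ => ?_
      split_ifs
      · exact hlam _
      · exact map_one _
    rw [this, one_mul]
  have hpow : ∀ N < 2 * j + 2, ∑ S, r S * c.T (aS S ^ N) = 0 := by
    intro N hN
    have h1 : ∀ S, r S * c.T (aS S ^ N) = c.T (wmul (fun _ _ => r S) (aS S ^ N)) :=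
      fun S => (c.T_wmul _ _ (fun _ => rfl) _).symm
    simp only [h1]
    rw [← map_sum]
    refine c.T_eq_zero fun i ω => ?_
    rw [cf_sum]
    refine expand om hE χ N r i i _ ω fun μ Hμ => ?_
    rw [c.fix] at Hμ
    obtain ⟨s, hs⟩ := hloop N hN (i, ω) μ Hμ
    rw [hr]
    exact Finset.prod_eq_zero (Finset.mem_univ s) (by rw [hs, sub_self])
  have hmain : (1 - Λ) ^ Fintype.card Q * c.T (pev E f) = 0 := by
    have h1 := hr 1
    simp only [map_one, mul_one, toAdd_one, Pi.zero_apply, zpow_zero, Units.val_one,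
      Finset.prod_const, Finset.card_univ] at h1
    rw [← h1, Finset.sum_mul]
    have h2 : ∀ S, r S * c.T (pev E f) =
        ∑ i ∈ Finset.range (2 * j + 2), (f.coeff i : W') * (r S * c.T (aS S ^ i)) := by
      intro S
      rw [← hind _ _ (haS S) hπE, pev_sum _ hf, map_sum, Finset.mul_sum]
      refine Finset.sum_congr rfl fun i _ => ?_
      rw [c.T_intCast_mul]
      ring
    simp only [h2]
    rw [Finset.sum_comm]
    refine Finset.sum_eq_zero fun i hi => ?_
    rw [← Finset.mul_sum, hpow i (Finset.mem_range.mp hi), mul_zero]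
  obtain ⟨y, hy⟩ := one_add_sq_pow hp a n
  have hΛ : Λ = 1 + (p : W') ^ (a + 2) * (n + p * (y : W')) := by
    have := congrArg (Int.castRingHom W') hy
    simp only [map_pow, map_add, map_mul, map_one, map_natCast, eq_intCast] at this
    rw [← this]
    simp only [Λ, zpow_natCast, Units.val_pow_eq_pow_val]
    rfl
  have h3 := htf' ((a + 2) * Fintype.card Q) hj
    ((-(n + p * (y : W'))) ^ Fintype.card Q * c.T (pev E f)) (by
      rw [← hmain, hΛ, ← mul_assoc, pow_mul, ← mul_pow]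
      congr 2
      ring)
  rw [map_mul, ← c.T_mapHom, (hlift E hπE).2, map_pow, map_neg, map_add, map_mul, map_natCast,
    map_natCast, hpk, zero_mul, add_zero] at h3
  have hunit : IsUnit (n : k) := by
    obtain ⟨α, β, hαβ⟩ : IsCoprime (p : ℤ) (n : ℤ) :=
      Nat.isCoprime_iff_coprime.mpr ((Nat.Prime.coprime_iff_not_dvd hp).mpr hn)
    have := congrArg (Int.cast : ℤ → k) hαβ
    push_cast at this
    rw [hpk, mul_zero, zero_add] at this
    exact IsUnit.of_mul_eq_one_right _ this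
  exact (hunit.neg.pow _).mul_right_eq_zero.mp h3

end

end Pool.Agent.Lib.MP_7903c7_al
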