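import Pool.Agent.Lib.MP_7903c7_al.Decomp
import Pool.Agent.Lib.MP_7903c7_al.Weights
import Pool.Agent.Lib.MP_7903c7_al.Cocycle

set_option autoImplicit false

namespace Pool.Agent.Lib.MP_7903c7_al

open scoped Classical Pointwise

section

variable {Γ : Type} [Group Γ]

lemma exists_psi (T : Finset Γ) : ∃ (C : ℕ) (Ψ : Γ → Γ → ℤ),
    (∀ z, ∀ x ∈ Subgroup.closure (T : Set Γ), ∀ y ∈ Subgroup.closure (T : Set Γ),
      Ψ z (x * y) = Ψ z x + Ψ z y) ∧
    (∀ z, ∀ x ∈ Subgroup.closure (T : Set Γ),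
      Ψ (x * z * x⁻¹) = Ψ z ∧ Ψ z (x * z * x⁻¹) = Ψ z z) ∧
    (∀ z ∈ Subgroup.closure (T : Set Γ), (∀ k : ℕ, 0 < k →
      z ^ k ∉ ⁅Subgroup.closure (T : Set Γ), Subgroup.closure (T : Set Γ)⁆) → Ψ z z ≠ 0) ∧
    ∀ z, ∀ t ∈ T, |Ψ z t| ≤ C := by
  set H := Subgroup.closure (T : Set Γ) with hH
  have i1 : Group.FG H := Group.closure_finset_fg T
  have i2 : Group.FG (Abelianization H) :=
    Group.fg_of_surjective (f := Abelianization.of) (QuotientGroup.mk'_surjective _)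
  have i3 : Module.Finite ℤ (Additive (Abelianization H)) :=
    Module.Finite.iff_addGroup_fg.mpr (GroupFG.iff_add_fg.mp i2)
  let M := Additive (Abelianization H) ⧸ Submodule.torsion ℤ (Additive (Abelianization H))
  let cls : Γ → M := fun x =>
    if h : x ∈ H then Submodule.Quotient.mk (Additive.ofMul (Abelianization.of ⟨x, h⟩)) else 0
  have hadd : ∀ x ∈ H, ∀ y ∈ H, cls (x * y) = cls x + cls y := by
    intro x hx y hy
    simp only [cls, dif_pos hx, dif_pos hy, dif_pos (H.mul_mem hx hy)]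
    rw [← Submodule.Quotient.mk_add, ← ofMul_mul, ← map_mul]
    rfl
  have hconj : ∀ z, ∀ x ∈ H, cls (x * z * x⁻¹) = cls z := by
    intro z x hx
    by_cases hz : z ∈ H
    · have h1 := hadd _ (H.mul_mem (H.mul_mem hx hz) (H.inv_mem hx)) x hx
      rw [inv_mul_cancel_right, hadd x hx z hz, add_comm] at h1
      exact (add_right_cancel h1).symm
    · have : x * z * x⁻¹ ∉ H := fun h => hz (by
        have := H.mul_mem (H.mul_mem (H.inv_mem hx) h) hx
        simpa [mul_assoc] using this)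
      simp only [cls, dif_neg hz, dif_neg this]
  let b := Module.Free.chooseBasis ℤ M
  let F : M → M →ₗ[ℤ] ℤ := fun y => if h : ∃ i, b.coord i y ≠ 0 then b.coord h.choose else 0
  refine ⟨Finset.univ.sup fun i => T.sup fun t => (b.coord i (cls t)).natAbs,
    fun z x => F (cls z) (cls x), fun z x hx y hy => by simp only [hadd x hx y hy, map_add],
    fun z x hx => by simp only [hconj z x hx, and_self], ?_, ?_⟩
  · intro z hz hk
    have h1 : ∃ i, b.coord i (cls z) ≠ 0 := by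
      by_contra hcon
      push Not at hcon
      have h2 : cls z = 0 := b.forall_coord_eq_zero_iff.mp hcon
      simp only [cls, dif_pos hz] at h2
      obtain ⟨⟨a, ha⟩, h3⟩ := (Submodule.mem_torsion_iff _).mp
        ((Submodule.Quotient.mk_eq_zero _).mp h2)
      refine hk a.natAbs (Int.natAbs_pos.mpr (nonZeroDivisors.ne_zero ha)) ?_
      have h4 : a.natAbs • Additive.ofMul (Abelianization.of (⟨z, hz⟩ : H)) = 0 :=
        natAbs_nsmul_eq_zero.mpr h3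
      rw [← ofMul_pow, ← map_pow] at h4
      have h5 : (⟨z, hz⟩ : H) ^ a.natAbs ∈ commutator H := by
        rw [← Abelianization.ker_of]
        exact h4
      rw [← Subgroup.map_subtype_commutator]
      exact ⟨_, h5, rfl⟩
    simp only [F, dif_pos h1]
    exact h1.choose_spec
  · intro z t ht
    simp only [F]
    split_ifs with h
    · rw [← Int.natCast_natAbs, Nat.cast_le]
      exact (Finset.le_sup (f := fun t => (b.coord h.choose (cls t)).natAbs) ht).trans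
        (Finset.le_sup (f := fun i => T.sup fun t => (b.coord i (cls t)).natAbs)
          (Finset.mem_univ h.choose))
    · simp

lemma exists_psi_unif (T : Finset Γ) : ∃ (C : ℕ) (H : Subgroup Γ → Subgroup Γ)
    (Ψ : Subgroup Γ → Γ → Γ → ℤ), ∀ Λ,
    (∀ z, ∀ x ∈ H Λ, ∀ y ∈ H Λ, Ψ Λ z (x * y) = Ψ Λ z x + Ψ Λ z y) ∧
    (∀ z, ∀ x ∈ H Λ, Ψ Λ (x * z * x⁻¹) = Ψ Λ z ∧ Ψ Λ z (x * z * x⁻¹) = Ψ Λ z z) ∧
    (∀ z ∈ H Λ, (∀ k : ℕ, 0 < k → z ^ k ∉ ⁅Λ, Λ⁆) → Ψ Λ z z ≠ 0) ∧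
    ∀ t ∈ T, t ∈ Λ → t ∈ H Λ ∧ ∀ z, |Ψ Λ z t| ≤ C := by
  choose C Ψ h1 h2 h3 h4 using fun T : Finset Γ => exists_psi T
  refine ⟨T.powerset.sup C, fun Λ => Subgroup.closure (T.filter (· ∈ Λ) : Finset Γ),
    fun Λ => Ψ (T.filter (· ∈ Λ)), fun Λ => ⟨h1 _, h2 _, fun z hz hk => h3 _ z hz ?_, ?_⟩⟩
  · have hle : Subgroup.closure ((T.filter (· ∈ Λ) : Finset Γ) : Set Γ) ≤ Λ := by
      rw [Subgroup.closure_le]
      intro x hx
      exact (Finset.mem_filter.mp hx).2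
    exact fun k h0 h => hk k h0 (Subgroup.commutator_mono hle hle h)
  · intro t ht hΛ
    have h5 := Finset.mem_filter.mpr ⟨ht, hΛ⟩
    refine ⟨Subgroup.subset_closure h5, fun z => (h4 _ z t h5).trans ?_⟩
    exact_mod_cast Finset.le_sup (f := C) (Finset.mem_powerset.mpr (Finset.filter_subset _ T))

lemma exists_params {p : ℕ} (hp : p.Prime) (C Q : ℕ) : ∃ j a n : ℕ, ¬ p ∣ n ∧ (a + 2) * Q ≤ j ∧
    ∀ z : ℤ, z ≠ 0 → |z| ≤ C * (2 * j + 1 : ℕ) → z ∣ (p ^ a * n : ℕ) := by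
  set K := C * (8 * Q + 1) + 1 with hK
  set M := C * (2 * ((2 * K + 2) * Q) + 1) with hM
  have hM2 : M < 2 ^ (2 * K) := by
    have h1 : K < 2 ^ K := Nat.lt_two_pow_self
    have h2 : M ≤ K * K := by
      have h3 : 1 ≤ K := by omega
      calc M ≤ C * (K * (8 * Q + 1)) := Nat.mul_le_mul_left _ (by nlinarith)
        _ = K * (C * (8 * Q + 1)) := by ring
        _ ≤ K * K := Nat.mul_le_mul_left _ (by omega)
    rw [two_mul, pow_add]
    exact h2.trans_lt (Nat.mul_self_lt_mul_self h1)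
  refine ⟨(2 * K + 2) * Q, 2 * K, ∏ u ∈ (Finset.range (M + 1)).filter (fun u => ¬ p ∣ u), u,
    ?_, le_rfl, ?_⟩
  · intro h
    obtain ⟨u, hu, h1⟩ := (hp.prime.dvd_finsetProd_iff _).mp h
    exact (Finset.mem_filter.mp hu).2 h1
  · intro z hz hzM
    have h1 : z.natAbs ≤ M := by
      rw [← Int.natCast_natAbs] at hzM
      exact_mod_cast hzM
    have h0 : z.natAbs ≠ 0 := Int.natAbs_ne_zero.mpr hz
    obtain ⟨x, u, hu, hxu⟩ := Nat.exists_eq_pow_mul_and_not_dvd h0 p hp.ne_one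
    have hu0 : 0 < u := Nat.pos_of_ne_zero (by rintro rfl; exact hu (dvd_zero p))
    have hx0 : 0 < p ^ x := pow_pos hp.pos x
    rw [← Int.natAbs_dvd, Int.natCast_dvd_natCast, hxu]
    refine mul_dvd_mul (pow_dvd_pow _ ?_) (Finset.dvd_prod_of_mem _ (Finset.mem_filter.mpr
      ⟨Finset.mem_range.mpr ?_, hu⟩))
    · have h2 : 2 ^ x ≤ p ^ x := Nat.pow_le_pow_left hp.two_le x
      have h3 : p ^ x ≤ p ^ x * u := Nat.le_mul_of_pos_right _ hu0
      exact ((Nat.pow_lt_pow_iff_right one_lt_two).mp (by omega : 2 ^ x < 2 ^ (2 * K))).le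
    · have h3 : u ≤ p ^ x * u := Nat.le_mul_of_pos_left _ hx0
      omega

variable {Y G Ω W : Type} [MulAction Γ Y] [Group G] [MulAction G Ω] [CommRing W]
variable {I : Type} [Fintype I] [DecidableEq I]

theorem fdc_abs (c : Cen G Ω) {k : Type} [CommRing k] {p : ℕ} (hp : p.Prime)
    (π : W →+* k) (hsurj : Function.Surjective π) (hker : ∀ x, π x = 0 → ∃ y, x = p * y)
    (htf : ∀ x : W, p * x = 0 → x = 0) (hpk : (p : k) = 0)
    (hY : StraightFDC Γ Y) (pr : Ω → Y) (κ : G → Ω → Γ)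
    (hκ : ∀ h1 h2 ω, κ (h1 * h2) ω = κ h1 ω * κ h2 (h1⁻¹ • ω))
    (hfin : ∀ h, (Set.range (κ h)).Finite) (hpr : ∀ h ω, pr ω = κ h ω • pr (h⁻¹ • ω))
    (hnt : ∀ ω y (τ : Γ), pr ω = τ • y → ∀ k : ℕ, 0 < k → (τ⁻¹ * κ (c.Z ω) ω * τ) ^ k ∉
      ⁅MulAction.stabilizer Γ y, MulAction.stabilizer Γ y⁆)
    {e : MA I G Ω k} (he : e * e = e) : c.T e = 0 := by
  rcases isEmpty_or_nonempty Ω with hΩ | ⟨⟨ω0⟩⟩
  · exact c.T_eq_zero fun _ ω => hΩ.elim ω
  have : Nonempty Y := ⟨pr ω0⟩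
  have κ1 : ∀ ω, κ 1 ω = 1 := fun ω => by simpa using hκ 1 1 ω
  have hZ : ∀ ω, c.Z ω ≠ 1 := by
    intro ω h0
    refine hnt ω (pr ω) 1 (one_smul _ _).symm 1 one_pos ?_
    rw [h0, κ1]
    simp
  have hF : (⋃ h ∈ (insert 1 (lab e) : Finset G), Set.range (κ h)).Finite :=
    (Finset.finite_toSet _).biUnion fun h _ => hfin h
  set D : Finset Γ := insert 1 (hF.toFinset ∪ hF.toFinset⁻¹) with hDdef
  have hD : D⁻¹ = D := by
    ext x
    simp only [hDdef, Finset.mem_inv', Finset.mem_insert, Finset.mem_union, inv_eq_one, inv_inv]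
    tauto
  have hD1 : (1 : Γ) ∈ D := Finset.mem_insert_self _ _
  have hκD : ∀ v h v', gr e v h v' → κ h v.2 ∈ D := fun v h v' Hv =>
    Finset.mem_insert_of_mem (Finset.mem_union_left _ (hF.mem_toFinset.mpr
      (Set.mem_biUnion (gr_lab Hv) ⟨_, rfl⟩)))
  have hκDr : ∀ r v h v', (gr e).pw r v h v' → κ h v.2 ∈ D ^ r := by
    intro r
    induction r with
    | zero =>
      rintro v h v' ⟨rfl, -⟩
      rw [κ1]
      simp
    | succ r ih =>
      rintro v h v' ⟨u, h1, h2, rfl, Ha, Hb⟩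
      rw [hκ, pow_succ', ← gr_snd Ha]
      exact Finset.mul_mem_mul (hκD _ _ _ Ha) (ih _ _ _ Hb)
  have hst : ∀ v h v', gr e v h v' → Nr D 1 (pr v.2) (pr v'.2) := fun v h v' Hv =>
    ⟨κ h v.2, by rw [pow_one]; exact hκD _ _ _ Hv, by rw [gr_snd Hv]; exact hpr h v.2⟩
  obtain ⟨n, 𝒱, T, h0, hdec, hT⟩ := hY fun i => D ^ (rad (i + 1) + ell (i + 1) + rad (i + 1))
  have hbp : ∀ U : Set Y, ∃ y0, U.Nonempty → y0 ∈ U := fun U => by
    by_cases h : U.Nonempty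
    · exact ⟨_, fun _ => h.choose_spec⟩
    · exact ⟨pr ω0, fun h' => absurd h' h⟩
  choose bp hbp using hbp
  have hτ : ∀ U y, ∃ τ : Γ, U ∈ 𝒱 n → (∃ u ∈ U, Nr D (rad n) y u) →
      τ ∈ D ^ rad n * T ∧ y = τ • bp U := by
    intro U y
    by_cases h : U ∈ 𝒱 n ∧ ∃ u ∈ U, Nr D (rad n) y u
    · obtain ⟨hU, u, hu, t, ht, rfl⟩ := h
      obtain ⟨t', ht', h1⟩ := hT U hU _ (hbp U ⟨u, hu⟩) u hu
      exact ⟨t * t', fun _ _ => ⟨Finset.mul_mem_mul ht ht', by rw [mul_smul, h1]⟩⟩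
    · exact ⟨1, fun h1 h2 => absurd ⟨h1, h2⟩ h⟩
  choose τ hτ using hτ
  obtain ⟨C, H, Ψ, hΨ⟩ := exists_psi_unif ((D ^ rad n * T)⁻¹ * D ^ ell n * (D ^ rad n * T))
  obtain ⟨j, a, n', hn', hj, hdvd⟩ := exists_params hp C (2 ^ n)
  obtain ⟨I', i1, i2, e', π', Ad, i3, Ch, ad, k1, k2, k3, -, k5, k6, k7, k8⟩ :=
    decomp_ind c hZ he pr hD hD1 hst h0 hdec (2 ^ n) n le_rfl (2 * j + 1)
  choose U hU using k7
  let η : Set Y → G → Ω → Γ := fun U h ω => (τ U (pr ω))⁻¹ * κ h ω * τ U (pr (h⁻¹ • ω))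
  have hη : ∀ U h1 h2 ω, η U (h1 * h2) ω = η U h1 ω * η U h2 (h1⁻¹ • ω) := by
    intro U h1 h2 ω
    simp only [η, hκ, mul_inv_rev, mul_smul]
    group
  let ψ : Set Y → Ω → Γ → ℤ := fun U ω => Ψ (MulAction.stabilizer Γ (bp U)) (η U (c.Z ω) ω)
  let om : Fin (2 ^ n) → I' × Ω → G → ℤ := fun s v h =>
    ((p ^ a * n' : ℕ) : ℤ) / ψ (U s v) v.2 (η (U s v) (c.Z v.2) v.2) *
      ψ (U s v) v.2 (η (U s v) h v.2)
  rw [← k2]
  refine weights_vanish c hp π hsurj hker htf hpk k1 om (j := j) hn'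
    (by rwa [Fintype.card_fin]) ?_
  intro N hN v μ Hμ
  obtain ⟨B, hB, hB'⟩ := k8 v
  obtain ⟨s, -, hs⟩ := Finset.exists_mem_notMem_of_card_lt_card (s := B) (t := Finset.univ)
    (by rwa [Finset.card_univ, Fintype.card_fin])
  refine ⟨s, ?_⟩
  obtain ⟨g1, g2, g3, g4⟩ := hΨ (MulAction.stabilizer Γ (bp (U s v)))
  have hnear : ∀ x, (gr e').nb (2 * j + 1) v x →
      τ (U s v) (pr x.2) ∈ D ^ rad n * T ∧ pr x.2 = τ (U s v) (pr x.2) • bp (U s v) :=
    fun x Hx => hτ _ _ (k6 _ _ _ (hU s v x Hx)).1 (k6 _ _ _ (hU s v x Hx)).2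
  have key : ∀ r x l x', (wr e' om).pw r x l x' → ∀ r0, (gr e').nb r0 v x → r0 + r ≤ 2 * j + 1 →
      ψ (U s v) x.2 = ψ (U s v) v.2 →
      ψ (U s v) x.2 (η (U s v) (c.Z x.2) x.2) = ψ (U s v) v.2 (η (U s v) (c.Z v.2) v.2) →
      η (U s v) l.1 x.2 ∈ H (MulAction.stabilizer Γ (bp (U s v))) ∧
      l.2.toAdd s = ((p ^ a * n' : ℕ) : ℤ) / ψ (U s v) v.2 (η (U s v) (c.Z v.2) v.2) *
        ψ (U s v) v.2 (η (U s v) l.1 x.2) ∧
      |ψ (U s v) v.2 (η (U s v) l.1 x.2)| ≤ C * r := by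
    intro r
    induction r with
    | zero =>
      rintro x l x' ⟨rfl, -⟩ r0 - - - -
      have h1 : η (U s v) 1 x.2 = 1 := by simp [η, κ1]
      have h2 : ψ (U s v) v.2 1 = 0 := by
        simpa using g1 (η (U s v) (c.Z v.2) v.2) 1 (one_mem _) 1 (one_mem _)
      simp [h1, h2]
    | succ r ih =>
      rintro x l x' ⟨y, l1, l2, rfl, ⟨f1, f2, f3⟩, Hb⟩ r0 Hx hr q1 q2
      have Hxy : gr e' x l1.1 y := Or.inr ⟨f1, f2⟩
      have Hy : (gr e').nb (r0 + 1) v y := Hx.trans ⟨_, Rl.pw_one (Or.inl Hxy)⟩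
      have Hx' := Hx.mono (gr_refl e') (by omega : r0 ≤ 2 * j + 1)
      obtain ⟨t1, t2⟩ := hnear x Hx'
      obtain ⟨t3, t4⟩ := hnear y (Hy.mono (gr_refl e') (by omega))
      rw [f1] at t3 t4
      obtain ⟨u1, u2⟩ := g4 (η (U s v) l1.1 x.2) (Finset.mul_mem_mul (Finset.mul_mem_mul
        (Finset.inv_mem_inv t1) (hκDr _ _ _ _ (k3 _ _ _ Hxy))) t3) (by
          rw [MulAction.mem_stabilizer_iff]
          simp only [η, mul_smul]
          rw [← t4, ← hpr, inv_smul_eq_iff]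
          exact t2)
      have hUx : U s x = U s v := by
        refine k5 _ _ _ _ (hU s x x (Rl.nb_refl (gr_refl e') _ _)) ?_
        rw [hB' s hs x Hx']
        exact hU s v x Hx'
      have hζ : η (U s v) (c.Z x.2) x.2 =
          η (U s v) l1.1 x.2 * η (U s v) (c.Z y.2) y.2 * (η (U s v) l1.1 x.2)⁻¹ := by
        have h1 := hη (U s v) (c.Z x.2) l1.1 x.2
        have h2 := hη (U s v) l1.1 (c.Z y.2) x.2
        have h3 : l1.1 * c.Z y.2 = c.Z x.2 * l1.1 := by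
          rw [f1, c.conj]
          group
        rw [c.fix] at h1
        rw [← f1, h3, h1] at h2
        rw [← h2, mul_inv_cancel_right]
      have q3 : ψ (U s v) y.2 = ψ (U s v) x.2 := by
        simp only [ψ]
        rw [hζ, (g2 _ _ u1).1]
      have q4 : ψ (U s v) y.2 (η (U s v) (c.Z y.2) y.2) =
          ψ (U s v) x.2 (η (U s v) (c.Z x.2) x.2) := by
        rw [← q3, hζ]
        exact (g2 _ _ u1).2.symm
      obtain ⟨w1, w2, w3⟩ := ih y l2 x' Hb (r0 + 1) Hy (by omega) (q3.trans q1) (q4.trans q2)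
      have e1 : η (U s v) (l1 * l2).1 x.2 = η (U s v) l1.1 x.2 * η (U s v) l2.1 y.2 := by
        rw [Prod.fst_mul, hη, f1]
      have e2 : ψ (U s v) v.2 (η (U s v) (l1 * l2).1 x.2) =
          ψ (U s v) v.2 (η (U s v) l1.1 x.2) + ψ (U s v) v.2 (η (U s v) l2.1 y.2) := by
        rw [e1]
        exact g1 _ _ u1 _ w1
      refine ⟨by rw [e1]; exact mul_mem u1 w1, ?_, ?_⟩
      · rw [Prod.snd_mul, toAdd_mul, Pi.add_apply, w2, f3, e2, toAdd_ofAdd]
        simp only [om, hUx]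
        rw [q2, q1]
        ring
      · rw [e2]
        have := u2 (η (U s v) (c.Z v.2) v.2)
        have h4 := abs_add_le (ψ (U s v) v.2 (η (U s v) l1.1 x.2))
          (ψ (U s v) v.2 (η (U s v) l2.1 y.2))
        push_cast
        simp only [ψ] at *
        linarith
  obtain ⟨w1, w2, w3⟩ := key N v _ v Hμ 0 (Rl.nb_refl (gr_refl e') _ _) (by omega) rfl rfl
  rw [w2]
  refine Int.ediv_mul_cancel (hdvd _ (g3 _ w1 ?_) (w3.trans ?_))
  · have := hnt v.2 _ _ (hnear v (Rl.nb_refl (gr_refl e') _ _)).2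
    simpa only [η, c.fix] using this
  · exact mul_le_mul_of_nonneg_left (by exact_mod_cast (by omega)) (by positivity)

theorem fdc_vanish {X : Type} [MulAction G X] {c : G → X → Γ}
    (hc : ∀ h h' x, c (h * h') x = c h (h' • x) * c h' x) (hfin : ∀ h, (Set.range (c h)).Finite)
    (hY : StraightFDC Γ Y) {g : G} {x : X} {y : Y}
    (hx : ∀ z : G, z * g = g * z → z • x = x ∧ c z x • y = y)
    (hinf : ∀ n : ℕ, 0 < n →
      c g x ^ n ∉ ⁅MulAction.stabilizer Γ y, MulAction.stabilizer Γ y⁆)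
    {R : Type} [CommRing R] [IsDomain R] {A : Matrix I I (MonoidAlgebra R G)} (hA : A * A = A) :
    tau (fun h => IsConj h g) A = 0 := by
  by_contra hne
  obtain ⟨k, i1, p, hp, i2, i3, A', hA', hne'⟩ := reduce_charP _ hA hne
  apply hne'
  have hg : g • x = x := (hx g rfl).1
  have hΩ : ∀ ω : Orb ({g} : Finset G), IsConj g ω.1 := by
    intro ω
    obtain ⟨f, hf, hc⟩ := ω.2
    rwa [Finset.mem_singleton.mp hf] at hc
  have hT : tau (fun h => IsConj h g) A' =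
      (orbCen {g}).T ((emb0 G (Orb {g}) k).mapMatrix A') := by
    rw [tau_apply, Cen.T_apply]
    refine Finset.sum_congr rfl fun i _ => ?_
    rw [RingHom.mapMatrix_apply, Matrix.map_apply, Cen.T0_emb0]
    refine tau0_congr fun h _ => ⟨fun H1 => ⟨⟨h, g, Finset.mem_singleton_self g, H1.symm⟩, rfl⟩, ?_⟩
    rintro ⟨ω, rfl⟩
    exact (hΩ ω).symm
  rw [hT]
  choose yy hyy using fun ω => isConj_iff.mp (hΩ ω)
  have hpt : ∀ (ω : Orb ({g} : Finset G)) (z : G), z * g * z⁻¹ = ω.1 →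
      yy ω • x = z • x ∧ c (yy ω) x • y = c z x • y := by
    intro ω z hz
    have h1 : (z⁻¹ * yy ω) * g = g * (z⁻¹ * yy ω) := by
      calc _ = z⁻¹ * (yy ω * g * (yy ω)⁻¹) * yy ω := by group
        _ = _ := by rw [hyy, ← hz]; group
    obtain ⟨h2, h3⟩ := hx _ h1
    have h4 := hc z (z⁻¹ * yy ω) x
    rw [mul_inv_cancel_left, h2] at h4
    rw [mul_smul, inv_smul_eq_iff] at h2
    exact ⟨h2, by rw [h4, mul_smul, h3]⟩
  have hpte : ∀ (h : G) (ω : Orb ({g} : Finset G)), yy (h • ω) • x = h • yy ω • x ∧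
      c (yy (h • ω)) x • y = c h (yy ω • x) • c (yy ω) x • y := by
    intro h ω
    have := hpt (h • ω) (h * yy ω) (by
      show _ = h * ω.1 * h⁻¹
      rw [← hyy]
      group)
    rwa [mul_smul, hc, mul_smul] at this
  have : Fact p.Prime := ⟨hp⟩
  refine fdc_abs (orbCen {g}) hp (WittVector.constantCoeff (p := p) (R := k))
    (fun r => ⟨WittVector.teichmuller p r, rfl⟩) ?_ ?_ (by simp) hY
    (fun ω => c (yy ω) x • y) (fun h ω => c h (yy (h⁻¹ • ω) • x)) ?_ ?_ ?_ ?_ ?_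
  · intro z hz
    have := (WittVector.mem_span_p_iff_coeff_zero_eq_zero z).mpr hz
    obtain ⟨y, hy⟩ := Ideal.mem_span_singleton'.mp this
    exact ⟨y, by rw [← hy, mul_comm]⟩
  · intro z hz
    exact WittVector.eq_zero_of_p_mul_eq_zero z (by rw [mul_comm, hz])
  · intro h1 h2 ω
    rw [hc, ← (hpte _ _).1, mul_inv_rev, mul_smul, smul_inv_smul]
  · exact fun h => (hfin h).subset (by rintro _ ⟨ω, rfl⟩; exact ⟨_, rfl⟩)
  · intro h ω
    have := (hpte h (h⁻¹ • ω)).2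
    rwa [smul_inv_smul] at this
  · intro ω y' τ hτ n hn H
    apply hinf n hn
    have e1 : c ((orbCen {g}).Z ω) (yy (((orbCen {g}).Z ω)⁻¹ • ω) • x) =
        c (yy ω) x * c g x * (c (yy ω) x)⁻¹ := by
      rw [(orbCen {g}).fix, ← coc_conj hc hg, hyy]
      rfl
    simp only [e1] at H
    set δ := (c (yy ω) x)⁻¹ * τ with hδ
    have e2 : y = δ • y' := by
      rw [hδ, mul_smul, ← hτ, inv_smul_smul]
    have h1 := Subgroup.mem_map_of_mem (MulAut.conj δ).toMonoidHom H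
    rw [Subgroup.map_commutator, ← MulAction.stabilizer_smul_eq_stabilizer_map_conj, ← e2,
      map_pow] at h1
    have e3 : (MulAut.conj δ).toMonoidHom (τ⁻¹ * (c (yy ω) x * c g x * (c (yy ω) x)⁻¹) * τ) =
        c g x := by
      show δ * _ * δ⁻¹ = _
      rw [hδ]
      group
    rwa [e3] at h1
  · rw [← map_mul, hA']

end

end Pool.Agent.Lib.MP_7903c7_al
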