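import Pool.Agent.Lib.MP_7903c7_al.Criterion

set_option autoImplicit false

namespace Pool.Agent.Lib.MP_7903c7_al

open scoped Classical
open Matrix NumberField

/-- Two by two matrices. -/
abbrev M2 (K : Type) : Type := Matrix (Fin 2) (Fin 2) K

/-- A projective cocycle of finite range in which the marked elements act unipotently. -/
structure ParData {G Ω : Type} [Group G] [MulAction G Ω] (c : Cen G Ω) (K : Type) [Field K] where
  ν : Ω → M2 K
  m : G → Ω → M2 K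
  det_ne : ∀ h ω, (m h ω).det ≠ 0
  fin : ∀ h, (Set.range (m h)).Finite
  sq : ∀ ω, ν ω * ν ω = 0
  ne : ∀ ω, ν ω ≠ 0
  inter : ∀ h ω, m h ω * ν (h⁻¹ • ω) = ν ω * m h ω
  coc : ∀ h1 h2 ω, ∃ a : K, m (h1 * h2) ω = a • (m h1 ω * m h2 (h1⁻¹ • ω))
  cen : ∀ ω, ∃ a : K, m (c.Z ω) ω = a • (1 + ν ω)

section

variable {K : Type} [Field K]

/-- Norm of a vector. -/
def vn (av : AbsoluteValue K ℝ) (u : Fin 2 → K) : ℝ := av (u 0) + av (u 1)

/-- Norm of a matrix. -/
def mn (av : AbsoluteValue K ℝ) (M : M2 K) : ℝ := av (M 0 0) + av (M 0 1) + av (M 1 0) + av (M 1 1)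

lemma vn_nonneg (av : AbsoluteValue K ℝ) (u : Fin 2 → K) : 0 ≤ vn av u := by
  unfold vn; positivity

lemma mn_nonneg (av : AbsoluteValue K ℝ) (M : M2 K) : 0 ≤ mn av M := by
  unfold mn; positivity

lemma le_mn (av : AbsoluteValue K ℝ) (M : M2 K) (i j : Fin 2) : av (M i j) ≤ mn av M := by
  have := av.nonneg (M 0 0)
  have := av.nonneg (M 0 1)
  have := av.nonneg (M 1 0)
  have := av.nonneg (M 1 1)
  unfold mn
  fin_cases i <;> fin_cases j <;> simp <;> linarith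

lemma mn_pos (av : AbsoluteValue K ℝ) {M : M2 K} (h : M ≠ 0) : 0 < mn av M := by
  by_contra hle
  apply h
  ext i j
  have := (le_mn av M i j).trans (not_lt.mp hle)
  exact av.eq_zero.mp (le_antisymm this (av.nonneg _))

lemma vn_mulVec (av : AbsoluteValue K ℝ) (M : M2 K) (u : Fin 2 → K) :
    vn av (M *ᵥ u) ≤ mn av M * vn av u := by
  have h1 := av.add_le (M 0 0 * u 0) (M 0 1 * u 1)
  have h2 := av.add_le (M 1 0 * u 0) (M 1 1 * u 1)
  simp only [map_mul] at h1 h2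
  have := av.nonneg (M 0 0)
  have := av.nonneg (M 0 1)
  have := av.nonneg (M 1 0)
  have := av.nonneg (M 1 1)
  have := av.nonneg (u 0)
  have := av.nonneg (u 1)
  simp only [vn, mn, Matrix.mulVec, dotProduct, Fin.sum_univ_two]
  nlinarith [mul_nonneg (av.nonneg (M 0 0)) (av.nonneg (u 1)),
    mul_nonneg (av.nonneg (M 0 1)) (av.nonneg (u 0)),
    mul_nonneg (av.nonneg (M 1 0)) (av.nonneg (u 1)),
    mul_nonneg (av.nonneg (M 1 1)) (av.nonneg (u 0))]

lemma mn_eq (av : AbsoluteValue K ℝ) (M : M2 K) :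
    mn av M = vn av (M *ᵥ Pi.single 0 1) + vn av (M *ᵥ Pi.single 1 1) := by
  simp [mn, vn]; ring

lemma mn_mul (av : AbsoluteValue K ℝ) (M M' : M2 K) : mn av (M * M') ≤ mn av M * mn av M' := by
  rw [mn_eq av (M * M'), mn_eq av M', ← Matrix.mulVec_mulVec, ← Matrix.mulVec_mulVec, mul_add]
  exact add_le_add (vn_mulVec _ _ _) (vn_mulVec _ _ _)

lemma vn_smul (av : AbsoluteValue K ℝ) (a : K) (u : Fin 2 → K) :
    vn av (a • u) = av a * vn av u := by
  simp [vn, mul_add]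

lemma vn_sub (av : AbsoluteValue K ℝ) (u u' : Fin 2 → K) : vn av (u - u') ≤ vn av u + vn av u' := by
  have h1 := av.sub_le_add (u 0) (u' 0)
  have h2 := av.sub_le_add (u 1) (u' 1)
  simp only [vn, Pi.sub_apply]
  linarith

lemma exists_col (av : AbsoluteValue K ℝ) (M : M2 K) :
    ∃ y : Fin 2 → K, vn av y = 1 ∧ mn av M ≤ 2 * vn av (M *ᵥ y) := by
  have := mn_eq av M
  rcases le_total (vn av (M *ᵥ Pi.single 0 1)) (vn av (M *ᵥ Pi.single 1 1)) with h | h
  · exact ⟨Pi.single 1 1, by simp [vn], by linarith⟩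
  · exact ⟨Pi.single 0 1, by simp [vn], by linarith⟩

lemma nil_unique {ν : M2 K} (h : ν * ν = 0) {y : Fin 2 → K} (hy : ν *ᵥ y ≠ 0) {a b : K}
    (H : a • y + b • (ν *ᵥ y) = 0) : a = 0 ∧ b = 0 := by
  have h1 := congrArg (fun u => ν *ᵥ u) H
  simp only [Matrix.mulVec_add, Matrix.mulVec_smul, Matrix.mulVec_mulVec, h, Matrix.zero_mulVec,
    smul_zero, add_zero, Matrix.mulVec_zero] at h1
  have ha : a = 0 := (smul_eq_zero.mp h1).resolve_right hy
  rw [ha, zero_smul, zero_add] at H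
  exact ⟨ha, (smul_eq_zero.mp H).resolve_right hy⟩

lemma nil_span {ν : M2 K} (h : ν * ν = 0) {y : Fin 2 → K} (hy : ν *ᵥ y ≠ 0) (u : Fin 2 → K) :
    ∃ a b : K, u = a • y + b • (ν *ᵥ y) := by
  set z := ν *ᵥ y with hz
  have hd : y 0 * z 1 - y 1 * z 0 ≠ 0 := by
    intro h0
    have k1 := (nil_unique h hy (a := z 1) (b := -y 1) (by
      funext i
      fin_cases i
      · simp [← hz]; linear_combination h0
      · simp [← hz]; ring)).1
    have k0 := (nil_unique h hy (a := z 0) (b := -y 0) (by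
      funext i
      fin_cases i
      · simp [← hz]; ring
      · simp [← hz]; linear_combination -h0)).1
    apply hy
    funext i
    fin_cases i
    · exact k0
    · exact k1
  refine ⟨(u 0 * z 1 - u 1 * z 0) / (y 0 * z 1 - y 1 * z 0),
    (y 0 * u 1 - y 1 * u 0) / (y 0 * z 1 - y 1 * z 0), ?_⟩
  funext i
  rw [Pi.add_apply, Pi.smul_apply, Pi.smul_apply, smul_eq_mul, smul_eq_mul, div_mul_eq_mul_div,
    div_mul_eq_mul_div, ← add_div, eq_div_iff hd]
  fin_cases i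
  · simp; ring
  · simp; ring

variable {G Ω : Type} [Group G] [MulAction G Ω] {c : Cen G Ω}

lemma ParData.bound (P : ParData c K) (av : AbsoluteValue K ℝ) (h : G) :
    ∃ L : ℝ, 1 ≤ L ∧ ∀ ω, mn av (P.m h ω) ≤ L ∧ mn av (P.m h ω)⁻¹ ≤ L := by
  obtain ⟨L, h1, h2⟩ := uniform_bound (P.fin h) (fun M L => mn av M ≤ L ∧ mn av M⁻¹ ≤ L)
    (fun M c c' hc H => ⟨H.1.trans hc, H.2.trans hc⟩)
    (fun M => ⟨max (mn av M) (mn av M⁻¹), le_max_left _ _, le_max_right _ _⟩)
  exact ⟨L, h1, fun ω => h2 _ ⟨ω, rfl⟩⟩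

lemma mn_conj (av : AbsoluteValue K ℝ) {A B C : M2 K} {L : ℝ} (hA : mn av A ≤ L)
    (hC : mn av C ≤ L) : mn av (A * B * C) ≤ L ^ 2 * mn av B := by
  have h0 : 0 ≤ L := (mn_nonneg av A).trans hA
  calc mn av (A * B * C) ≤ mn av (A * B) * mn av C := mn_mul _ _ _
    _ ≤ (mn av A * mn av B) * mn av C :=
      mul_le_mul_of_nonneg_right (mn_mul _ _ _) (mn_nonneg _ _)
    _ ≤ (L * mn av B) * L :=
      mul_le_mul (mul_le_mul_of_nonneg_right hA (mn_nonneg _ _)) hC (mn_nonneg _ _)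
        (mul_nonneg h0 (mn_nonneg _ _))
    _ = _ := by ring

lemma ParData.lip (P : ParData c K) (av : AbsoluteValue K ℝ) (h : G) :
    ∃ l : ℝ, ∀ ω, mn av (P.ν (h⁻¹ • ω)) ≤ l * mn av (P.ν ω) := by
  obtain ⟨L, h1, h2⟩ := P.bound av h
  refine ⟨L ^ 2, fun ω => ?_⟩
  have hu : IsUnit (P.m h ω).det := (P.det_ne h ω).isUnit
  have : P.ν (h⁻¹ • ω) = (P.m h ω)⁻¹ * P.ν ω * P.m h ω := by
    rw [mul_assoc, ← P.inter, ← mul_assoc, Matrix.nonsing_inv_mul _ hu, one_mul]
  rw [this]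
  exact mn_conj av (h2 ω).2 (h2 ω).1

lemma ParData.weights (P : ParData c K) (av : AbsoluteValue K ℝ) :
    ∃ w : G → Ω → K, (∀ h1 h2 ω, w (h1 * h2) ω = w h1 ω + w h2 (h1⁻¹ • ω)) ∧
      (∀ ω, w (c.Z ω) ω = 1) ∧ ∀ h, ∃ C : ℝ, ∀ ω, av (w h ω) * mn av (P.ν ω) ≤ C := by
  choose y hy1 hy2 using fun ω => exists_col av (P.ν ω)
  have hz : ∀ ω, P.ν ω *ᵥ y ω ≠ 0 := by
    intro ω h0
    have h1 := hy2 ω
    have h2 := mn_pos av (P.ne ω)
    rw [h0] at h1
    simp [vn] at h1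
    linarith
  have hinj : ∀ h ω (u : Fin 2 → K), P.m h ω *ᵥ u = 0 → u = 0 := fun h ω u hu =>
    Matrix.eq_zero_of_mulVec_eq_zero (P.det_ne h ω) hu
  have hex : ∀ h ω, ∃ a w : K, a ≠ 0 ∧
      P.m h ω *ᵥ y (h⁻¹ • ω) = a • (y ω + w • (P.ν ω *ᵥ y ω)) := by
    intro h ω
    obtain ⟨a, b, hab⟩ := nil_span (P.sq ω) (hz ω) (P.m h ω *ᵥ y (h⁻¹ • ω))
    have ha : a ≠ 0 := by
      rintro rfl
      apply hz (h⁻¹ • ω)
      apply hinj h ω
      rw [Matrix.mulVec_mulVec, P.inter, ← Matrix.mulVec_mulVec, hab, zero_smul, zero_add,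
        Matrix.mulVec_smul, Matrix.mulVec_mulVec, P.sq, Matrix.zero_mulVec, smul_zero]
    refine ⟨a, b / a, ha, ?_⟩
    rw [hab, smul_add, smul_smul, mul_div_cancel₀ _ ha]
  choose a w ha hw using hex
  have huniq : ∀ h ω (a' w' : K),
      P.m h ω *ᵥ y (h⁻¹ • ω) = a' • (y ω + w' • (P.ν ω *ᵥ y ω)) → w h ω = w' := by
    intro h ω a' w' H
    rw [hw] at H
    have := nil_unique (P.sq ω) (hz ω) (a := a h ω - a') (b := a h ω * w h ω - a' * w') (by
      rw [← sub_eq_zero] at H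
      rw [← H]
      module)
    have h1 : a' = a h ω := by linear_combination -this.1
    have h2 := this.2
    rw [h1, ← mul_sub] at h2
    exact sub_eq_zero.mp ((mul_eq_zero.mp h2).resolve_left (ha h ω))
  have hmz : ∀ h ω, P.m h ω *ᵥ (P.ν (h⁻¹ • ω) *ᵥ y (h⁻¹ • ω)) = a h ω • (P.ν ω *ᵥ y ω) := by
    intro h ω
    rw [Matrix.mulVec_mulVec, P.inter, ← Matrix.mulVec_mulVec, hw, Matrix.mulVec_smul,
      Matrix.mulVec_add, Matrix.mulVec_smul, Matrix.mulVec_mulVec, P.sq, Matrix.zero_mulVec,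
      smul_zero, add_zero]
  refine ⟨w, ?_, ?_, ?_⟩
  · intro h1 h2 ω
    obtain ⟨t, ht⟩ := P.coc h1 h2 ω
    refine huniq _ _ (t * a h2 (h1⁻¹ • ω) * a h1 ω) _ ?_
    rw [ht, Matrix.smul_mulVec, ← Matrix.mulVec_mulVec, _root_.mul_inv_rev, mul_smul, hw,
      Matrix.mulVec_smul, Matrix.mulVec_add, Matrix.mulVec_smul, hmz, hw]
    module
  · intro ω
    obtain ⟨t, ht⟩ := P.cen ω
    refine huniq _ _ t _ ?_
    rw [ht, c.fix, Matrix.smul_mulVec, Matrix.add_mulVec, Matrix.one_mulVec, one_smul]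
  · intro h
    obtain ⟨L, h1, h2⟩ := P.bound av h
    refine ⟨4 * L ^ 4 + 2, fun ω => ?_⟩
    have hu : IsUnit (P.m h ω).det := (P.det_ne h ω).isUnit
    set N := mn av (P.ν ω) with hN
    set N' := mn av (P.ν (h⁻¹ • ω)) with hN'
    have hN0 : 0 < N := mn_pos av (P.ne ω)
    have k1 : N ≤ L ^ 2 * N' := by
      have : P.ν ω = P.m h ω * P.ν (h⁻¹ • ω) * (P.m h ω)⁻¹ := by
        rw [P.inter, mul_assoc, Matrix.mul_nonsing_inv _ hu, mul_one]
      rw [hN, this]
      exact mn_conj av (h2 ω).1 (h2 ω).2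
    have k2 : vn av (P.ν ω *ᵥ y ω) ≤ N := by
      have := vn_mulVec av (P.ν ω) (y ω)
      rwa [hy1, mul_one] at this
    have k3 : N' ≤ 2 * (av (a h ω) * (L * N)) := by
      refine (hy2 _).trans (mul_le_mul_of_nonneg_left ?_ (by norm_num))
      have : P.ν (h⁻¹ • ω) *ᵥ y (h⁻¹ • ω) = a h ω • ((P.m h ω)⁻¹ *ᵥ (P.ν ω *ᵥ y ω)) := by
        rw [← Matrix.mulVec_smul, ← hmz, Matrix.mulVec_mulVec, Matrix.nonsing_inv_mul _ hu,
          Matrix.one_mulVec]
      rw [this, vn_smul]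
      exact mul_le_mul_of_nonneg_left ((vn_mulVec _ _ _).trans
        (mul_le_mul (h2 ω).2 k2 (vn_nonneg _ _) (by linarith))) (av.nonneg _)
    have ha0 : 0 < av (a h ω) := av.pos (ha h ω)
    have k4 : 1 ≤ 2 * L ^ 3 * av (a h ω) := by
      have : N * 1 ≤ N * (2 * L ^ 3 * av (a h ω)) := by
        have := mul_le_mul_of_nonneg_left k3 (show 0 ≤ L ^ 2 by positivity)
        nlinarith
      exact le_of_mul_le_mul_left this hN0
    have k5 : av (a h ω) * (av (w h ω) * vn av (P.ν ω *ᵥ y ω)) ≤ L + av (a h ω) := by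
      have e1 : a h ω • (w h ω • (P.ν ω *ᵥ y ω)) = P.m h ω *ᵥ y (h⁻¹ • ω) - a h ω • y ω := by
        rw [hw]; module
      have e2 := vn_sub av (P.m h ω *ᵥ y (h⁻¹ • ω)) (a h ω • y ω)
      have e3 := vn_mulVec av (P.m h ω) (y (h⁻¹ • ω))
      rw [← e1, vn_smul, vn_smul, vn_smul, hy1, mul_one] at e2
      rw [hy1, mul_one] at e3
      linarith [(h2 ω).1]
    have k6 : av (w h ω) * N ≤ 2 * (av (w h ω) * vn av (P.ν ω *ᵥ y ω)) := by
      have := mul_le_mul_of_nonneg_left (hy2 ω) (av.nonneg (w h ω))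
      linarith
    have k7 : av (a h ω) * (av (w h ω) * N) ≤ av (a h ω) * (4 * L ^ 4 + 2) := by
      have h3 := mul_le_mul_of_nonneg_left k6 ha0.le
      have h4 := mul_le_mul_of_nonneg_left k4 (show 0 ≤ 2 * L by linarith)
      nlinarith
    exact le_of_mul_le_mul_left k7 ha0

lemma exists_place_lt_one (K : Type) [Field K] [NumberField K] {p : ℕ} (hp : p.Prime) :
    ∃ v : FinitePlace K, v (p : K) < 1 := by
  by_contra hcon
  push Not at hcon
  have h0 : (p : K) ≠ 0 := by exact_mod_cast hp.ne_zero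
  have h1 := prod_abs_eq_one h0
  have h2 : 1 ≤ ∏ᶠ w : FinitePlace K, w (p : K) := 
    finprod_induction (fun x : ℝ => 1 ≤ x) le_rfl (fun _ _ => one_le_mul_of_one_le_of_one_le) hcon
  have h3 : 1 < ∏ w : InfinitePlace K, w (p : K) ^ w.mult := by
    rw [InfinitePlace.prod_eq_abs_norm]
    have : (p : K) = algebraMap ℚ K p := by simp
    rw [this, Algebra.norm_algebraMap]
    have h4 : (1 : ℚ) < (p : ℚ) ^ Module.finrank ℚ K :=
      one_lt_pow₀ (by exact_mod_cast hp.one_lt) Module.finrank_pos.ne'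
    exact_mod_cast h4.trans_le (le_abs_self _)
  nlinarith

lemma prod_lower [NumberField K] (s : Finset (FinitePlace K)) {v0 : FinitePlace K} (h0 : v0 ∈ s)
    {z : K} (hz : z ≠ 0) (hs : ∀ v : FinitePlace K, v ∉ s → v z ≤ 1) {B : ℝ} (hB : 1 ≤ B)
    (h1 : ∀ w : InfinitePlace K, w z ≤ B) (h2 : ∀ v ∈ s, v z ≤ B) :
    1 ≤ v0 z * B ^ (2 * Fintype.card (InfinitePlace K) + s.card) := by
  have hf := FinitePlace.hasFiniteMulSupport hz
  have e1 := prod_abs_eq_one hz
  have e2 : ∏ᶠ w : FinitePlace K, w z = ∏ w ∈ s ∪ hf.toFinset, w z := by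
    refine finprod_eq_prod_of_mulSupport_subset _ ?_
    intro w hw
    simp only [Finset.coe_union, Set.Finite.coe_toFinset]
    exact Or.inr hw
  have e3 : ∏ w ∈ s ∪ hf.toFinset, w z ≤ ∏ w ∈ s, w z := by
    rw [← Finset.prod_sdiff (Finset.subset_union_left (s₂ := hf.toFinset))]
    refine mul_le_of_le_one_left (Finset.prod_nonneg fun w _ => apply_nonneg w z) ?_
    exact Finset.prod_le_one (fun w _ => apply_nonneg w z)
      (fun w hw => hs w (Finset.mem_sdiff.mp hw).2)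
  have e4 : ∏ w ∈ s, w z ≤ v0 z * B ^ s.card := by
    rw [← Finset.mul_prod_erase s _ h0]
    refine mul_le_mul_of_nonneg_left ?_ (apply_nonneg v0 z)
    calc ∏ w ∈ s.erase v0, w z ≤ ∏ _w ∈ s.erase v0, B :=
          Finset.prod_le_prod (fun w _ => apply_nonneg w z)
            (fun w hw => h2 w (Finset.mem_of_mem_erase hw))
      _ = B ^ (s.erase v0).card := Finset.prod_const _
      _ ≤ B ^ s.card := pow_le_pow_right₀ hB Finset.card_erase_le
  have e5 : ∏ w : InfinitePlace K, w z ^ w.mult ≤ B ^ (2 * Fintype.card (InfinitePlace K)) := by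
    calc ∏ w : InfinitePlace K, w z ^ w.mult ≤ ∏ _w : InfinitePlace K, B ^ 2 := by
          refine Finset.prod_le_prod (fun w _ => pow_nonneg (apply_nonneg w z) _) fun w _ => ?_
          refine (pow_le_pow_left₀ (apply_nonneg w z) (h1 w) _).trans (pow_le_pow_right₀ hB ?_)
          unfold InfinitePlace.mult
          split_ifs <;> omega
      _ = _ := by rw [Finset.prod_const, Finset.card_univ, ← pow_mul]
  rw [← e1, e2, pow_add]
  calc _ ≤ B ^ (2 * Fintype.card (InfinitePlace K)) * (v0 z * B ^ s.card) :=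
        mul_le_mul e5 (e3.trans e4) (Finset.prod_nonneg fun w _ => apply_nonneg w z)
          (by positivity)
    _ = _ := by ring

variable {I : Type} [Fintype I] [DecidableEq I]

theorem par_vanish [NumberField K] (P : ParData c K) {Φ : Set K} (hΦ : Φ.Finite)
    (hν : ∀ ω i j, P.ν ω i j ∈ Subring.closure Φ)
    {W k : Type} [CommRing W] [CommRing k] {p : ℕ} (hp : p.Prime) (π : W →+* k)
    (hsurj : Function.Surjective π) (hker : ∀ x, π x = 0 → ∃ y, x = p * y)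
    (htf : ∀ x : W, p * x = 0 → x = 0) {N : ℕ} (hN : (p : k) ^ N = 0)
    {e : MA I G Ω k} (he : e * e = e) : c.T e = 0 := by
  obtain ⟨v0, hv0⟩ := exists_place_lt_one K hp
  have hfin : (insert v0 (⋃ z ∈ Φ, {v : FinitePlace K | 1 < v z})).Finite := by
    refine Set.Finite.insert _ (hΦ.biUnion fun z _ => ?_)
    by_cases hz : z = 0
    · refine Set.finite_empty.subset fun v hv => ?_
      rw [hz, Set.mem_ofPred_eq, map_zero] at hv
      linarith
    · exact (FinitePlace.hasFiniteMulSupport hz).subset fun v hv => ne_of_gt hv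
  set s := hfin.toFinset with hs
  have h0s : v0 ∈ s := by simp [hs]
  have hint : ∀ v : FinitePlace K, v ∉ s → ∀ z ∈ Subring.closure Φ, v z ≤ 1 := by
    intro v hv z hz
    induction hz using Subring.closure_induction with
    | mem x hx =>
      by_contra hlt
      apply hv
      simp only [hs, Set.Finite.mem_toFinset, Set.mem_insert_iff, Set.mem_iUnion]
      exact Or.inr ⟨x, hx, not_le.mp hlt⟩
    | zero => simp
    | one => simp
    | add x y _ _ h1 h2 => exact (v.add_le x y).trans (max_le h1 h2)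
    | neg x _ h1 => rwa [map_neg_eq_map]
    | mul x y _ _ h1 h2 => rw [map_mul]; exact mul_le_one₀ h1 (apply_nonneg v y) h2
  let av : InfinitePlace K ⊕ s → AbsoluteValue K ℝ := Sum.elim (fun w => w.1) (fun v => v.1.1)
  choose w hw1 hw2 hw3 using fun x => P.weights (av x)
  refine criterion c hp π hsurj hker htf hN av w hw1 hw2 (fun x ω => mn (av x) (P.ν ω))
    (fun x ω => mn_pos _ (P.ne ω)) ?_ ?_ (Sum.inr ⟨v0, h0s⟩) (fun a b => v0.add_le a b) hv0
    (2 * Fintype.card (InfinitePlace K) + s.card) ?_ he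
  · intro h
    obtain ⟨l, -, hl⟩ := uniform_bound (Set.finite_univ (α := InfinitePlace K ⊕ s))
      (fun x l => ∀ ω, mn (av x) (P.ν (h⁻¹ • ω)) ≤ l * mn (av x) (P.ν ω))
      (fun x c c' hc H ω => (H ω).trans (mul_le_mul_of_nonneg_right hc (mn_nonneg _ _)))
      (fun x => P.lip (av x) h)
    exact ⟨l, fun x => hl x (Set.mem_univ _)⟩
  · intro h
    obtain ⟨C, -, hC⟩ := uniform_bound (Set.finite_univ (α := InfinitePlace K ⊕ s))
      (fun x C => ∀ ω, av x (w x h ω) * mn (av x) (P.ν ω) ≤ C)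
      (fun x c c' hc H ω => (H ω).trans hc) (fun x => hw3 x h)
    exact ⟨C, fun x => hC x (Set.mem_univ _)⟩
  · intro B hB ω hω
    obtain ⟨i, j, hij⟩ : ∃ i j, P.ν ω i j ≠ 0 := by
      by_contra hcon
      push Not at hcon
      exact P.ne ω (Matrix.ext hcon)
    refine (prod_lower s h0s hij (fun v hv => hint v hv _ (hν ω i j)) hB
      (fun w => (le_mn (av (Sum.inl w)) _ i j).trans (hω _))
      (fun v hv => (le_mn (av (Sum.inr ⟨v, hv⟩)) _ i j).trans (hω _))).trans ?_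
    exact mul_le_mul_of_nonneg_right (le_mn (av (Sum.inr ⟨v0, h0s⟩)) _ i j) (by positivity)

end

end Pool.Agent.Lib.MP_7903c7_al
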