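import Pool.Agent.Lib.MP_7903c7_al.Cocycle
import Pool.Agent.Lib.MP_7903c7_al.Defs

set_option autoImplicit false

namespace Pool.Agent.Lib.MP_7903c7_al

open scoped Classical MatrixGroups
open Matrix Filter Topology

/-- The filter of right neighbourhoods. -/
def rf (x : WithBot ℝ) : Filter ℝ := WithBot.recBotCoe atBot (fun r : ℝ => 𝓝[>] r) x

lemma rf_tendsto (f : ℝ ≃o ℝ) (x : WithBot ℝ) : Tendsto f (rf x) (rf (WithBot.map f x)) := by
  induction x using WithBot.recBotCoe with
  | bot => exact f.tendsto_atBot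
  | coe r =>
    show Tendsto f (𝓝[>] r) (𝓝[>] (f r))
    refine tendsto_nhdsWithin_of_tendsto_nhds_of_eventually_within _
      (f.continuous.continuousAt.tendsto.mono_left nhdsWithin_le_nhds) ?_
    filter_upwards [self_mem_nhdsWithin] with z hz
    exact f.strictMono hz

lemma rf_infinite {x : WithBot ℝ} {s : Set ℝ} (hs : s ∈ rf x) : s.Infinite := by
  induction x using WithBot.recBotCoe with
  | bot =>
    obtain ⟨a, ha⟩ := mem_atBot_sets.mp hs
    exact (Set.Iic_infinite a).mono ha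
  | coe r =>
    obtain ⟨b, hb, hb'⟩ := mem_nhdsGT_iff_exists_Ioo_subset.mp hs
    exact (Set.Ioo_infinite hb).mono hb'

/-- The matrix represents the right germ of `f` at `x`. -/
def Rep (f : ℝ ≃o ℝ) (x : WithBot ℝ) (M : GL (Fin 2) ℝ) : Prop :=
  ∀ᶠ z in rf x, M.val 1 0 * z + M.val 1 1 ≠ 0 ∧
    f z = (M.val 0 0 * z + M.val 0 1) / (M.val 1 0 * z + M.val 1 1)

lemma quad_zero {s : Set ℝ} (hs : s.Infinite) {A B C : ℝ}
    (H : ∀ z ∈ s, A * z ^ 2 + B * z + C = 0) : A = 0 ∧ B = 0 ∧ C = 0 := by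
  have h0 : (Polynomial.C A * Polynomial.X ^ 2 + Polynomial.C B * Polynomial.X +
      Polynomial.C C : Polynomial ℝ) = 0 := by
    refine Polynomial.eq_zero_of_infinite_isRoot _ (hs.mono fun z hz => ?_)
    simpa using H z hz
  have h1 := congrArg (Polynomial.eval 0) h0
  have h2 := congrArg (Polynomial.eval 1) h0
  have h3 := congrArg (Polynomial.eval (-1)) h0
  simp at h1 h2 h3
  refine ⟨by linarith, by linarith, h1⟩

lemma Rep.unique {f : ℝ ≃o ℝ} {x : WithBot ℝ} {M M' : GL (Fin 2) ℝ} (H : Rep f x M)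
    (H' : Rep f x M') : ProjGenLinGroup.mk M = ProjGenLinGroup.mk M' := by
  obtain ⟨hA, hB, hC⟩ := quad_zero (rf_infinite (H.and H'))
    (A := M.val 0 0 * M'.val 1 0 - M'.val 0 0 * M.val 1 0)
    (B := M.val 0 0 * M'.val 1 1 + M.val 0 1 * M'.val 1 0 - M'.val 0 0 * M.val 1 1 -
      M'.val 0 1 * M.val 1 0)
    (C := M.val 0 1 * M'.val 1 1 - M'.val 0 1 * M.val 1 1) (by
      rintro z ⟨⟨h1, h2⟩, h3, h4⟩
      rw [h2, div_eq_div_iff h1 h3] at h4
      linear_combination h4)
  have hd : M.val.det ≠ 0 := GeneralLinearGroup.det_ne_zero M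
  have hd' : M'.val.det ≠ 0 := GeneralLinearGroup.det_ne_zero M'
  have key : M'.val = ((M.val 1 1 * M'.val 0 0 - M.val 0 1 * M'.val 1 0) / M.val.det) • M.val := by
    ext i j
    rw [Matrix.smul_apply, smul_eq_mul, div_mul_eq_mul_div, eq_div_iff hd, Matrix.det_fin_two]
    fin_cases i <;> fin_cases j <;> simp only [Fin.zero_eta, Fin.mk_one, Fin.isValue]
    · linear_combination M.val 0 1 * hA
    · linear_combination M.val 0 1 * hB - M.val 0 0 * hC
    · linear_combination M.val 1 1 * hA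
    · linear_combination M.val 1 1 * hB - M.val 1 0 * hC
  refine mk_eq_iff.mpr ⟨_, ?_, key⟩
  intro h0
  rw [h0, zero_smul] at key
  rw [key, Matrix.det_zero] at hd'
  exact hd' rfl

lemma Rep.mul {f f' : ℝ ≃o ℝ} {x : WithBot ℝ} {M M' : GL (Fin 2) ℝ}
    (H : Rep f (WithBot.map f' x) M) (H' : Rep f' x M') : Rep (f * f') x (M * M') := by
  filter_upwards [(rf_tendsto f' x).eventually H, H'] with z h1 h2
  obtain ⟨h3, h4⟩ := h1
  obtain ⟨h5, h6⟩ := h2
  have e : (f * f') z = f (f' z) := rfl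
  rw [e, h4, h6]
  rw [h6] at h3
  simp only [Units.val_mul, Matrix.mul_apply, Fin.sum_univ_two]
  have h8 := div_mul_cancel₀ (M'.val 0 0 * z + M'.val 0 1) h5
  generalize (M'.val 0 0 * z + M'.val 0 1) / (M'.val 1 0 * z + M'.val 1 1) = w at h3 h8 ⊢
  have h7 : (M.val 1 0 * M'.val 0 0 + M.val 1 1 * M'.val 1 0) * z +
      (M.val 1 0 * M'.val 0 1 + M.val 1 1 * M'.val 1 1) ≠ 0 := by
    intro h0
    apply mul_ne_zero h3 h5
    linear_combination h0 + M.val 1 0 * h8
  refine ⟨h7, ?_⟩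
  rw [div_eq_div_iff h3 h7]
  linear_combination (M.val 0 0 * M.val 1 1 - M.val 0 1 * M.val 1 0) * h8

lemma PiecewiseProjective.exists_rep {f : ℝ ≃o ℝ} (H : PiecewiseProjective f) :
    ∃ T : Set (GL (Fin 2) ℝ), T.Finite ∧ ∀ x, ∃ M ∈ T, Rep f x M := by
  obtain ⟨B, hB⟩ := H
  have h1 : ∀ D : Finset ℝ, ∃ M : GL (Fin 2) ℝ, ∀ z : ℝ,
      (∀ b ∈ B, (b ∈ D → b < z) ∧ (b ∉ D → z < b)) → M.val 1 0 * z + M.val 1 1 ≠ 0 ∧
        f z = (M.val 0 0 * z + M.val 0 1) / (M.val 1 0 * z + M.val 1 1) := by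
    intro D
    obtain ⟨a, b, c, d, h0, h⟩ := hB {z | ∀ b ∈ B, (b ∈ D → b < z) ∧ (b ∉ D → z < b)}
      ⟨fun x hx y hy z hz b hb => ⟨fun h => ((hx b hb).1 h).trans_le hz.1,
        fun h => hz.2.trans_lt ((hy b hb).2 h)⟩⟩
      (Set.disjoint_left.mpr fun z hz hzB => by
        by_cases hD : z ∈ D
        · exact lt_irrefl _ ((hz z hzB).1 hD)
        · exact lt_irrefl _ ((hz z hzB).2 hD))
    refine ⟨GeneralLinearGroup.mkOfDetNeZero !![a, b; c, d] (by
      rw [Matrix.det_fin_two_of]; exact h0), fun z hz => ?_⟩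
    simpa using h z hz
  choose M hM using h1
  refine ⟨M '' (B.powerset : Set (Finset ℝ)), (Finset.finite_toSet _).image _, fun x => ?_⟩
  refine ⟨M (B.filter fun b => (b : WithBot ℝ) ≤ x), ⟨_, Finset.mem_coe.mpr (Finset.mem_powerset.mpr (Finset.filter_subset _ _)), rfl⟩, ?_⟩
  refine Eventually.mono ?_ (hM _)
  rw [eventually_all_finset]
  intro b hb
  induction x using WithBot.recBotCoe with
  | bot =>
    filter_upwards [eventually_lt_atBot b] with z hz
    exact ⟨fun h => by simp at h, fun _ => hz⟩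
  | coe r =>
    by_cases hbr : b ≤ r
    · filter_upwards [self_mem_nhdsWithin] with z hz
      exact ⟨fun _ => hbr.trans_lt hz, fun h => absurd (by simp [hb, hbr]) h⟩
    · have : ∀ᶠ z in 𝓝[>] r, z < b :=
        (eventually_lt_nhds (not_le.mp hbr)).filter_mono nhdsWithin_le_nhds
      filter_upwards [this] with z hz
      exact ⟨fun h => absurd (by simpa [hb] using h) hbr, fun _ => hz⟩

lemma fix_of_pow {f : ℝ ≃o ℝ} {N : ℕ} (hN : 0 < N) {z : ℝ} (h : (f ^ N) z = z) : f z = z := by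
  have key : ∀ g : ℝ ≃o ℝ, z < g z → ∀ n : ℕ, z < (g ^ (n + 1)) z := by
    intro g hg n
    induction n with
    | zero => simpa using hg
    | succ n ih =>
      rw [pow_succ']
      exact hg.trans (g.strictMono ih)
  obtain ⟨n, rfl⟩ := Nat.exists_eq_succ_of_ne_zero hN.ne'
  rcases lt_trichotomy (f z) z with h1 | h1 | h1
  · have h2 : z < f⁻¹ z := by
      have := f.symm.strictMono h1
      rwa [f.symm_apply_apply] at this
    have h3 := key f⁻¹ h2 n
    have h4 : (f⁻¹ ^ (n + 1)) z = z := by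
      rw [inv_pow]
      conv_lhs => rw [← h]
      exact (f ^ (n + 1)).symm_apply_apply z
    exact absurd h4 h3.ne'
  · exact h1
  · exact absurd h (key f h1 n).ne'

theorem piecewise_vanish {G : Type} [Group G] (ρ : G →* (ℝ ≃o ℝ))
    (hρ : ∀ h, PiecewiseProjective (ρ h)) {g : G} (hg : ρ g ≠ 1)
    {I : Type} [Fintype I] [DecidableEq I]
    {R : Type} [CommRing R] [IsDomain R] {A : Matrix I I (MonoidAlgebra R G)} (hA : A * A = A) :
    tau (fun h => IsConj h g) A = 0 := by
  let _ : MulAction G (WithBot ℝ) :=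
    { smul := fun h x => WithBot.map (ρ h) x
      one_smul := fun x => by
        show WithBot.map (ρ 1) x = x
        rw [map_one]
        induction x using WithBot.recBotCoe <;> rfl
      mul_smul := fun a b x => by
        show WithBot.map (ρ (a * b)) x = WithBot.map (ρ a) (WithBot.map (ρ b) x)
        rw [map_mul]
        induction x using WithBot.recBotCoe <;> rfl }
  choose T hT M hMT hM using fun h => (hρ h).exists_rep
  let c : G → WithBot ℝ → PGL(2, ℝ) := fun h x => ProjGenLinGroup.mk (M h x)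
  have hc : ∀ h h' x, c (h * h') x = c h (h' • x) * c h' x := by
    intro h h' x
    rw [← map_mul]
    refine (hM (h * h') x).unique ?_
    rw [map_mul]
    exact (hM h _).mul (hM h' x)
  have hfin : ∀ h, (Set.range (c h)).Finite := fun h =>
    ((hT h).image ProjGenLinGroup.mk).subset (by
      rintro _ ⟨x, rfl⟩
      exact ⟨_, hMT h x, rfl⟩)
  set Mv : Set ℝ := {z | ρ g z ≠ z} with hMv
  have hne : Mv.Nonempty := by
    by_contra h0
    apply hg
    ext z
    by_contra h1
    exact h0 ⟨z, h1⟩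
  let α : WithBot ℝ := if BddBelow Mv then ((sInf Mv : ℝ) : WithBot ℝ) else ⊥
  have hx : ∀ z : G, z * g = g * z → z • α = α := by
    intro z hz
    show WithBot.map (ρ z) α = α
    by_cases hb : BddBelow Mv
    · simp only [α, if_pos hb, WithBot.map_coe]
      have h1 : ∀ y, ρ z (ρ g y) = ρ g (ρ z y) := by
        intro y
        have := congrArg (fun h => ρ h y) hz
        simpa using this
      have h2 : ρ z '' Mv = Mv := by
        ext y
        constructor
        · rintro ⟨y, hy, rfl⟩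
          intro h3
          rw [← h1] at h3
          exact hy ((ρ z).injective h3)
        · intro hy
          refine ⟨(ρ z).symm y, fun h3 => hy ?_, (ρ z).apply_symm_apply y⟩
          have := congrArg (ρ z) h3
          rwa [h1, (ρ z).apply_symm_apply] at this
      rw [(ρ z).map_csInf' hne hb, h2]
    · simp only [α, if_neg hb, WithBot.map_bot]
  refine cocycle_vanish hc hfin hx ?_ hA
  intro hfo
  obtain ⟨N, hN, hN'⟩ := isOfFinOrder_iff_pow_eq_one.mp hfo
  rw [← coc_pow hc (hx g rfl)] at hN'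
  obtain ⟨u, hu, hu'⟩ := mk_eq_iff.mp (ProjGenLinGroup.mk_one.trans hN'.symm)
  have h1 : ∀ᶠ z in rf α, z ∉ Mv := by
    filter_upwards [hM (g ^ N) α] with z hz
    rw [hu', map_pow] at hz
    refine fun h => h (fix_of_pow hN ?_)
    rw [hz.2]
    simp [hu]
  by_cases hb : BddBelow Mv
  · have h2 := hx g rfl
    simp only [α, if_pos hb] at h1 h2
    obtain ⟨b, hb1, hb2⟩ := mem_nhdsGT_iff_exists_Ioo_subset.mp h1
    have h3 : ρ g (sInf Mv) = sInf Mv := WithBot.coe_injective h2
    refine absurd (le_csInf hne fun y hy => ?_) (not_le.mpr hb1)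
    by_contra hlt
    rcases (csInf_le hb hy).eq_or_lt with h4 | h4
    · exact hy (h4 ▸ h3)
    · exact hb2 ⟨h4, not_le.mp hlt⟩ hy
  · simp only [α, if_neg hb] at h1
    obtain ⟨a, ha⟩ := mem_atBot_sets.mp h1
    exact hb ⟨a, fun y hy => le_of_not_ge fun h => ha y h hy⟩

end Pool.Agent.Lib.MP_7903c7_al
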