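import Pool.Agent.Lib.MP_7903c7_al.Squeeze

set_option autoImplicit false
set_option linter.unusedSimpArgs false

namespace Pool.Agent.Lib.MP_7903c7_al

open scoped Classical

section

variable {V G : Type} [Group G]

/-- Symmetrisation of a labelled relation. -/
def Rl.sy (A : Rl V G) : Rl V G := fun v h v' => A v h v' ∨ A v' h⁻¹ v

lemma Rl.sy_refl {A : Rl V G} (hA : ∀ v, A v 1 v) (v : V) : A.sy v 1 v := Or.inl (hA v)

lemma Rl.sy_symm {A : Rl V G} {v v' : V} {h : G} (H : A.sy v h v') : A.sy v' h⁻¹ v := by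
  rcases H with H | H
  · exact Or.inr (by rwa [inv_inv])
  · exact Or.inl H

lemma Rl.sy_pw_symm {A : Rl V G} {n : ℕ} {v v' : V} {h : G} (H : A.sy.pw n v h v') :
    A.sy.pw n v' h⁻¹ v := by
  induction n generalizing v h with
  | zero =>
    obtain ⟨rfl, rfl⟩ := H
    exact ⟨inv_one, rfl⟩
  | succ n ih =>
    obtain ⟨u, h1, h2, rfl, Ha, Hb⟩ := H
    rw [mul_inv_rev]
    exact Rl.pw_add (ih Hb) (Rl.pw_one (Rl.sy_symm Ha))

lemma Rl.pw_sy {A : Rl V G} {n : ℕ} {v v' : V} {h : G} (H : A.pw n v h v') :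
    A.sy.pw n v h v' := by
  have := Rl.pw_map (B := A.sy) (c := 1) id (fun v h v' H => Rl.pw_one (Or.inl H)) H
  simpa using this

lemma Rl.sy_pw_map {V' : Type} {A : Rl V G} {B : Rl V' G} (π : V → V') {c : ℕ}
    (hAB : ∀ v h v', A v h v' → B.pw c (π v) h (π v')) {n : ℕ} {v v' : V} {h : G}
    (H : A.sy.pw n v h v') : B.sy.pw (c * n) (π v) h (π v') := by
  refine Rl.pw_map π ?_ H
  rintro v h v' (H | H)
  · exact Rl.pw_sy (hAB _ _ _ H)
  · simpa using Rl.sy_pw_symm (Rl.pw_sy (hAB _ _ _ H))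

/-- Being within symmetric path distance `n`. -/
def Rl.nb (A : Rl V G) (n : ℕ) (v v' : V) : Prop := ∃ h, A.sy.pw n v h v'

lemma Rl.nb.symm {A : Rl V G} {n : ℕ} {v v' : V} (H : A.nb n v v') : A.nb n v' v :=
  let ⟨_, H⟩ := H
  ⟨_, Rl.sy_pw_symm H⟩

lemma Rl.nb.trans {A : Rl V G} {m n : ℕ} {v v' v'' : V} (H : A.nb m v v') (H' : A.nb n v' v'') :
    A.nb (m + n) v v'' :=
  let ⟨_, H⟩ := H
  let ⟨_, H'⟩ := H'
  ⟨_, Rl.pw_add H H'⟩

lemma Rl.nb.mono {A : Rl V G} (hA : ∀ v, A v 1 v) {m n : ℕ} {v v' : V} (H : A.nb m v v')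
    (hmn : m ≤ n) : A.nb n v v' :=
  let ⟨_, H⟩ := H
  ⟨_, Rl.pw_mono (Rl.sy_refl hA) hmn H⟩

lemma Rl.nb_refl {A : Rl V G} (hA : ∀ v, A v 1 v) (n : ℕ) (v : V) : A.nb n v v :=
  ⟨1, Rl.pw_refl (Rl.sy_refl hA) n v⟩

lemma Rl.nb.map {V' : Type} {A : Rl V G} {B : Rl V' G} (π : V → V') {c : ℕ}
    (hAB : ∀ v h v', A v h v' → B.pw c (π v) h (π v')) {n : ℕ} {v v' : V}
    (H : A.nb n v v') : B.nb (c * n) (π v) (π v') :=
  let ⟨_, H⟩ := H
  ⟨_, Rl.sy_pw_map π hAB H⟩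

lemma Rl.nb_zero {A : Rl V G} {v v' : V} (H : A.nb 0 v v') : v = v' :=
  let ⟨_, H⟩ := H
  H.2

lemma Rl.nb_succ {A : Rl V G} {n : ℕ} {v v' : V} (H : A.nb (n + 1) v v') :
    ∃ u, A.nb 1 v u ∧ A.nb n u v' :=
  let ⟨_, u, _, _, _, Ha, Hb⟩ := H
  ⟨u, ⟨_, Rl.pw_one Ha⟩, _, Hb⟩

/-- Capped minimum. -/
noncomputable def cm (P : ℕ → Prop) (b : ℕ) : ℕ := Nat.find (⟨b, Or.inr rfl⟩ : ∃ r, P r ∨ r = b)

lemma cm_le {P : ℕ → Prop} {b r : ℕ} (H : P r) : cm P b ≤ r := Nat.find_min' _ (Or.inl H)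

lemma cm_le_cap (P : ℕ → Prop) (b : ℕ) : cm P b ≤ b := Nat.find_min' _ (Or.inr rfl)

lemma cm_spec (P : ℕ → Prop) (b : ℕ) : P (cm P b) ∨ cm P b = b :=
  Nat.find_spec (⟨b, Or.inr rfl⟩ : ∃ r, P r ∨ r = b)

lemma cm_lip {P P' : ℕ → Prop} {b l : ℕ} (H : ∀ r, P' r → P (l + r)) : cm P b ≤ l + cm P' b := by
  rcases cm_spec P' b with h | h
  · exact cm_le (H _ h)
  · have := cm_le_cap P b
    omega

/-- Capped distance to a set. -/
noncomputable def Rl.dst (A : Rl V G) (L : Set V) (b : ℕ) (v : V) : ℕ :=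
  cm (fun r => ∃ w ∈ L, A.nb r v w) b

lemma Rl.dst_lip {A : Rl V G} (L : Set V) (b : ℕ) {l : ℕ} {v v' : V} (H : A.nb l v v') :
    A.dst L b v ≤ l + A.dst L b v' :=
  cm_lip fun _ ⟨w, hw, H'⟩ => ⟨w, hw, H.trans H'⟩

lemma Rl.dst_le {A : Rl V G} {L : Set V} (b : ℕ) {r : ℕ} {v w : V} (hw : w ∈ L)
    (H : A.nb r v w) : A.dst L b v ≤ r := cm_le ⟨w, hw, H⟩

lemma Rl.dst_spec {A : Rl V G} {L : Set V} {b : ℕ} {v : V} (H : A.dst L b v < b) :
    ∃ w ∈ L, A.nb (A.dst L b v) v w := (cm_spec _ b).resolve_right H.ne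

end

section

variable {G Ω W : Type} [Group G] [MulAction G Ω] [CommRing W]
variable {I : Type} [Fintype I] [DecidableEq I]

/-- Multiplication of matrix coefficients by a weight depending on the source vertex. -/
noncomputable def wmulI (wt : I × Ω → G → W) (a : MA I G Ω W) : MA I G Ω W :=
  fun i j => wmul0 (fun h ω => wt (i, ω) h) (a i j)

omit [Group G] [MulAction G Ω] [Fintype I] [DecidableEq I] in
lemma cf_wmulI (wt : I × Ω → G → W) (a : MA I G Ω W) (i j : I) (h : G) (ω : Ω) :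
    cf (wmulI wt a) i j h ω = wt (i, ω) h * cf a i j h ω := rfl

omit [Fintype I] [DecidableEq I] in
lemma Supp.wmulI {a : MA I G Ω W} {A : Rl (I × Ω) G} (Ha : Supp a A) (wt : I × Ω → G → W) :
    Supp (wmulI wt a) A := fun _ _ _ _ hne => Ha _ _ _ _ (right_ne_zero_of_mul hne)

/-- Two matrices with controlled support agreeing on a half space. -/
def Agr2 (A : Rl (I × Ω) G) (ψ : I × Ω → ℝ) (t β : ℝ) (n : ℕ) (a a' : MA I G Ω W) : Prop :=
  Supp a (A.pw n) ∧ Supp a' (A.pw n) ∧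
    ∀ i j h ω, (ψ (i, ω) < t - n * β ∨ ψ (j, h⁻¹ • ω) < t - n * β) →
      cf a i j h ω = cf a' i j h ω

omit [DecidableEq I] in
lemma Agr2.mul {A : Rl (I × Ω) G} {ψ : I × Ω → ℝ} {t β : ℝ} (hβ : 0 ≤ β)
    (hA : ∀ v h v', A v h v' → |ψ v' - ψ v| ≤ β) {m n : ℕ} {a a' b b' : MA I G Ω W}
    (Ha : Agr2 A ψ t β m a a') (Hb : Agr2 A ψ t β n b b') :
    Agr2 A ψ t β (m + n) (a * b) (a' * b') := by
  refine ⟨Ha.1.mul_pw Hb.1, Ha.2.1.mul_pw Hb.2.1, ?_⟩
  intro i k h ω hc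
  have hm : (0 : ℝ) ≤ m * β := by positivity
  have hn : (0 : ℝ) ≤ n * β := by positivity
  rw [cf_mul a b (lab a ∪ lab a') (fun _ _ _ _ H => Finset.mem_union_left _ (mem_lab H)),
    cf_mul a' b' (lab a ∪ lab a') (fun _ _ _ _ H => Finset.mem_union_right _ (mem_lab H))]
  refine Finset.sum_congr rfl fun j _ => Finset.sum_congr rfl fun h1 _ => ?_
  push_cast at hc
  have he : (h1⁻¹ * h)⁻¹ • h1⁻¹ • ω = h⁻¹ • ω := by simp [mul_smul]
  rcases hc with hc | hc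
  · have e1 := Ha.2.2 i j h1 ω (Or.inl (by linarith))
    rw [e1]
    by_cases h0 : cf a' i j h1 ω = 0
    · rw [h0, zero_mul, zero_mul]
    · have := Rl.pw_lip ψ hA (Ha.2.1 _ _ _ _ h0)
      have h5 := (abs_le.mp this).2
      rw [Hb.2.2 j k _ _ (Or.inl (by linarith))]
  · have e1 := Hb.2.2 j k (h1⁻¹ * h) (h1⁻¹ • ω) (Or.inr (by rw [he]; linarith))
    rw [e1]
    by_cases h0 : cf b' j k (h1⁻¹ * h) (h1⁻¹ • ω) = 0
    · rw [h0, mul_zero, mul_zero]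
    · have := Rl.pw_lip ψ hA (Hb.2.1 _ _ _ _ h0)
      have h5 := (abs_le.mp this).1
      simp only [he] at h5
      rw [Ha.2.2 i j _ _ (Or.inr (by linarith))]

omit [Fintype I] [DecidableEq I] in
lemma Agr2.add {A : Rl (I × Ω) G} {ψ : I × Ω → ℝ} {t β : ℝ} {n : ℕ} {a a' b b' : MA I G Ω W}
    (Ha : Agr2 A ψ t β n a a') (Hb : Agr2 A ψ t β n b b') : Agr2 A ψ t β n (a + b) (a' + b') :=
  ⟨Ha.1.add Hb.1, Ha.2.1.add Hb.2.1, fun i j h ω hc => by
    rw [cf_add, cf_add, Ha.2.2 i j h ω hc, Hb.2.2 i j h ω hc]⟩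

omit [Fintype I] [DecidableEq I] in
lemma Agr2.sub {A : Rl (I × Ω) G} {ψ : I × Ω → ℝ} {t β : ℝ} {n : ℕ} {a a' b b' : MA I G Ω W}
    (Ha : Agr2 A ψ t β n a a') (Hb : Agr2 A ψ t β n b b') : Agr2 A ψ t β n (a - b) (a' - b') :=
  ⟨Ha.1.sub Hb.1, Ha.2.1.sub Hb.2.1, fun i j h ω hc => by
    rw [cf_sub, cf_sub, Ha.2.2 i j h ω hc, Hb.2.2 i j h ω hc]⟩

omit [Fintype I] [DecidableEq I] in
lemma Agr2.refl {A : Rl (I × Ω) G} {ψ : I × Ω → ℝ} {t β : ℝ} {n : ℕ} {a : MA I G Ω W}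
    (Ha : Supp a (A.pw n)) : Agr2 A ψ t β n a a := ⟨Ha, Ha, fun _ _ _ _ _ => rfl⟩

variable {K : ℕ}

lemma agr2_rot {e φ φ' : MA I G Ω W} {ψ : I × Ω → ℝ} {t β : ℝ} (hβ : 0 ≤ β)
    (hA : ∀ v h v', gr e v h v' → |ψ v' - ψ v| ≤ β)
    (H1 : Supp φ (gr e)) (H2 : Supp φ' (gr e))
    (H3 : ∀ i j h ω, (ψ (i, ω) < t - β ∨ ψ (j, h⁻¹ • ω) < t - β) → cf φ i j h ω = cf φ' i j h ω)
    {ι : Fin K → Fin (K + 1)} (hι : ∀ b, |((ι b : ℕ) : ℝ) - (b : ℕ)| ≤ 1) :
    Agr2 (grL K e) (fun v => ψ (v.1.2, v.2)) t β 3 (rot ι φ) (rot ι φ') ∧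
      Agr2 (grL K e) (fun v => ψ (v.1.2, v.2)) t β 3 (rot' ι φ) (rot' ι φ') := by
  have hA' : ∀ v h v', grL K e v h v' → |ψ (v'.1.2, v'.2) - ψ (v.1.2, v.2)| ≤ β :=
    fun v h v' H => hA _ _ _ H.1
  have hm : ∀ c c', nn ι c c' ≠ 0 → |ht c' - ht c| ≤ 1 := by
    intro c c' hne
    rcases c with a | a <;> rcases c' with b | b <;> simp only [nn, ne_eq, not_true] at hne
    have : a = ι b := by
      by_contra h0
      simp [h0] at hne
    subst this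
    rw [abs_sub_comm]
    exact hι b
  have hm' : ∀ c c', (nn ι).transpose c c' ≠ 0 → |ht c' - ht c| ≤ 1 := by
    intro c c' hne
    rw [abs_sub_comm]
    exact hm _ _ hne
  have a0 : Agr2 (grL K e) (fun v => ψ (v.1.2, v.2)) t β 1 (1 : MA (JJ K × I) G Ω W) 1 :=
    Agr2.refl (supp_one_grL e)
  have a1 : ∀ m : Matrix (JJ K) (JJ K) ℤ, (∀ c c', m c c' ≠ 0 → |ht c' - ht c| ≤ 1) →
      Agr2 (grL K e) (fun v => ψ (v.1.2, v.2)) t β 1 (kr m φ) (kr m φ') := by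
    intro m hm
    refine ⟨supp_kr H1 hm, supp_kr H2 hm, ?_⟩
    intro x y h ω hc
    rw [cf_kr, cf_kr, H3 _ _ _ _ (by simpa using hc)]
  exact ⟨Agr2.mul hβ hA' (Agr2.mul hβ hA' (a0.sub (a1 _ hm)) (a0.add (a1 _ hm')))
      (a0.sub (a1 _ hm)),
    Agr2.mul hβ hA' (Agr2.mul hβ hA' (a0.add (a1 _ hm)) (a0.sub (a1 _ hm'))) (a0.add (a1 _ hm))⟩

lemma agr2_snake {e φL φL' φR φR' : MA I G Ω W} {ψ : I × Ω → ℝ} {t β : ℝ} (hβ : 0 ≤ β)
    (hA : ∀ v h v', gr e v h v' → |ψ v' - ψ v| ≤ β)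
    (H1 : Supp φL (gr e)) (H2 : Supp φL' (gr e))
    (H3 : ∀ i j h ω, (ψ (i, ω) < t - β ∨ ψ (j, h⁻¹ • ω) < t - β) →
      cf φL i j h ω = cf φL' i j h ω)
    (H4 : Supp φR (gr e)) (H5 : Supp φR' (gr e))
    (H6 : ∀ i j h ω, (ψ (i, ω) < t - β ∨ ψ (j, h⁻¹ • ω) < t - β) →
      cf φR i j h ω = cf φR' i j h ω) :
    Agr2 (grL K e) (fun v => ψ (v.1.2, v.2)) t β 13 (snake K e φL φR) (snake K e φL' φR') := by
  have hA' : ∀ v h v', grL K e v h v' → |ψ (v'.1.2, v'.2) - ψ (v.1.2, v.2)| ≤ β :=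
    fun v h v' H => hA _ _ _ H.1
  have hL := agr2_rot (K := K) hβ hA H1 H2 H3 (ι := Fin.succ) (fun b => by simp)
  have hR := agr2_rot (K := K) hβ hA H4 H5 H6 (ι := Fin.castSucc) (fun b => by simp)
  have hE : Agr2 (grL K e) (fun v => ψ (v.1.2, v.2)) t β 1 (bigE K e) (bigE K e) := by
    refine Agr2.refl (Supp.add (supp_kr (supp_gr e) ?_)
      (supp_kr ((supp_one_gr e).sub (supp_gr e)) ?_))
    · intro c c' hne
      rw [one_sub_oo_diag hne]; simp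
    · intro c c' hne
      rw [oo_diag hne]; simp
  exact Agr2.mul hβ hA' (Agr2.mul hβ hA' hL.1
    (Agr2.mul hβ hA' (Agr2.mul hβ hA' hR.1 hE) hR.2)) hL.2

theorem squeeze_step2 (c : Cen G Ω) (H : ∀ ω, c.Z ω ≠ 1) {e : MA I G Ω W} (he : e * e = e)
    (χ : I × Ω → ℝ) (b β : ℝ) (hβ : 0 ≤ β) (hA : ∀ v h v', gr e v h v' → |χ v' - χ v| ≤ β)
    (m : ℕ) :
    ∃ (I' : Type) (_ : Fintype I') (_ : DecidableEq I') (e' : MA I' G Ω W) (π : I' → I),
      e' * e' = e' ∧ c.T e' = c.T e ∧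
      (∀ v h v', gr e' v h v' → (gr e).pw 13 (π v.1, v.2) h (π v'.1, v'.2)) ∧
      ∀ v v', (gr e').nb m v v' →
        ¬ (χ (π v.1, v.2) < b - 13 * β ∧ b + 13 * β < χ (π v'.1, v'.2)) := by
  set K := 13 * m + 1 with hK
  set φL : MA I G Ω W := wmulI (fun v _ => if χ v < b then 1 else 0) (1 - e) with hφL
  set φR : MA I G Ω W := wmulI (fun v _ => if χ v < b then 0 else 1) (1 - e) with hφR
  have hf : Supp (1 - e) (gr e) := (supp_one_gr e).sub (supp_gr e)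
  have hfl : ∀ i j h ω, cf (1 - e) i j h ω ≠ 0 → |χ (j, h⁻¹ • ω) - χ (i, ω)| ≤ β :=
    fun i j h ω hne => hA _ _ _ (hf i j h ω hne)
  have hA' : ∀ v h v', gr e v h v' → |(-χ v') - (-χ v)| ≤ β := by
    intro v h v' H
    rw [abs_sub_comm, show -χ v - -χ v' = χ v' - χ v by ring]
    exact hA _ _ _ H
  have aL : Agr2 (grL K e) (fun v => χ (v.1.2, v.2)) b β 13 (snake K e φL φR)
      (snake K e (1 - e) 0) := by
    refine agr2_snake hβ hA (hf.wmulI _) hf ?_ (hf.wmulI _) (Supp.zero _) ?_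
    · intro i j h ω hc
      rw [cf_wmulI]
      by_cases h0 : cf (1 - e) i j h ω = 0
      · rw [h0, mul_zero]
      · have := abs_le.mp (hfl _ _ _ _ h0)
        rw [if_pos (by rcases hc with hc | hc <;> linarith), one_mul]
    · intro i j h ω hc
      rw [cf_wmulI, cf_zero]
      by_cases h0 : cf (1 - e) i j h ω = 0
      · rw [h0, mul_zero]
      · have := abs_le.mp (hfl _ _ _ _ h0)
        rw [if_pos (by rcases hc with hc | hc <;> linarith), zero_mul]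
  have aR : Agr2 (grL K e) (fun v => -χ (v.1.2, v.2)) (-b) β 13 (snake K e φL φR)
      (snake K e 0 (1 - e)) := by
    refine agr2_snake (ψ := fun v => -χ v) hβ hA' (hf.wmulI _) (Supp.zero _) ?_ (hf.wmulI _) hf ?_
    · intro i j h ω hc
      rw [cf_wmulI, cf_zero]
      by_cases h0 : cf (1 - e) i j h ω = 0
      · rw [h0, mul_zero]
      · have := abs_le.mp (hfl _ _ _ _ h0)
        rw [if_neg (by rcases hc with hc | hc <;> linarith), zero_mul]
    · intro i j h ω hc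
      rw [cf_wmulI]
      by_cases h0 : cf (1 - e) i j h ω = 0
      · rw [h0, mul_zero]
      · have := abs_le.mp (hfl _ _ _ _ h0)
        rw [if_neg (by rcases hc with hc | hc <;> linarith), one_mul]
  have sL : snake K e (1 - e) 0 = kr (nn Fin.succ * (nn Fin.succ).transpose) 1 +
      kr (1 - nn Fin.succ * (nn Fin.succ).transpose - oo K) e := by
    rw [snake, rot_zero, rot'_zero, one_mul, mul_one, rot_bigE (Fin.succ_injective K) he]
  have sR : snake K e 0 (1 - e) = kr (nn Fin.castSucc * (nn Fin.castSucc).transpose) 1 +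
      kr (1 - nn Fin.castSucc * (nn Fin.castSucc).transpose - oo K) e := by
    rw [snake, rot_zero, rot'_zero, one_mul, mul_one, rot_bigE (Fin.castSucc_injective K) he]
  set z := snake K e φL φR with hz
  have hgr : ∀ v h v', gr z v h v' → (grL K e).pw 13 v h v' := by
    rintro v h v' (⟨rfl, rfl⟩ | ⟨h1, h2⟩)
    · exact Rl.pw_refl (fun v => ⟨gr_refl _ _, by simp⟩) _ _
    · have := aL.1 _ _ _ _ h2
      rwa [← h1] at this
  have isoL : ∀ v h v', gr z v h v' → v ≠ v' →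
      (χ (v.1.2, v.2) < b - 13 * β ∨ χ (v'.1.2, v'.2) < b - 13 * β) →
      ht v.1.1 = 0 ∧ ht v'.1.1 = 0 := by
    rintro v h v' (⟨rfl, rfl⟩ | ⟨h1, h2⟩) hne hc
    · exact absurd rfl hne
    · rw [aL.2.2 _ _ _ _ (by rw [← h1]; simpa using hc), sL] at h2
      rcases std_isolated (Fin.succ_injective K) e h2 with ⟨rfl, h3⟩ | ⟨h3, a, h4, h5⟩
      · exact absurd (Prod.ext h3 (by simpa using h1.symm)) hne
      · have : a = 0 := by
          by_contra h6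
          obtain ⟨b, hb⟩ := Fin.exists_succ_eq.mpr h6
          exact h5 b hb.symm
        rw [← h3, h4, this]
        simp [ht]
  have isoR : ∀ v h v', gr z v h v' → v ≠ v' →
      (b + 13 * β < χ (v.1.2, v.2) ∨ b + 13 * β < χ (v'.1.2, v'.2)) →
      ht v.1.1 = K ∧ ht v'.1.1 = K := by
    rintro v h v' (⟨rfl, rfl⟩ | ⟨h1, h2⟩) hne hc
    · exact absurd rfl hne
    · rw [aR.2.2 _ _ _ _ (by
        rw [← h1]
        push_cast
        rcases hc with hc | hc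
        · left; linarith
        · right; linarith), sR] at h2
      rcases std_isolated (Fin.castSucc_injective K) e h2 with ⟨rfl, h3⟩ | ⟨h3, a, h4, h5⟩
      · exact absurd (Prod.ext h3 (by simpa using h1.symm)) hne
      · have : a = Fin.last K := by
          by_contra h6
          obtain ⟨b, hb⟩ := Fin.exists_castSucc_eq.mpr h6
          exact h5 b hb.symm
        rw [← h3, h4, this]
        simp [ht]
  refine ⟨JJ K × I, inferInstance, inferInstance, z, Prod.snd, ?_, ?_, ?_, ?_⟩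
  · rw [hz, snake]
    calc _ = rot Fin.succ φL * (rot Fin.castSucc φR * bigE K e * (rot' Fin.castSucc φR *
          (rot' Fin.succ φL * rot Fin.succ φL) * rot Fin.castSucc φR) * bigE K e *
            rot' Fin.castSucc φR) * rot' Fin.succ φL := by simp only [mul_assoc]
      _ = _ := by
        rw [rot'_mul_rot, mul_one, rot'_mul_rot, mul_one, mul_assoc _ (bigE K e) (bigE K e),
          bigE_idem he]
  · rw [hz, snake, c.T_mul_comm, ← mul_assoc, rot'_mul_rot, one_mul, c.T_mul_comm, ← mul_assoc,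
      rot'_mul_rot, one_mul, T_bigE c H]
  · intro v h v' Hv
    have := Rl.pw_map (B := gr e) (c := 1) (fun v : (JJ K × I) × Ω => (v.1.2, v.2))
      (fun v h v' H => Rl.pw_one H.1) (hgr v h v' Hv)
    simpa using this
  · rintro v v' ⟨h, Hv⟩ ⟨h1, h2⟩
    have hst : ∀ v h v', gr z v h v' → |ht v'.1.1 - ht v.1.1| ≤ 13 := by
      intro v h v' H
      have := Rl.pw_lip (fun v : (JJ K × I) × Ω => ht v.1.1) (fun v h v' H => H.2) (hgr v h v' H)
      simpa using this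
    have hht : |ht v'.1.1 - ht v.1.1| ≤ m * 13 := by
      refine Rl.pw_lip (fun v : (JJ K × I) × Ω => ht v.1.1) ?_ Hv
      rintro v h v' (H | H)
      · exact hst _ _ _ H
      · rw [abs_sub_comm]
        exact hst _ _ _ H
    have hKr : (K : ℝ) = 13 * m + 1 := by rw [hK]; push_cast; ring
    have hht' := abs_le.mp hht
    have hne : v ≠ v' := by
      rintro rfl
      linarith
    obtain ⟨x, s, hx, Hx⟩ := Rl.pw_first Hv hne
    obtain ⟨y, s', hy, Hy⟩ := Rl.pw_last Hv hne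
    have k1 : ht v.1.1 = 0 := by
      rcases Hx with Hx | Hx
      · exact (isoL _ _ _ Hx hx.symm (Or.inl h1)).1
      · exact (isoL _ _ _ Hx hx (Or.inr h1)).2
    have k2 : ht v'.1.1 = K := by
      rcases Hy with Hy | Hy
      · exact (isoR _ _ _ Hy hy (Or.inr h2)).2
      · exact (isoR _ _ _ Hy hy.symm (Or.inl h2)).1
    linarith

/-- The points all of whose `r`-neighbours lie in `L`. -/
def Rl.deep {V : Type} (A : Rl V G) (r : ℕ) (L : Set V) : Set V := {v | ∀ w, A.nb r v w → w ∈ L}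

theorem squeeze_set (c : Cen G Ω) (H : ∀ ω, c.Z ω ≠ 1) {e : MA I G Ω W} (he : e * e = e)
    (L : Set (I × Ω)) (m : ℕ) :
    ∃ (I' : Type) (_ : Fintype I') (_ : DecidableEq I') (e' : MA I' G Ω W) (π : I' → I),
      e' * e' = e' ∧ c.T e' = c.T e ∧
      (∀ v h v', gr e' v h v' → (gr e).pw 13 (π v.1, v.2) h (π v'.1, v'.2)) ∧
      ∀ v v', (gr e').nb m v v' →
        ¬ ((π v.1, v.2) ∈ L ∧ (π v'.1, v'.2) ∈ (gr e).deep 27 Lᶜ) := by
  obtain ⟨I', i1, i2, e', π, k1, k2, k3, k4⟩ := squeeze_step2 c H he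
    (fun v => ((gr e).dst L 28 v : ℝ)) 14 1 zero_le_one (by
      intro v h v' Hv
      have h1 := Rl.dst_lip L 28 (A := gr e) ⟨h, Rl.pw_one (Or.inl Hv)⟩
      have h2 := Rl.dst_lip L 28 (A := gr e) (Rl.nb.symm ⟨h, Rl.pw_one (Or.inl Hv)⟩)
      have h3 : ((gr e).dst L 28 v : ℝ) ≤ 1 + (gr e).dst L 28 v' := by exact_mod_cast h1
      have h4 : ((gr e).dst L 28 v' : ℝ) ≤ 1 + (gr e).dst L 28 v := by exact_mod_cast h2
      rw [abs_le]
      constructor <;> linarith) m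
  refine ⟨I', i1, i2, e', π, k1, k2, k3, fun v v' Hv ⟨h1, h2⟩ => k4 v v' Hv ⟨?_, ?_⟩⟩
  · have : (gr e).dst L 28 (π v.1, v.2) ≤ 0 := Rl.dst_le 28 h1 (Rl.nb_refl (gr_refl e) 0 _)
    have h3 : (gr e).dst L 28 (π v.1, v.2) = 0 := by omega
    simp only [h3]
    norm_num
  · have h3 : 27 < (gr e).dst L 28 (π v'.1, v'.2) := by
      by_contra h4
      obtain ⟨w, hw, H'⟩ := Rl.dst_spec (A := gr e) (L := L) (b := 28) (v := (π v'.1, v'.2))
        (by omega)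
      exact h2 w (H'.mono (gr_refl e) (by omega)) hw
    have h4 : (27 : ℝ) < (gr e).dst L 28 (π v'.1, v'.2) := by exact_mod_cast h3
    linarith

theorem squeeze_sets (c : Cen G Ω) (H : ∀ ω, c.Z ω ≠ 1) {e : MA I G Ω W} (he : e * e = e)
    {Ad : Type} (s : Finset Ad) (L : Ad → Set (I × Ω)) (m : ℕ) :
    ∃ (I' : Type) (_ : Fintype I') (_ : DecidableEq I') (e' : MA I' G Ω W) (π : I' → I),
      e' * e' = e' ∧ c.T e' = c.T e ∧
      (∀ v h v', gr e' v h v' → (gr e).pw (13 ^ s.card) (π v.1, v.2) h (π v'.1, v'.2)) ∧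
      ∀ a ∈ s, ∀ v v', (gr e').nb m v v' →
        ¬ ((π v.1, v.2) ∈ L a ∧ (π v'.1, v'.2) ∈ (gr e).deep (27 * 13 ^ s.card) (L a)ᶜ) := by
  induction s using Finset.induction_on generalizing m with
  | empty =>
    exact ⟨I, inferInstance, inferInstance, e, id, he, rfl, fun v h v' Hv => Rl.pw_one Hv,
      by simp⟩
  | insert x s hx ih =>
    rw [Finset.card_insert_of_notMem hx]
    have hle : 13 ^ s.card ≤ 13 ^ (s.card + 1) := Nat.pow_le_pow_right (by norm_num) (by omega)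
    obtain ⟨I1, i1, i2, e1, π1, k1, k2, k3, k4⟩ := ih (13 * m)
    obtain ⟨I2, j1, j2, e2, π2, l1, l2, l3, l4⟩ := squeeze_set c H k1
      {v | (π1 v.1, v.2) ∈ L x} m
    refine ⟨I2, j1, j2, e2, π1 ∘ π2, l1, l2.trans k2, ?_, ?_⟩
    · intro v h v' Hv
      have := Rl.pw_map (B := gr e) (fun v : I1 × Ω => (π1 v.1, v.2)) k3 (l3 v h v' Hv)
      rw [pow_succ]
      exact this
    · intro y hy v v' Hv ⟨h1, h2⟩
      rcases Finset.mem_insert.mp hy with rfl | hy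
      · refine l4 v v' Hv ⟨h1, fun w Hw => ?_⟩
        exact h2 _ ((Hw.map (B := gr e) (fun v : I1 × Ω => (π1 v.1, v.2)) k3).mono (gr_refl e)
          (by omega))
      · refine k4 y hy _ _ (Hv.map (B := gr e1) (fun v : I2 × Ω => (π2 v.1, v.2)) l3) ⟨h1, ?_⟩
        exact fun w Hw => h2 w (Hw.mono (gr_refl e) (by omega))

end

end Pool.Agent.Lib.MP_7903c7_al
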