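import Pool.Agent.Lib.MP_7903c7_al.Trace

set_option autoImplicit false
set_option linter.unusedSimpArgs false

namespace Pool.Agent.Lib.MP_7903c7_al

open scoped Classical

lemma rot_conj {B : Type} [Ring B] (n n' f : B) (h1 : n * n = 0) (h2 : n' * n' = 0)
    (h3 : n * (n' * n) = n) (h4 : n' * (n * n') = n') (h5 : f * n = n * f) (h6 : f * n' = n' * f)
    (h7 : f * f = f) :
    (1 - n * f) * (1 + n' * f) * (1 - n * f) * ((1 - n' * n) * (1 - f) + n' * n * f) =
      (n * n' + (1 - n * n' - n' * n) * (1 - f)) * ((1 - n * f) * (1 + n' * f) * (1 - n * f)) := by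
  have k1 : ∀ z, n * (n * z) = 0 := fun z => by rw [← mul_assoc, h1, zero_mul]
  have k2 : ∀ z, n' * (n' * z) = 0 := fun z => by rw [← mul_assoc, h2, zero_mul]
  have k3 : ∀ z, n * (n' * (n * z)) = n * z := fun z => by
    rw [← mul_assoc n', ← mul_assoc, h3]
  have k4 : ∀ z, n' * (n * (n' * z)) = n' * z := fun z => by
    rw [← mul_assoc n, ← mul_assoc, h4]
  have k5 : ∀ z, f * (n * z) = n * (f * z) := fun z => by rw [← mul_assoc, h5, mul_assoc]
  have k6 : ∀ z, f * (n' * z) = n' * (f * z) := fun z => by rw [← mul_assoc, h6, mul_assoc]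
  have k7 : ∀ z, f * (f * z) = f * z := fun z => by rw [← mul_assoc, h7]
  simp only [mul_add, add_mul, mul_sub, sub_mul, mul_assoc, one_mul, mul_one, h1, h2, h3, h4, h5,
    h6, h7, k1, k2, k3, k4, k5, k6, k7, mul_zero, sub_zero, add_zero]
  abel

lemma rot_inv {B : Type} [Ring B] (x y : B) (hx : x * x = 0) (hy : y * y = 0) :
    ((1 - x) * (1 + y) * (1 - x)) * ((1 + x) * (1 - y) * (1 + x)) = 1 := by
  have k1 : (1 - x) * (1 + x) = 1 := by
    simp only [mul_add, sub_mul, one_mul, mul_one, hx]; abel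
  have k2 : (1 + y) * (1 - y) = 1 := by
    simp only [mul_sub, add_mul, one_mul, mul_one, hy]; abel
  calc _ = (1 - x) * ((1 + y) * (((1 - x) * (1 + x)) * (1 - y))) * (1 + x) := by
        simp only [mul_assoc]
    _ = 1 := by rw [k1, one_mul, k2, mul_one, k1]

lemma rot_inv' {B : Type} [Ring B] (x y : B) (hx : x * x = 0) (hy : y * y = 0) :
    ((1 + x) * (1 - y) * (1 + x)) * ((1 - x) * (1 + y) * (1 - x)) = 1 := by
  have := rot_inv (-x) (-y) (by simpa using hx) (by simpa using hy)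
  simpa [sub_eq_add_neg] using this

section

variable {G Ω W : Type} [Group G] [MulAction G Ω] [CommRing W]
variable {I : Type} [Fintype I] [DecidableEq I]

/-- Two matrices with controlled support agreeing on a half space. -/
def Agr (A : Rl (I × Ω) G) (ψ : Ω → ℝ) (t β : ℝ) (n : ℕ) (a a' : MA I G Ω W) : Prop :=
  Supp a (A.pw n) ∧ Supp a' (A.pw n) ∧
    ∀ i j h ω, (ψ ω < t - n * β ∨ ψ (h⁻¹ • ω) < t - n * β) → cf a i j h ω = cf a' i j h ω

omit [DecidableEq I] in
lemma Agr.mul {A : Rl (I × Ω) G} {ψ : Ω → ℝ} {t β : ℝ} (hβ : 0 ≤ β)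
    (hA : ∀ v h v', A v h v' → |ψ v'.2 - ψ v.2| ≤ β) {m n : ℕ} {a a' b b' : MA I G Ω W}
    (Ha : Agr A ψ t β m a a') (Hb : Agr A ψ t β n b b') :
    Agr A ψ t β (m + n) (a * b) (a' * b') := by
  refine ⟨Ha.1.mul_pw Hb.1, Ha.2.1.mul_pw Hb.2.1, ?_⟩
  intro i k h ω hc
  have hm : (0 : ℝ) ≤ m * β := by positivity
  have hn : (0 : ℝ) ≤ n * β := by positivity
  rw [cf_mul a b (lab a ∪ lab a') (fun _ _ _ _ H => Finset.mem_union_left _ (mem_lab H)),
    cf_mul a' b' (lab a ∪ lab a') (fun _ _ _ _ H => Finset.mem_union_right _ (mem_lab H))]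
  refine Finset.sum_congr rfl fun j _ => Finset.sum_congr rfl fun h1 _ => ?_
  push_cast at hc
  have he : (h1⁻¹ * h)⁻¹ • h1⁻¹ • ω = h⁻¹ • ω := by simp [mul_smul]
  rcases hc with hc | hc
  · have e1 := Ha.2.2 i j h1 ω (Or.inl (by linarith))
    rw [e1]
    by_cases h0 : cf a' i j h1 ω = 0
    · rw [h0, zero_mul, zero_mul]
    · have := Rl.pw_lip (fun v : I × Ω => ψ v.2) hA (Ha.2.1 _ _ _ _ h0)
      have h5 := (abs_le.mp this).2
      simp only at h5
      rw [Hb.2.2 j k _ _ (Or.inl (by linarith))]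
  · have e1 := Hb.2.2 j k (h1⁻¹ * h) (h1⁻¹ • ω) (Or.inr (by rw [he]; linarith))
    rw [e1]
    by_cases h0 : cf b' j k (h1⁻¹ * h) (h1⁻¹ • ω) = 0
    · rw [h0, mul_zero, mul_zero]
    · have := Rl.pw_lip (fun v : I × Ω => ψ v.2) hA (Hb.2.1 _ _ _ _ h0)
      have h5 := (abs_le.mp this).1
      simp only [he] at h5
      rw [Ha.2.2 i j _ _ (Or.inr (by linarith))]

omit [Fintype I] [DecidableEq I] in
lemma Agr.add {A : Rl (I × Ω) G} {ψ : Ω → ℝ} {t β : ℝ} {n : ℕ} {a a' b b' : MA I G Ω W}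
    (Ha : Agr A ψ t β n a a') (Hb : Agr A ψ t β n b b') : Agr A ψ t β n (a + b) (a' + b') :=
  ⟨Ha.1.add Hb.1, Ha.2.1.add Hb.2.1, fun i j h ω hc => by
    rw [cf_add, cf_add, Ha.2.2 i j h ω hc, Hb.2.2 i j h ω hc]⟩

omit [Fintype I] [DecidableEq I] in
lemma Agr.sub {A : Rl (I × Ω) G} {ψ : Ω → ℝ} {t β : ℝ} {n : ℕ} {a a' b b' : MA I G Ω W}
    (Ha : Agr A ψ t β n a a') (Hb : Agr A ψ t β n b b') : Agr A ψ t β n (a - b) (a' - b') :=
  ⟨Ha.1.sub Hb.1, Ha.2.1.sub Hb.2.1, fun i j h ω hc => by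
    rw [cf_sub, cf_sub, Ha.2.2 i j h ω hc, Hb.2.2 i j h ω hc]⟩

omit [Fintype I] [DecidableEq I] in
lemma Agr.refl {A : Rl (I × Ω) G} {ψ : Ω → ℝ} {t β : ℝ} {n : ℕ} {a : MA I G Ω W}
    (Ha : Supp a (A.pw n)) : Agr A ψ t β n a a := ⟨Ha, Ha, fun _ _ _ _ _ => rfl⟩

variable {J : Type} [Fintype J] [DecidableEq J]

/-- Kronecker product with an integer matrix. -/
noncomputable def kr (m : Matrix J J ℤ) (a : MA I G Ω W) : MA (J × I) G Ω W :=
  fun x y => (m x.1 y.1 : SA G Ω W) * a x.2 y.2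

lemma coeff_intCast_mul (z : ℤ) (a : SA G Ω W) (h : G) (ω : Ω) :
    ((z : SA G Ω W) * a).coeff h ω = z * a.coeff h ω := by
  induction z using Int.induction_on with
  | zero => simp [Fn.zero_apply]
  | succ n ih =>
    rw [Int.cast_add, Int.cast_one, add_mul, one_mul, SkewMonoidAlgebra.coeff_add,
      Finsupp.add_apply, Fn.add_apply, ih]
    push_cast; ring
  | pred n ih =>
    rw [Int.cast_sub, Int.cast_one, sub_mul, one_mul, SkewMonoidAlgebra.coeff_sub,
      Finsupp.sub_apply, Fn.sub_apply, ih]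
    push_cast; ring

omit [Fintype I] [DecidableEq I] [Fintype J] [DecidableEq J] in
lemma cf_kr (m : Matrix J J ℤ) (a : MA I G Ω W) (x y : J × I) (h : G) (ω : Ω) :
    cf (kr m a) x y h ω = m x.1 y.1 * cf a x.2 y.2 h ω := coeff_intCast_mul _ _ _ _

omit [DecidableEq I] [DecidableEq J] in
lemma kr_mul (m m' : Matrix J J ℤ) (a a' : MA I G Ω W) :
    kr m a * kr m' a' = kr (m * m') (a * a') := by
  ext1 x y
  simp only [kr, Matrix.mul_apply, Fintype.sum_prod_type, Int.cast_sum, Int.cast_mul,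
    Finset.sum_mul, Finset.mul_sum]
  rw [Finset.sum_comm]
  refine Finset.sum_congr rfl fun i _ => Finset.sum_congr rfl fun c _ => ?_
  rw [mul_assoc, mul_assoc, ← mul_assoc (a x.2 i), ← (Int.cast_commute (m' c y.1) (a x.2 i)).eq,
    mul_assoc]

omit [Fintype I] [Fintype J] in
lemma kr_one : kr (1 : Matrix J J ℤ) (1 : MA I G Ω W) = 1 := by
  ext1 x y
  obtain ⟨c, i⟩ := x
  obtain ⟨c', j⟩ := y
  by_cases h1 : c = c' <;> by_cases h2 : i = j <;> simp [kr, Matrix.one_apply, h1, h2]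

omit [Fintype I] [DecidableEq I] [Fintype J] [DecidableEq J] in
lemma kr_zero_left (a : MA I G Ω W) : kr (0 : Matrix J J ℤ) a = 0 := by
  ext1 x y
  simp [kr]

omit [Fintype I] [DecidableEq I] [Fintype J] [DecidableEq J] in
lemma kr_zero_right (m : Matrix J J ℤ) : kr m (0 : MA I G Ω W) = 0 := by
  ext1 x y
  simp [kr]

omit [Fintype I] [DecidableEq I] [Fintype J] [DecidableEq J] in
lemma kr_sub_left (m m' : Matrix J J ℤ) (a : MA I G Ω W) : kr (m - m') a = kr m a - kr m' a := by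
  ext1 x y
  simp [kr, sub_mul]

omit [Fintype I] [DecidableEq I] [Fintype J] [DecidableEq J] in
lemma kr_sub_right (m : Matrix J J ℤ) (a a' : MA I G Ω W) : kr m (a - a') = kr m a - kr m a' := by
  ext1 x y
  simp [kr, mul_sub]

omit [DecidableEq I] [DecidableEq J] in
lemma Cen.T_kr (c : Cen G Ω) (m : Matrix J J ℤ) (a : MA I G Ω W) :
    c.T (kr m a) = (m.trace : W) * c.T a := by
  have h0 : ∀ (z : ℤ) (b : SA G Ω W), c.T0 ((z : SA G Ω W) * b) = z * c.T0 b := by
    intro z b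
    induction z using Int.induction_on with
    | zero => simp
    | succ n ih => rw [Int.cast_add, Int.cast_one, add_mul, one_mul, map_add, ih]; push_cast; ring
    | pred n ih => rw [Int.cast_sub, Int.cast_one, sub_mul, one_mul, map_sub, ih]; push_cast; ring
  simp only [c.T_apply, kr, h0, Fintype.sum_prod_type, Matrix.trace, Matrix.diag, Int.cast_sum,
    Finset.sum_mul, Finset.mul_sum]
  exact Finset.sum_comm

end

section Pairing

variable {K : ℕ}

/-- The copies used in the finite swindle. -/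
abbrev JJ (K : ℕ) : Type := Fin (K + 1) ⊕ Fin K

/-- Height of a copy. -/
def ht : JJ K → ℝ
  | Sum.inl a => (a : ℕ)
  | Sum.inr b => (b : ℕ)

/-- Pairing matrix. -/
def nn (ι : Fin K → Fin (K + 1)) : Matrix (JJ K) (JJ K) ℤ
  | Sum.inl a, Sum.inr b => if a = ι b then 1 else 0
  | _, _ => 0

/-- Projection to the second kind of copies. -/
def oo (K : ℕ) : Matrix (JJ K) (JJ K) ℤ
  | Sum.inr a, Sum.inr b => if a = b then 1 else 0
  | _, _ => 0

lemma nn_sq (ι : Fin K → Fin (K + 1)) : nn ι * nn ι = 0 := by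
  ext c c'
  rcases c with a | a <;> rcases c' with b | b <;>
    simp [Matrix.mul_apply, Fintype.sum_sum_type, nn]

lemma nn_sq' (ι : Fin K → Fin (K + 1)) : (nn ι).transpose * (nn ι).transpose = 0 := by
  rw [← Matrix.transpose_mul, nn_sq, Matrix.transpose_zero]

lemma nn_oo {ι : Fin K → Fin (K + 1)} (hι : Function.Injective ι) :
    (nn ι).transpose * nn ι = oo K := by
  ext c c'
  rcases c with a | a <;> rcases c' with b | b <;>
    simp [Matrix.mul_apply, Fintype.sum_sum_type, nn, oo, hι.eq_iff, eq_comm]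

lemma nn_mul_oo (ι : Fin K → Fin (K + 1)) : nn ι * oo K = nn ι := by
  ext c c'
  rcases c with a | a <;> rcases c' with b | b <;>
    simp [Matrix.mul_apply, Fintype.sum_sum_type, nn, oo]

lemma oo_transpose : (oo K).transpose = oo K := by
  ext c c'
  rcases c with a | a <;> rcases c' with b | b <;> simp [oo, eq_comm]

lemma oo_mul_nn (ι : Fin K → Fin (K + 1)) : oo K * (nn ι).transpose = (nn ι).transpose := by
  rw [← oo_transpose, ← Matrix.transpose_mul, nn_mul_oo]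

lemma oo_sq : oo K * oo K = oo K := by
  ext c c'
  rcases c with a | a <;> rcases c' with b | b <;>
    simp [Matrix.mul_apply, Fintype.sum_sum_type, oo]

lemma oo_trace : (oo K).trace = K := by
  simp [Matrix.trace, Fintype.sum_sum_type, oo]

lemma oo_diag {c c' : JJ K} (h : oo K c c' ≠ 0) : c = c' := by
  rcases c with a | a <;> rcases c' with b | b <;> simp_all [oo]

lemma one_sub_oo_diag {c c' : JJ K} (h : (1 - oo K) c c' ≠ 0) : c = c' := by
  by_contra hne
  apply h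
  have : oo K c c' = 0 := by
    by_contra h0
    exact hne (oo_diag h0)
  simp [Matrix.one_apply_ne hne, this]

lemma nnt_diag {ι : Fin K → Fin (K + 1)} {c c' : JJ K}
    (h : (nn ι * (nn ι).transpose) c c' ≠ 0) : c = c' := by
  rw [Matrix.mul_apply] at h
  obtain ⟨d, -, hd⟩ := Finset.exists_ne_zero_of_sum_ne_zero h
  rcases c with a | a <;> rcases c' with b | b <;> rcases d with d | d <;> simp_all [nn]

lemma rest_diag {ι : Fin K → Fin (K + 1)} (hι : Function.Injective ι) {c c' : JJ K}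
    (h : (1 - nn ι * (nn ι).transpose - oo K) c c' ≠ 0) :
    c = c' ∧ ∃ a, c = Sum.inl a ∧ ∀ b, a ≠ ι b := by
  have hcc : c = c' := by
    by_contra hne
    apply h
    have h1 : oo K c c' = 0 := by
      by_contra h0
      exact hne (oo_diag h0)
    have h2 : (nn ι * (nn ι).transpose) c c' = 0 := by
      by_contra h0
      exact hne (nnt_diag h0)
    simp [Matrix.one_apply_ne hne, h1, h2]
  subst hcc
  refine ⟨rfl, ?_⟩
  rcases c with a | a
  · refine ⟨a, rfl, ?_⟩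
    rintro b rfl
    apply h
    simp [Matrix.mul_apply, Fintype.sum_sum_type, nn, oo, hι.eq_iff]
  · exfalso
    apply h
    simp [Matrix.mul_apply, Fintype.sum_sum_type, nn, oo]

end Pairing

section Step

variable {G Ω W : Type} [Group G] [MulAction G Ω] [CommRing W]
variable {I : Type} [Fintype I] [DecidableEq I] {K : ℕ}

/-- Truncated rotation. -/
noncomputable def rot (ι : Fin K → Fin (K + 1)) (φ : MA I G Ω W) : MA (JJ K × I) G Ω W :=
  (1 - kr (nn ι) φ) * (1 + kr (nn ι).transpose φ) * (1 - kr (nn ι) φ)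

/-- Inverse of the truncated rotation. -/
noncomputable def rot' (ι : Fin K → Fin (K + 1)) (φ : MA I G Ω W) : MA (JJ K × I) G Ω W :=
  (1 + kr (nn ι) φ) * (1 - kr (nn ι).transpose φ) * (1 + kr (nn ι) φ)

lemma rot_mul_rot' (ι : Fin K → Fin (K + 1)) (φ : MA I G Ω W) : rot ι φ * rot' ι φ = 1 :=
  rot_inv _ _ (by rw [kr_mul, nn_sq, kr_zero_left]) (by rw [kr_mul, nn_sq', kr_zero_left])

lemma rot'_mul_rot (ι : Fin K → Fin (K + 1)) (φ : MA I G Ω W) : rot' ι φ * rot ι φ = 1 :=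
  rot_inv' _ _ (by rw [kr_mul, nn_sq, kr_zero_left]) (by rw [kr_mul, nn_sq', kr_zero_left])

lemma rot_zero (ι : Fin K → Fin (K + 1)) : rot ι (0 : MA I G Ω W) = 1 := by
  simp [rot, kr_zero_right]

lemma rot'_zero (ι : Fin K → Fin (K + 1)) : rot' ι (0 : MA I G Ω W) = 1 := by
  simp [rot', kr_zero_right]

/-- The alternating sum of copies of `e` and `1 - e`. -/
noncomputable def bigE (K : ℕ) (e : MA I G Ω W) : MA (JJ K × I) G Ω W :=
  kr (1 - oo K) e + kr (oo K) (1 - e)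

lemma bigE_idem {e : MA I G Ω W} (he : e * e = e) : bigE K e * bigE K e = bigE K e := by
  have h1 : (1 - oo K) * (1 - oo K) = 1 - oo K := by
    rw [mul_sub, sub_mul, sub_mul, oo_sq]; simp
  have h2 : e * (1 - e) = 0 := by rw [mul_sub, he]; simp
  have h3 : (1 - e) * e = 0 := by rw [sub_mul, he]; simp
  have h4 : (1 - e) * (1 - e) = 1 - e := by rw [mul_sub, h3]; simp
  simp only [bigE, mul_add, add_mul, kr_mul, h1, h2, h3, h4, he, oo_sq, kr_zero_right]
  abel

lemma T_bigE (c : Cen G Ω) (H : ∀ ω, c.Z ω ≠ 1) (e : MA I G Ω W) : c.T (bigE K e) = c.T e := by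
  rw [bigE, map_add, c.T_kr, c.T_kr, map_sub, c.T_one H, Matrix.trace_sub, oo_trace,
    Matrix.trace_one]
  simp
  ring

lemma rot_bigE {ι : Fin K → Fin (K + 1)} (hι : Function.Injective ι) {e : MA I G Ω W}
    (he : e * e = e) :
    rot ι (1 - e) * bigE K e * rot' ι (1 - e) =
      kr (nn ι * (nn ι).transpose) 1 + kr (1 - nn ι * (nn ι).transpose - oo K) e := by
  have h3 : (1 - e) * e = 0 := by rw [sub_mul, he]; simp
  have h4 : (1 - e) * (1 - e) = 1 - e := by rw [mul_sub, h3]; simp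
  have key := rot_conj (kr (nn ι) (1 : MA I G Ω W)) (kr (nn ι).transpose 1) (kr 1 (1 - e))
    (by rw [kr_mul, nn_sq, kr_zero_left]) (by rw [kr_mul, nn_sq', kr_zero_left])
    (by rw [kr_mul, kr_mul, nn_oo hι, nn_mul_oo]; simp)
    (by rw [kr_mul, kr_mul, ← mul_assoc, nn_oo hι, oo_mul_nn]; simp)
    (by rw [kr_mul, kr_mul]; simp) (by rw [kr_mul, kr_mul]; simp)
    (by rw [kr_mul, h4]; simp)
  have e1 : (1 : MA (JJ K × I) G Ω W) - kr 1 (1 - e) = kr 1 e := by
    rw [kr_sub_right, kr_one]; abel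
  have e2 : (1 : MA (JJ K × I) G Ω W) - kr (oo K) 1 = kr (1 - oo K) 1 := by
    rw [kr_sub_left, kr_one]
  have e3 : (1 : MA (JJ K × I) G Ω W) - kr (nn ι * (nn ι).transpose) 1 - kr (oo K) 1 =
      kr (1 - nn ι * (nn ι).transpose - oo K) 1 := by
    rw [kr_sub_left, kr_sub_left, kr_one]
  simp only [kr_mul, mul_one, one_mul, nn_oo hι, e1, e2, e3] at key
  have key2 : rot ι (1 - e) * bigE K e =
      (kr (nn ι * (nn ι).transpose) 1 + kr (1 - nn ι * (nn ι).transpose - oo K) e) *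
        rot ι (1 - e) := key
  rw [key2, mul_assoc, rot_mul_rot', mul_one]

/-- The lifted support relation. -/
def grL (K : ℕ) (e : MA I G Ω W) : Rl ((JJ K × I) × Ω) G :=
  fun v h v' => gr e (v.1.2, v.2) h (v'.1.2, v'.2) ∧ |ht v'.1.1 - ht v.1.1| ≤ 1

omit [Fintype I] [DecidableEq I] in
lemma supp_kr {e a : MA I G Ω W} (Ha : Supp a (gr e)) {m : Matrix (JJ K) (JJ K) ℤ}
    (hm : ∀ c c', m c c' ≠ 0 → |ht c' - ht c| ≤ 1) : Supp (kr m a) ((grL K e).pw 1) := by
  intro x y h ω hne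
  rw [cf_kr] at hne
  refine Rl.pw_one ⟨Ha _ _ _ _ (right_ne_zero_of_mul hne), hm _ _ ?_⟩
  intro h0
  apply left_ne_zero_of_mul hne
  simp [h0]

omit [Fintype I] in
lemma supp_one_gr (e : MA I G Ω W) : Supp (1 : MA I G Ω W) (gr e) :=
  (Supp.one (gr e)).mono fun _ _ _ H => Or.inl H

omit [Fintype I] in
lemma supp_one_grL (e : MA I G Ω W) : Supp (1 : MA (JJ K × I) G Ω W) ((grL K e).pw 1) := by
  refine (Supp.one (grL K e)).mono fun v h v' H => ?_
  obtain ⟨rfl, rfl⟩ := H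
  exact Rl.pw_one ⟨gr_refl _ _, by simp⟩

lemma agr_rot {e φ φ' : MA I G Ω W} {ψ : Ω → ℝ} {t β : ℝ} (hβ : 0 ≤ β)
    (hA : ∀ v h v', gr e v h v' → |ψ v'.2 - ψ v.2| ≤ β)
    (H1 : Supp φ (gr e)) (H2 : Supp φ' (gr e))
    (H3 : ∀ i j h ω, (ψ ω < t - β ∨ ψ (h⁻¹ • ω) < t - β) → cf φ i j h ω = cf φ' i j h ω)
    {ι : Fin K → Fin (K + 1)} (hι : ∀ b, |((ι b : ℕ) : ℝ) - (b : ℕ)| ≤ 1) :
    Agr (grL K e) ψ t β 3 (rot ι φ) (rot ι φ') ∧ Agr (grL K e) ψ t β 3 (rot' ι φ) (rot' ι φ') := by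
  have hA' : ∀ v h v', grL K e v h v' → |ψ v'.2 - ψ v.2| ≤ β := fun v h v' H => hA _ _ _ H.1
  have hm : ∀ c c', nn ι c c' ≠ 0 → |ht c' - ht c| ≤ 1 := by
    intro c c' hne
    rcases c with a | a <;> rcases c' with b | b <;> simp only [nn, ne_eq, not_true] at hne
    have : a = ι b := by
      by_contra h0
      simp [h0] at hne
    subst this
    rw [abs_sub_comm]
    exact hι b
  have hm' : ∀ c c', (nn ι).transpose c c' ≠ 0 → |ht c' - ht c| ≤ 1 := by
    intro c c' hne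
    rw [abs_sub_comm]
    exact hm _ _ hne
  have a0 : Agr (grL K e) ψ t β 1 (1 : MA (JJ K × I) G Ω W) 1 := Agr.refl (supp_one_grL e)
  have a1 : ∀ m : Matrix (JJ K) (JJ K) ℤ, (∀ c c', m c c' ≠ 0 → |ht c' - ht c| ≤ 1) →
      Agr (grL K e) ψ t β 1 (kr m φ) (kr m φ') := by
    intro m hm
    refine ⟨supp_kr H1 hm, supp_kr H2 hm, ?_⟩
    intro x y h ω hc
    rw [cf_kr, cf_kr, H3 _ _ _ _ (by simpa using hc)]
  exact ⟨Agr.mul hβ hA' (Agr.mul hβ hA' (a0.sub (a1 _ hm)) (a0.add (a1 _ hm'))) (a0.sub (a1 _ hm)),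
    Agr.mul hβ hA' (Agr.mul hβ hA' (a0.add (a1 _ hm)) (a0.sub (a1 _ hm'))) (a0.add (a1 _ hm))⟩

/-- The squeezed idempotent. -/
noncomputable def snake (K : ℕ) (e φL φR : MA I G Ω W) : MA (JJ K × I) G Ω W :=
  rot Fin.succ φL * (rot Fin.castSucc φR * bigE K e * rot' Fin.castSucc φR) * rot' Fin.succ φL

lemma agr_snake {e φL φL' φR φR' : MA I G Ω W} {ψ : Ω → ℝ} {t β : ℝ} (hβ : 0 ≤ β)
    (hA : ∀ v h v', gr e v h v' → |ψ v'.2 - ψ v.2| ≤ β)
    (H1 : Supp φL (gr e)) (H2 : Supp φL' (gr e))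
    (H3 : ∀ i j h ω, (ψ ω < t - β ∨ ψ (h⁻¹ • ω) < t - β) → cf φL i j h ω = cf φL' i j h ω)
    (H4 : Supp φR (gr e)) (H5 : Supp φR' (gr e))
    (H6 : ∀ i j h ω, (ψ ω < t - β ∨ ψ (h⁻¹ • ω) < t - β) → cf φR i j h ω = cf φR' i j h ω) :
    Agr (grL K e) ψ t β 13 (snake K e φL φR) (snake K e φL' φR') := by
  have hA' : ∀ v h v', grL K e v h v' → |ψ v'.2 - ψ v.2| ≤ β := fun v h v' H => hA _ _ _ H.1
  have hL := agr_rot (K := K) hβ hA H1 H2 H3 (ι := Fin.succ) (fun b => by simp)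
  have hR := agr_rot (K := K) hβ hA H4 H5 H6 (ι := Fin.castSucc) (fun b => by simp)
  have hE : Agr (grL K e) ψ t β 1 (bigE K e) (bigE K e) := by
    refine Agr.refl (Supp.add (supp_kr (supp_gr e) ?_)
      (supp_kr ((supp_one_gr e).sub (supp_gr e)) ?_))
    · intro c c' hne
      rw [one_sub_oo_diag hne]; simp
    · intro c c' hne
      rw [oo_diag hne]; simp
  exact Agr.mul hβ hA' (Agr.mul hβ hA' hL.1 (Agr.mul hβ hA' (Agr.mul hβ hA' hR.1 hE) hR.2)) hL.2

omit [Fintype I] in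
lemma std_isolated {ι : Fin K → Fin (K + 1)} (hι : Function.Injective ι) (e : MA I G Ω W)
    {x y : JJ K × I} {h : G} {ω : Ω}
    (hne : cf (kr (nn ι * (nn ι).transpose) 1 + kr (1 - nn ι * (nn ι).transpose - oo K) e)
      x y h ω ≠ 0) :
    (h = 1 ∧ x = y) ∨ (x.1 = y.1 ∧ ∃ a, x.1 = Sum.inl a ∧ ∀ b, a ≠ ι b) := by
  rw [cf_add, cf_kr, cf_kr] at hne
  by_cases h0 : (1 - nn ι * (nn ι).transpose - oo K) x.1 y.1 = 0
  · left
    rw [h0, Int.cast_zero, zero_mul, add_zero] at hne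
    have h1 : (nn ι * (nn ι).transpose) x.1 y.1 ≠ 0 := by
      intro h1
      apply hne
      rw [h1, Int.cast_zero, zero_mul]
    have h2 := right_ne_zero_of_mul hne
    rw [cf_one] at h2
    have h3 : h = 1 ∧ x.2 = y.2 := by
      by_contra h3
      simp [h3] at h2
    exact ⟨h3.1, Prod.ext (nnt_diag h1) h3.2⟩
  · exact Or.inr (rest_diag hι h0)

/-- No short path crosses the window of `χ` between `b0` and `b1`. -/
def Sq {V : Type} (A : Rl V G) (m : ℕ) (χ : V → ℝ) (b0 b1 : ℝ) : Prop :=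
  ∀ v h v', A.pw m v h v' → ¬ (χ v < b0 ∧ b1 < χ v') ∧ ¬ (χ v' < b0 ∧ b1 < χ v)

theorem squeeze_step (c : Cen G Ω) (H : ∀ ω, c.Z ω ≠ 1) {e : MA I G Ω W} (he : e * e = e)
    (χ : Ω → ℝ) (b β : ℝ) (hβ : 0 ≤ β) (hA : ∀ v h v', gr e v h v' → |χ v'.2 - χ v.2| ≤ β)
    (m : ℕ) :
    ∃ (I' : Type) (_ : Fintype I') (_ : DecidableEq I') (e' : MA I' G Ω W) (π : I' → I),
      e' * e' = e' ∧ c.T e' = c.T e ∧
      (∀ v h v', gr e' v h v' → (gr e).pw 13 (π v.1, v.2) h (π v'.1, v'.2)) ∧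
      Sq (gr e') m (fun v => χ v.2) (b - 13 * β) (b + 13 * β) := by
  set K := 13 * m + 1 with hK
  set φL : MA I G Ω W := wmul (fun _ ω => if χ ω < b then 1 else 0) (1 - e) with hφL
  set φR : MA I G Ω W := wmul (fun _ ω => if χ ω < b then 0 else 1) (1 - e) with hφR
  have hf : Supp (1 - e) (gr e) := (supp_one_gr e).sub (supp_gr e)
  have hfl : ∀ i j h ω, cf (1 - e) i j h ω ≠ 0 → |χ (h⁻¹ • ω) - χ ω| ≤ β :=
    fun i j h ω hne => hA _ _ _ (hf i j h ω hne)
  have hA' : ∀ v h v', gr e v h v' → |(-χ v'.2) - (-χ v.2)| ≤ β := by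
    intro v h v' H
    rw [abs_sub_comm, show -χ v.2 - -χ v'.2 = χ v'.2 - χ v.2 by ring]
    exact hA _ _ _ H
  have aL : Agr (grL K e) χ b β 13 (snake K e φL φR) (snake K e (1 - e) 0) := by
    refine agr_snake hβ hA (hf.wmul _) hf ?_ (hf.wmul _) (Supp.zero _) ?_
    · intro i j h ω hc
      rw [cf_wmul]
      by_cases h0 : cf (1 - e) i j h ω = 0
      · rw [h0, mul_zero]
      · have := abs_le.mp (hfl _ _ _ _ h0)
        rw [if_pos (by rcases hc with hc | hc <;> linarith), one_mul]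
    · intro i j h ω hc
      rw [cf_wmul, cf_zero]
      by_cases h0 : cf (1 - e) i j h ω = 0
      · rw [h0, mul_zero]
      · have := abs_le.mp (hfl _ _ _ _ h0)
        rw [if_pos (by rcases hc with hc | hc <;> linarith), zero_mul]
  have aR : Agr (grL K e) (fun ω => -χ ω) (-b) β 13 (snake K e φL φR) (snake K e 0 (1 - e)) := by
    refine agr_snake hβ hA' (hf.wmul _) (Supp.zero _) ?_ (hf.wmul _) hf ?_
    · intro i j h ω hc
      rw [cf_wmul, cf_zero]
      by_cases h0 : cf (1 - e) i j h ω = 0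
      · rw [h0, mul_zero]
      · have := abs_le.mp (hfl _ _ _ _ h0)
        rw [if_neg (by rcases hc with hc | hc <;> linarith), zero_mul]
    · intro i j h ω hc
      rw [cf_wmul]
      by_cases h0 : cf (1 - e) i j h ω = 0
      · rw [h0, mul_zero]
      · have := abs_le.mp (hfl _ _ _ _ h0)
        rw [if_neg (by rcases hc with hc | hc <;> linarith), one_mul]
  have sL : snake K e (1 - e) 0 = kr (nn Fin.succ * (nn Fin.succ).transpose) 1 +
      kr (1 - nn Fin.succ * (nn Fin.succ).transpose - oo K) e := by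
    rw [snake, rot_zero, rot'_zero, one_mul, mul_one, rot_bigE (Fin.succ_injective K) he]
  have sR : snake K e 0 (1 - e) = kr (nn Fin.castSucc * (nn Fin.castSucc).transpose) 1 +
      kr (1 - nn Fin.castSucc * (nn Fin.castSucc).transpose - oo K) e := by
    rw [snake, rot_zero, rot'_zero, one_mul, mul_one, rot_bigE (Fin.castSucc_injective K) he]
  set z := snake K e φL φR with hz
  have hgr : ∀ v h v', gr z v h v' → (grL K e).pw 13 v h v' := by
    rintro v h v' (⟨rfl, rfl⟩ | ⟨h1, h2⟩)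
    · exact Rl.pw_refl (fun v => ⟨gr_refl _ _, by simp⟩) _ _
    · have := aL.1 _ _ _ _ h2
      rwa [← h1] at this
  have isoL : ∀ v h v', gr z v h v' → v ≠ v' → (χ v.2 < b - 13 * β ∨ χ v'.2 < b - 13 * β) →
      ht v.1.1 = 0 ∧ ht v'.1.1 = 0 := by
    rintro v h v' (⟨rfl, rfl⟩ | ⟨h1, h2⟩) hne hc
    · exact absurd rfl hne
    · rw [aL.2.2 _ _ _ _ (by rw [← h1]; simpa using hc), sL] at h2
      rcases std_isolated (Fin.succ_injective K) e h2 with ⟨rfl, h3⟩ | ⟨h3, a, h4, h5⟩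
      · exact absurd (Prod.ext h3 (by simpa using h1.symm)) hne
      · have : a = 0 := by
          by_contra h6
          obtain ⟨b, hb⟩ := Fin.exists_succ_eq.mpr h6
          exact h5 b hb.symm
        rw [← h3, h4, this]
        simp [ht]
  have isoR : ∀ v h v', gr z v h v' → v ≠ v' → (b + 13 * β < χ v.2 ∨ b + 13 * β < χ v'.2) →
      ht v.1.1 = K ∧ ht v'.1.1 = K := by
    rintro v h v' (⟨rfl, rfl⟩ | ⟨h1, h2⟩) hne hc
    · exact absurd rfl hne
    · rw [aR.2.2 _ _ _ _ (by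
        rw [← h1]
        push_cast
        rcases hc with hc | hc
        · left; linarith
        · right; linarith), sR] at h2
      rcases std_isolated (Fin.castSucc_injective K) e h2 with ⟨rfl, h3⟩ | ⟨h3, a, h4, h5⟩
      · exact absurd (Prod.ext h3 (by simpa using h1.symm)) hne
      · have : a = Fin.last K := by
          by_contra h6
          obtain ⟨b, hb⟩ := Fin.exists_castSucc_eq.mpr h6
          exact h5 b hb.symm
        rw [← h3, h4, this]
        simp [ht]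
  refine ⟨JJ K × I, inferInstance, inferInstance, z, Prod.snd, ?_, ?_, ?_, ?_⟩
  · rw [hz, snake]
    calc _ = rot Fin.succ φL * (rot Fin.castSucc φR * bigE K e * (rot' Fin.castSucc φR *
          (rot' Fin.succ φL * rot Fin.succ φL) * rot Fin.castSucc φR) * bigE K e *
            rot' Fin.castSucc φR) * rot' Fin.succ φL := by simp only [mul_assoc]
      _ = _ := by
        rw [rot'_mul_rot, mul_one, rot'_mul_rot, mul_one, mul_assoc _ (bigE K e) (bigE K e),
          bigE_idem he]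
  · rw [hz, snake, c.T_mul_comm, ← mul_assoc, rot'_mul_rot, one_mul, c.T_mul_comm, ← mul_assoc,
      rot'_mul_rot, one_mul, T_bigE c H]
  · intro v h v' Hv
    have := Rl.pw_map (B := gr e) (c := 1) (fun v : (JJ K × I) × Ω => (v.1.2, v.2))
      (fun v h v' H => Rl.pw_one H.1) (hgr v h v' Hv)
    simpa using this
  · intro v h v' Hv
    have hht : |ht v'.1.1 - ht v.1.1| ≤ m * 13 := by
      refine Rl.pw_lip (fun v : (JJ K × I) × Ω => ht v.1.1) ?_ Hv
      intro v h v' H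
      have := Rl.pw_lip (fun v : (JJ K × I) × Ω => ht v.1.1) (fun v h v' H => H.2) (hgr v h v' H)
      simpa using this
    have hKr : (K : ℝ) = 13 * m + 1 := by rw [hK]; push_cast; ring
    have hht' := abs_le.mp hht
    constructor
    · rintro ⟨h1, h2⟩
      have hne : v ≠ v' := by
        rintro rfl
        linarith
      obtain ⟨x, s, hx, Hx⟩ := Rl.pw_first Hv hne
      obtain ⟨y, s', hy, Hy⟩ := Rl.pw_last Hv hne
      have k1 := (isoL _ _ _ Hx hx.symm (Or.inl h1)).1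
      have k2 := (isoR _ _ _ Hy hy (Or.inr h2)).2
      linarith
    · rintro ⟨h1, h2⟩
      have hne : v ≠ v' := by
        rintro rfl
        linarith
      obtain ⟨x, s, hx, Hx⟩ := Rl.pw_first Hv hne
      obtain ⟨y, s', hy, Hy⟩ := Rl.pw_last Hv hne
      have k1 := (isoR _ _ _ Hx hx.symm (Or.inl h2)).1
      have k2 := (isoL _ _ _ Hy hy (Or.inr h1)).2
      linarith

theorem squeeze_all (c : Cen G Ω) (H : ∀ ω, c.Z ω ≠ 1) {e : MA I G Ω W} (he : e * e = e)
    {V : Type} (s : Finset V) (χ : V → Ω → ℝ) (b : V → ℝ) (β : ℝ) (hβ : 0 ≤ β)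
    (hA : ∀ x ∈ s, ∀ v h v', (gr e).pw (13 ^ s.card) v h v' → |χ x v'.2 - χ x v.2| ≤ β)
    (m : ℕ) :
    ∃ (I' : Type) (_ : Fintype I') (_ : DecidableEq I') (e' : MA I' G Ω W) (π : I' → I),
      e' * e' = e' ∧ c.T e' = c.T e ∧
      (∀ v h v', gr e' v h v' → (gr e).pw (13 ^ s.card) (π v.1, v.2) h (π v'.1, v'.2)) ∧
      ∀ x ∈ s, Sq (gr e') m (fun v => χ x v.2) (b x - 13 * β) (b x + 13 * β) := by
  induction s using Finset.induction_on generalizing m with
  | empty =>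
    exact ⟨I, inferInstance, inferInstance, e, id, he, rfl, fun v h v' Hv => Rl.pw_one Hv,
      by simp⟩
  | insert x s hx ih =>
    rw [Finset.card_insert_of_notMem hx] at hA ⊢
    have hle : 13 ^ s.card ≤ 13 ^ (s.card + 1) := Nat.pow_le_pow_right (by norm_num) (by omega)
    obtain ⟨I1, i1, i2, e1, π1, k1, k2, k3, k4⟩ := ih
      (fun y hy v h v' Hv => hA y (Finset.mem_insert_of_mem hy) v h v'
        (Rl.pw_mono (gr_refl e) hle Hv)) (13 * m)
    obtain ⟨I2, j1, j2, e2, π2, l1, l2, l3, l4⟩ := squeeze_step c H k1 (χ x) (b x) β hβ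
      (fun v h v' Hv => hA x (Finset.mem_insert_self _ _) _ h _
        (Rl.pw_mono (gr_refl e) hle (k3 v h v' Hv))) m
    refine ⟨I2, j1, j2, e2, π1 ∘ π2, l1, l2.trans k2, ?_, ?_⟩
    · intro v h v' Hv
      have := Rl.pw_map (B := gr e) (fun v : I1 × Ω => (π1 v.1, v.2)) k3 (l3 v h v' Hv)
      rw [pow_succ]
      exact this
    · intro y hy
      rcases Finset.mem_insert.mp hy with rfl | hy
      · exact l4
      · intro v h v' Hv
        exact k4 y hy _ h _ (Rl.pw_map (B := gr e1) (fun v : I2 × Ω => (π2 v.1, v.2)) l3 Hv)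

end Step

end Pool.Agent.Lib.MP_7903c7_al
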