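import Pool.Agent.Lib.MP_7903c7_al.Basic

set_option autoImplicit false

namespace Pool.Agent.Lib.MP_7903c7_al

open scoped Classical

/-- An injective equivariant map from `Ω` to `G` with the conjugation action. -/
structure Cen (G Ω : Type) [Group G] [MulAction G Ω] where
  Z : Ω → G
  inj : Function.Injective Z
  conj : ∀ h ω, Z (h • ω) = h * Z ω * h⁻¹

section

variable {G Ω W : Type} [Group G] [MulAction G Ω] [CommRing W]
variable {I : Type} [Fintype I] [DecidableEq I]

lemma Cen.fix (c : Cen G Ω) (ω : Ω) : (c.Z ω)⁻¹ • ω = ω := by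
  apply c.inj
  rw [c.conj]
  group

/-- Evaluation of a function at the point labelled `h`, if any. -/
noncomputable def Cen.ev (c : Cen G Ω) (h : G) : Fn Ω W →+ W where
  toFun f := if H : ∃ ω, c.Z ω = h then f H.choose else 0
  map_zero' := by
    split_ifs
    · rfl
    · rfl
  map_add' f f' := by
    split_ifs
    · rfl
    · simp

lemma Cen.ev_Z (c : Cen G Ω) (ω : Ω) (f : Fn Ω W) : c.ev (c.Z ω) f = f ω := by
  have H : ∃ ω', c.Z ω' = c.Z ω := ⟨ω, rfl⟩
  have : H.choose = ω := c.inj H.choose_spec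
  simp only [Cen.ev, AddMonoidHom.coe_mk, ZeroHom.coe_mk, dif_pos H, this]

lemma Cen.ev_of_not (c : Cen G Ω) {h : G} (H : ¬ ∃ ω, c.Z ω = h) (f : Fn Ω W) :
    c.ev h f = 0 := by
  simp only [Cen.ev, AddMonoidHom.coe_mk, ZeroHom.coe_mk, dif_neg H]

/-- The trace on the skew group ring. -/
noncomputable def Cen.T0 (c : Cen G Ω) : SA G Ω W →+ W :=
  (Finsupp.liftAddHom fun h => c.ev h).comp SkewMonoidAlgebra.coeffAddEquiv.toAddMonoidHom

lemma Cen.T0_single (c : Cen G Ω) (h : G) (f : Fn Ω W) :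
    c.T0 (SkewMonoidAlgebra.single h f) = c.ev h f := by
  simp [Cen.T0]

lemma Cen.T0_eq (c : Cen G Ω) (a : SA G Ω W) :
    c.T0 a = ∑ h ∈ a.support, c.ev h (a.coeff h) := by
  simp only [Cen.T0, AddMonoidHom.comp_apply]
  rfl

lemma Cen.T0_mul_comm (c : Cen G Ω) (a b : SA G Ω W) : c.T0 (a * b) = c.T0 (b * a) := by
  induction a using SkewMonoidAlgebra.induction_on with
  | zero => simp
  | add a a' h1 h2 => rw [add_mul, mul_add, map_add, map_add, h1, h2]
  | single h f =>
    induction b using SkewMonoidAlgebra.induction_on with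
    | zero => simp
    | add b b' h1 h2 => rw [add_mul, mul_add, map_add, map_add, h1, h2]
    | single h' f' =>
      rw [SkewMonoidAlgebra.single_mul_single, SkewMonoidAlgebra.single_mul_single,
        c.T0_single, c.T0_single]
      by_cases H : ∃ ω, c.Z ω = h * h'
      · obtain ⟨ω, hω⟩ := H
        have h2 : c.Z (h⁻¹ • ω) = h' * h := by
          rw [c.conj, hω]; group
        rw [← hω, ← h2, c.ev_Z, c.ev_Z, Fn.mul_apply, Fn.mul_apply, Fn.smul_apply, Fn.smul_apply,
          ← mul_smul, ← mul_inv_rev, ← hω, c.fix, mul_comm]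
      · have H' : ¬ ∃ ω, c.Z ω = h' * h := by
          rintro ⟨ω, hω⟩
          exact H ⟨h • ω, by rw [c.conj, hω]; group⟩
        rw [c.ev_of_not H, c.ev_of_not H']

/-- The trace on matrices. -/
noncomputable def Cen.T (c : Cen G Ω) : MA I G Ω W →+ W where
  toFun a := ∑ i, c.T0 (a i i)
  map_zero' := by simp
  map_add' a b := by simp [Finset.sum_add_distrib]

omit [DecidableEq I] in
lemma Cen.T_apply (c : Cen G Ω) (a : MA I G Ω W) : c.T a = ∑ i, c.T0 (a i i) := rfl

omit [DecidableEq I] in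
lemma Cen.T_mul_comm (c : Cen G Ω) (a b : MA I G Ω W) : c.T (a * b) = c.T (b * a) := by
  simp only [c.T_apply, Matrix.mul_apply, map_sum]
  rw [Finset.sum_comm]
  exact Finset.sum_congr rfl fun i _ => Finset.sum_congr rfl fun j _ => c.T0_mul_comm _ _

omit [DecidableEq I] in
lemma Cen.T_eq_zero (c : Cen G Ω) {a : MA I G Ω W} (H : ∀ i ω, cf a i i (c.Z ω) ω = 0) :
    c.T a = 0 := by
  rw [c.T_apply]
  refine Finset.sum_eq_zero fun i _ => ?_
  rw [c.T0_eq]
  refine Finset.sum_eq_zero fun h _ => ?_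
  by_cases Hh : ∃ ω, c.Z ω = h
  · obtain ⟨ω, rfl⟩ := Hh
    rw [c.ev_Z]
    exact H i ω
  · exact c.ev_of_not Hh _

omit [DecidableEq I] in
lemma Cen.T_eq_zero_of_supp (c : Cen G Ω) {a : MA I G Ω W} {A : Rl (I × Ω) G} (Ha : Supp a A)
    (H : ∀ v, ¬ A v (c.Z v.2) v) : c.T a = 0 := by
  refine c.T_eq_zero fun i ω => ?_
  by_contra hne
  have := Ha _ _ _ _ hne
  rw [c.fix] at this
  exact H (i, ω) this

lemma Cen.T_one (c : Cen G Ω) (H : ∀ ω, c.Z ω ≠ 1) : c.T (1 : MA I G Ω W) = 0 := by
  refine c.T_eq_zero fun i ω => ?_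
  rw [cf_one]
  simp [H ω]

lemma Cen.T_intCast_mul (c : Cen G Ω) (z : ℤ) (a : MA I G Ω W) :
    c.T ((z : MA I G Ω W) * a) = z * c.T a := by
  induction z using Int.induction_on with
  | zero => simp
  | succ n ih => rw [Int.cast_add, Int.cast_one, add_mul, one_mul, map_add, ih]; push_cast; ring
  | pred n ih => rw [Int.cast_sub, Int.cast_one, sub_mul, one_mul, map_sub, ih]; push_cast; ring

/-- Multiplication of coefficients by a weight function. -/
noncomputable def wmul0 (wt : G → Ω → W) (a : SA G Ω W) : SA G Ω W :=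
  ⟨Finsupp.onFinset a.support (fun h => fun ω => wt h ω * a.coeff h ω) (by
    intro h hne
    rw [SkewMonoidAlgebra.mem_support_iff]
    intro h0
    apply hne
    funext ω
    simp [h0, Fn.zero_apply])⟩

/-- Multiplication of matrix coefficients by a weight function. -/
noncomputable def wmul (wt : G → Ω → W) (a : MA I G Ω W) : MA I G Ω W := fun i j => wmul0 wt (a i j)

omit [Group G] [MulAction G Ω] [Fintype I] [DecidableEq I] in
lemma cf_wmul (wt : G → Ω → W) (a : MA I G Ω W) (i j : I) (h : G) (ω : Ω) :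
    cf (wmul wt a) i j h ω = wt h ω * cf a i j h ω := rfl

omit [Fintype I] [DecidableEq I] in
lemma Supp.wmul {a : MA I G Ω W} {A : Rl (I × Ω) G} (Ha : Supp a A) (wt : G → Ω → W) :
    Supp (wmul wt a) A := fun _ _ _ _ hne => Ha _ _ _ _ (right_ne_zero_of_mul hne)

omit [DecidableEq I] in
lemma Cen.T_wmul (c : Cen G Ω) (wt : G → Ω → W) (ζ : W) (hζ : ∀ ω, wt (c.Z ω) ω = ζ)
    (a : MA I G Ω W) : c.T (wmul wt a) = ζ * c.T a := by
  rw [c.T_apply, c.T_apply, Finset.mul_sum]
  refine Finset.sum_congr rfl fun i _ => ?_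
  have h1 : c.T0 (wmul wt a i i) = ∑ h ∈ (a i i).support, c.ev h ((wmul wt a i i).coeff h) := by
    rw [c.T0_eq]
    refine Finset.sum_subset ?_ ?_
    · intro x hx
      rw [SkewMonoidAlgebra.mem_support_iff] at hx ⊢
      intro h0
      apply hx
      funext ω
      show wt x ω * (a i i).coeff x ω = 0
      rw [h0, Fn.zero_apply, mul_zero]
    · intro x _ hx
      rw [SkewMonoidAlgebra.notMem_support_iff] at hx
      rw [hx, map_zero]
  rw [h1, c.T0_eq, Finset.mul_sum]
  refine Finset.sum_congr rfl fun h _ => ?_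
  by_cases Hh : ∃ ω, c.Z ω = h
  · obtain ⟨ω, rfl⟩ := Hh
    rw [c.ev_Z, c.ev_Z, ← hζ ω]
    rfl
  · rw [c.ev_of_not Hh, c.ev_of_not Hh, mul_zero]

variable {W' : Type} [CommRing W']

/-- Coefficientwise application of a zero preserving map. -/
noncomputable def cmap (s : W → W') (s0 : s 0 = 0) (a : MA I G Ω W) : MA I G Ω W' :=
  fun i j => ⟨Finsupp.mapRange (fun (f : Fn Ω W) => (fun ω => s (f ω) : Fn Ω W'))
    (by funext ω; exact s0) (a i j).coeff⟩

omit [Group G] [MulAction G Ω] [Fintype I] [DecidableEq I] in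
lemma cf_cmap (s : W → W') (s0 : s 0 = 0) (a : MA I G Ω W) (i j : I) (h : G) (ω : Ω) :
    cf (cmap s s0 a) i j h ω = s (cf a i j h ω) := rfl

omit [Fintype I] [DecidableEq I] in
lemma Supp.cmap {a : MA I G Ω W} {A : Rl (I × Ω) G} (Ha : Supp a A) (s : W → W') (s0 : s 0 = 0) :
    Supp (cmap s s0 a) A := by
  intro i j h ω hne
  apply Ha
  intro h0
  apply hne
  rw [cf_cmap, h0, s0]

/-- Change of coefficients as a ring homomorphism. -/
noncomputable def mapHom (π : W →+* W') : MA I G Ω W →+* MA I G Ω W' where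
  toFun := cmap π (map_zero π)
  map_zero' := cf_ext fun i j h ω => by simp [cf_cmap]
  map_add' a b := cf_ext fun i j h ω => by simp [cf_cmap]
  map_one' := cf_ext fun i j h ω => by
    rw [cf_cmap, cf_one, cf_one]
    split_ifs <;> simp
  map_mul' a b := cf_ext fun i j h ω => by
    rw [cf_cmap, cf_mul a b (lab a) (fun _ _ _ _ => mem_lab),
      cf_mul (cmap π (map_zero π) a) _ (lab a)]
    · simp [cf_cmap]
    · intro i j h ω hne
      refine mem_lab (i := i) (j := j) (ω := ω) ?_
      intro h0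
      apply hne
      rw [cf_cmap, h0, map_zero]

lemma cf_mapHom (π : W →+* W') (a : MA I G Ω W) (i j : I) (h : G) (ω : Ω) :
    cf (mapHom π a) i j h ω = π (cf a i j h ω) := rfl

lemma Cen.T_mapHom (c : Cen G Ω) (π : W →+* W') (a : MA I G Ω W) :
    c.T (mapHom π a) = π (c.T a) := by
  rw [c.T_apply, c.T_apply, map_sum]
  refine Finset.sum_congr rfl fun i _ => ?_
  have h1 : c.T0 (mapHom π a i i) = ∑ h ∈ (a i i).support, c.ev h ((mapHom π a i i).coeff h) := by
    rw [c.T0_eq]
    refine Finset.sum_subset ?_ ?_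
    · intro x hx
      rw [SkewMonoidAlgebra.mem_support_iff] at hx ⊢
      intro h0
      apply hx
      funext ω
      show π ((a i i).coeff x ω) = 0
      rw [h0, Fn.zero_apply, map_zero]
    · intro x _ hx
      rw [SkewMonoidAlgebra.notMem_support_iff] at hx
      rw [hx, map_zero]
  rw [h1, c.T0_eq, map_sum]
  refine Finset.sum_congr rfl fun h _ => ?_
  by_cases Hh : ∃ ω, c.Z ω = h
  · obtain ⟨ω, rfl⟩ := Hh
    rw [c.ev_Z, c.ev_Z]
    rfl
  · rw [c.ev_of_not Hh, c.ev_of_not Hh, map_zero]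

/-- Constant functions. -/
def constHom (Ω W : Type) [CommRing W] : W →+* Fn Ω W where
  toFun r := fun _ => r
  map_one' := rfl
  map_mul' _ _ := rfl
  map_zero' := rfl
  map_add' _ _ := rfl

/-- The embedding of the group ring. -/
noncomputable def emb0 (G Ω W : Type) [Group G] [MulAction G Ω] [CommRing W] :
    MonoidAlgebra W G →+* SA G Ω W :=
  MonoidAlgebra.liftNCRingHom (SkewMonoidAlgebra.singleOneRingHom.comp (constHom Ω W))
    (SkewMonoidAlgebra.of (Fn Ω W) G) (by
      intro x y
      show SkewMonoidAlgebra.single 1 (constHom Ω W x) * SkewMonoidAlgebra.single y 1 =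
        SkewMonoidAlgebra.single y 1 * SkewMonoidAlgebra.single 1 (constHom Ω W x)
      rw [SkewMonoidAlgebra.single_mul_single, SkewMonoidAlgebra.single_mul_single]
      simp only [one_mul, mul_one, smul_one]
      rfl)

lemma emb0_single (h : G) (r : W) :
    emb0 G Ω W (MonoidAlgebra.single h r) = SkewMonoidAlgebra.single h (constHom Ω W r) := by
  rw [emb0, MonoidAlgebra.liftNCRingHom_single]
  show SkewMonoidAlgebra.single 1 (constHom Ω W r) * SkewMonoidAlgebra.single h 1 = _
  rw [SkewMonoidAlgebra.single_mul_single]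
  simp

/-- Sum of the coefficients over a set of group elements. -/
noncomputable def tau0 (C : G → Prop) : MonoidAlgebra W G →+ W where
  toFun a := a.coeff.sum fun h r => if C h then r else 0
  map_zero' := by simp
  map_add' a b := by
    rw [MonoidAlgebra.coeff_add, Finsupp.sum_add_index']
    · intro h; simp
    · intro h r r'
      split_ifs <;> simp

omit [Group G] in
lemma tau0_single (C : G → Prop) (h : G) (r : W) :
    tau0 C (MonoidAlgebra.single h r) = if C h then r else 0 := by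
  show (MonoidAlgebra.single h r).coeff.sum (fun h r => if C h then r else (0 : W)) = _
  rw [MonoidAlgebra.coeff_single, Finsupp.sum_single_index]
  simp

lemma Cen.T0_emb0 (c : Cen G Ω) (a : MonoidAlgebra W G) :
    c.T0 (emb0 G Ω W a) = tau0 (fun h => ∃ ω, c.Z ω = h) a := by
  induction a using MonoidAlgebra.induction_linear with
  | zero => simp
  | add a b h1 h2 => rw [map_add, map_add, map_add, h1, h2]
  | single h r =>
    rw [emb0_single, c.T0_single, tau0_single]
    by_cases H : ∃ ω, c.Z ω = h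
    · rw [if_pos H]
      obtain ⟨ω, rfl⟩ := H
      rw [c.ev_Z]
      rfl
    · rw [if_neg H, c.ev_of_not H]

end

end Pool.Agent.Lib.MP_7903c7_al
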