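import Pool.Agent.Lib.MP_7903c7_al.Par
import Pool.Agent.Lib.MP_7903c7_al.Frob

set_option autoImplicit false

namespace Pool.Agent.Lib.MP_7903c7_al

open scoped Classical MatrixGroups
open Matrix

/-- The unipotent element attached to a square zero matrix. -/
def uni {R : Type} [CommRing R] (ν : M2 R) (h : ν * ν = 0) : GL (Fin 2) R :=
  ⟨1 + ν, 1 - ν, by rw [mul_sub, add_mul, add_mul, h]; simp,
    by rw [mul_add, sub_mul, sub_mul, h]; simp⟩

/-- The projective class is that of the nontrivial unipotent `1 + ν`. -/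
def Uni {K : Type} [Field K] (γ : PGL(2, K)) (ν : M2 K) : Prop :=
  ∃ h : ν * ν = 0, ν ≠ 0 ∧ ProjGenLinGroup.mk (uni ν h) = γ

lemma cayley {R : Type} [CommRing R] (M : M2 R) : M * M = M.trace • M - M.det • (1 : M2 R) := by
  ext i j
  fin_cases i <;> fin_cases j <;>
    simp [Matrix.mul_apply, Fin.sum_univ_two, Matrix.trace_fin_two, Matrix.det_fin_two] <;> ring

lemma mk_eq_iff {K : Type} [Field K] {M M' : GL (Fin 2) K} :
    ProjGenLinGroup.mk M = ProjGenLinGroup.mk M' ↔ ∃ u : K, u ≠ 0 ∧ M'.val = u • M.val := by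
  rw [ProjGenLinGroup.mk_eq_mk_iff]
  constructor
  · rintro ⟨u, rfl⟩
    refine ⟨u, u.ne_zero, ?_⟩
    ext i j
    simp [mul_comm]
  · rintro ⟨u, hu, h⟩
    refine ⟨Units.mk0 u hu, Units.ext ?_⟩
    rw [h]
    ext i j
    simp [mul_comm]

section

variable {K : Type} [Field K]

lemma trace_nil {ν : M2 K} (h : ν * ν = 0) : ν.trace = 0 := by
  have hd : ν.det = 0 := by
    have := congrArg Matrix.det h
    rw [Matrix.det_mul, Matrix.det_zero] at this
    exact mul_self_eq_zero.mp this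
  have h1 := cayley ν
  rw [h, hd, zero_smul, sub_zero] at h1
  rcases smul_eq_zero.mp h1.symm with h2 | h2
  · exact h2
  · rw [h2, Matrix.trace_zero]

lemma Uni.unique [CharZero K] {γ : PGL(2, K)} {ν ν' : M2 K} (H : Uni γ ν) (H' : Uni γ ν') :
    ν = ν' := by
  obtain ⟨h, -, h1⟩ := H
  obtain ⟨h', -, h2⟩ := H'
  obtain ⟨u, -, hu⟩ := mk_eq_iff.mp (h1.trans h2.symm)
  have hu' : 1 + ν' = u • (1 + ν) := hu
  have h3 := congrArg Matrix.trace hu'
  rw [Matrix.trace_smul, Matrix.trace_add, Matrix.trace_add, trace_nil h, trace_nil h',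
    Matrix.trace_one] at h3
  have h4 : u = 1 := by
    simp only [Fintype.card_fin, Nat.cast_ofNat, add_zero, smul_eq_mul] at h3
    have h5 : (2 : K) ≠ 0 := two_ne_zero
    exact (mul_right_cancel₀ h5 (by rw [← h3, one_mul])).symm.symm
  rw [h4, one_smul] at hu'
  exact (add_left_cancel hu').symm

lemma Uni.conj {γ : PGL(2, K)} {ν : M2 K} (H : Uni γ ν) (P : GL (Fin 2) K) :
    Uni (ProjGenLinGroup.mk P * γ * (ProjGenLinGroup.mk P)⁻¹) (P.val * ν * (P⁻¹).val) := by
  obtain ⟨h, h0, rfl⟩ := H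
  refine ⟨?_, ?_, ?_⟩
  · calc _ = P.val * ν * ((P⁻¹).val * P.val) * ν * (P⁻¹).val := by simp only [mul_assoc]
      _ = 0 := by rw [Units.inv_mul, mul_one, mul_assoc P.val, h]; simp
  · intro h1
    apply h0
    calc ν = ((P⁻¹).val * P.val) * ν * ((P⁻¹).val * P.val) := by rw [Units.inv_mul]; simp
      _ = (P⁻¹).val * (P.val * ν * (P⁻¹).val) * P.val := by simp only [mul_assoc]
      _ = 0 := by rw [h1]; simp
  · rw [← map_inv, ← map_mul, ← map_mul]
    congr 1
    apply Units.ext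
    show 1 + P.val * ν * (P⁻¹).val = P.val * (1 + ν) * (P⁻¹).val
    rw [mul_add, add_mul, mul_one, Units.mul_inv]

lemma pow_formula {L : Type} [Field L] (M : M2 L) {a b : L} (ht : M.trace = a + b)
    (hd : M.det = a * b) (j : ℕ) :
    (a - b) • M ^ j = (a ^ j - b ^ j) • M - (a ^ j * b - a * b ^ j) • (1 : M2 L) := by
  induction j with
  | zero => simp; module
  | succ j ih =>
    rw [pow_succ, ← smul_mul_assoc, ih, sub_mul, smul_mul_assoc, smul_mul_assoc, cayley, ht, hd,
      one_mul, pow_succ, pow_succ]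
    module

theorem uni_of_conj_pow [CharZero K] {δ : PGL(2, K)} {Q : ℕ} (hQ : 1 < Q)
    (hc : IsConj δ (δ ^ Q)) (hinf : ¬ IsOfFinOrder δ) : ∃ ν, Uni δ ν := by
  obtain ⟨M, rfl⟩ := ProjGenLinGroup.mk_surjective δ
  obtain ⟨P', hP⟩ := isConj_iff.mp hc
  obtain ⟨P, rfl⟩ := ProjGenLinGroup.mk_surjective P'
  rw [← map_inv, ← map_mul, ← map_mul, ← map_pow] at hP
  obtain ⟨u, -, hu⟩ := mk_eq_iff.mp hP
  rw [Units.val_pow_eq_pow_val, Units.val_mul, Units.val_mul] at hu
  have htr : (M.val ^ Q).trace = u * M.val.trace := by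
    rw [hu, Matrix.trace_smul, Matrix.trace_units_conj, smul_eq_mul]
  have hdet : M.val.det ^ Q = u ^ 2 * M.val.det := by
    rw [← Matrix.det_pow, hu, Matrix.det_smul, Matrix.det_units_conj, Fintype.card_fin]
  have hd0 : M.val.det ≠ 0 := GeneralLinearGroup.det_ne_zero M
  have hscal : ∀ N : ℕ, 0 < N → ∀ t : K, M.val ^ N ≠ t • (1 : M2 K) := by
    intro N hN t ht
    apply hinf
    refine isOfFinOrder_iff_pow_eq_one.mpr ⟨N, hN, ?_⟩
    rw [← map_pow, ← ProjGenLinGroup.mk_one, eq_comm, mk_eq_iff]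
    refine ⟨t, ?_, ht⟩
    rintro rfl
    have := congrArg Matrix.det ht
    rw [Matrix.det_pow, zero_smul, Matrix.det_zero] at this
    exact pow_ne_zero _ hd0 this
  have hdisc : M.val.trace ^ 2 = 4 * M.val.det := by
    let L := AlgebraicClosure K
    let φ : K →+* L := algebraMap K L
    obtain ⟨r, hr⟩ := IsAlgClosed.exists_eq_mul_self (φ (M.val.trace ^ 2 - 4 * M.val.det))
    by_contra hne
    have hr0 : r ≠ 0 := by
      rintro rfl
      apply hne
      rw [mul_zero, map_eq_zero_iff φ φ.injective] at hr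
      exact sub_eq_zero.mp hr
    have h2 : (2 : L) ≠ 0 := two_ne_zero
    have h2' : (2 : L) * (2 : L)⁻¹ = 1 := mul_inv_cancel₀ h2
    set a := (φ M.val.trace + r) * (2 : L)⁻¹ with ha
    set b := (φ M.val.trace - r) * (2 : L)⁻¹ with hb
    have hab : a - b = r := by rw [ha, hb]; linear_combination r * h2'
    have ht : (φ.mapMatrix M.val).trace = a + b := by
      rw [RingHom.mapMatrix_apply, ← AddMonoidHom.map_trace φ, ha, hb]
      linear_combination (-φ M.val.trace) * h2'
    have hd : (φ.mapMatrix M.val).det = a * b := by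
      rw [← RingHom.map_det, ha, hb]
      rw [map_sub, map_mul, map_pow, map_ofNat] at hr
      linear_combination (-(2 : L)⁻¹ ^ 2) * hr - φ M.val.det * (2 * (2 : L)⁻¹ + 1) * h2'
    have hpf := pow_formula (φ.mapMatrix M.val) ht hd
    have ht' : φ M.val.trace = a + b := by
      rw [← ht, RingHom.mapMatrix_apply, ← AddMonoidHom.map_trace φ]
    have hd' : φ M.val.det = a * b := by rw [← hd, RingHom.map_det]
    have hab0 : a * b ≠ 0 := by
      rw [← hd']; exact (map_ne_zero φ).mpr hd0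
    have k1 : a ^ Q + b ^ Q = φ u * (a + b) := by
      have h3 := congrArg Matrix.trace (hpf Q)
      rw [Matrix.trace_sub, Matrix.trace_smul, Matrix.trace_smul, Matrix.trace_smul, ht,
        Matrix.trace_one, ← map_pow, RingHom.mapMatrix_apply, ← AddMonoidHom.map_trace φ, htr,
        map_mul, ht'] at h3
      simp only [smul_eq_mul, Fintype.card_fin, Nat.cast_ofNat] at h3
      apply mul_left_cancel₀ (hab ▸ hr0 : a - b ≠ 0)
      linear_combination -h3
    have k2 : a ^ Q * b ^ Q = φ u ^ 2 * (a * b) := by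
      have := congrArg φ hdet
      rw [map_pow, map_mul, map_pow, hd', mul_pow] at this
      exact this
    have k3 : (a ^ Q * b - b ^ Q * a) * (a ^ Q * a - b ^ Q * b) = 0 := by
      linear_combination (a * b * (a ^ Q + b ^ Q + φ u * (a + b))) * k1 - (a + b) ^ 2 * k2
    obtain ⟨N, hN, hN'⟩ : ∃ N : ℕ, 0 < N ∧ a ^ N = b ^ N := by
      rcases mul_eq_zero.mp k3 with h | h
      · obtain ⟨N, rfl⟩ : ∃ N, Q = N + 1 := ⟨Q - 1, by omega⟩
        refine ⟨N, by omega, ?_⟩
        apply mul_left_cancel₀ hab0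
        linear_combination h
      · exact ⟨Q + 1, by omega, by linear_combination h⟩
    have k4 := hpf N
    rw [hN', sub_self, zero_smul, zero_sub, ← map_pow, hab] at k4
    have e01 : (M.val ^ N) 0 1 = 0 := by
      have := congrFun (congrFun k4 0) 1
      simpa [hr0] using this
    have e10 : (M.val ^ N) 1 0 = 0 := by
      have := congrFun (congrFun k4 1) 0
      simpa [hr0] using this
    have e11 : (M.val ^ N) 1 1 = (M.val ^ N) 0 0 := by
      have h0 := congrFun (congrFun k4 0) 0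
      have h1 := congrFun (congrFun k4 1) 1
      simp only [Matrix.smul_apply, RingHom.mapMatrix_apply, Matrix.map_apply, Matrix.neg_apply,
        Matrix.one_apply_eq, smul_eq_mul] at h0 h1
      exact φ.injective (mul_left_cancel₀ hr0 (h1.trans h0.symm))
    refine hscal N hN ((M.val ^ N) 0 0) ?_
    ext i j
    fin_cases i <;> fin_cases j <;> simp [e01, e10, e11]
  set t := M.val.trace / 2 with ht
  have htd : t * t = M.val.det := by
    rw [ht]; field_simp; linear_combination hdisc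
  have ht0 : t ≠ 0 := by
    intro h0
    rw [h0, mul_zero] at htd
    exact hd0 htd.symm
  have htr2 : M.val.trace = 2 * t := by rw [ht]; field_simp
  refine ⟨t⁻¹ • M.val - 1, ?_, ?_, ?_⟩
  · rw [sub_mul, mul_sub, mul_sub, smul_mul_assoc, mul_smul_comm, cayley, htr2, ← htd, mul_one,
      one_mul, mul_one]
    ext i j
    simp only [Matrix.sub_apply, Matrix.smul_apply, smul_eq_mul, Matrix.zero_apply]
    field_simp
    ring
  · intro h0
    refine hscal 1 one_pos t ?_
    rw [pow_one, ← sub_eq_zero.mp h0, smul_smul, mul_inv_cancel₀ ht0, one_smul]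
  · rw [mk_eq_iff]
    refine ⟨t, ht0, ?_⟩
    show M.val = t • (1 + (t⁻¹ • M.val - 1))
    rw [add_sub_cancel, smul_smul, mul_inv_cancel₀ ht0, one_smul]

theorem exists_specialise [CharZero K] {Φ : Set K} (hΦ : Φ.Finite) (ξ : Subring.closure Φ)
    (hξ : ξ ≠ 0) :
    ∃ (K' : Type) (_ : Field K') (_ : NumberField K') (σ : Subring.closure Φ →+* K') (Φ' : Set K'),
      σ ξ ≠ 0 ∧ Φ'.Finite ∧ ∀ r, σ r ∈ Subring.closure Φ' := by
  let A := Algebra.adjoin ℚ Φ
  have : Algebra.FiniteType ℚ A := .adjoin_of_finite hΦ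
  have : IsJacobsonRing A := isJacobsonRing_of_finiteType (A := ℚ)
  have hle : Subring.closure Φ ≤ A.toSubring := Subring.closure_le.mpr Algebra.subset_adjoin
  let ι : Subring.closure Φ →+* A := Subring.inclusion hle
  have hιξ : ι ξ ≠ 0 := fun h0 => hξ (Subtype.ext (congrArg (fun z : A => (z : K)) h0))
  obtain ⟨m, hm, hxm⟩ := exists_maximal_notMem hιξ
  let := Ideal.Quotient.field m
  have hfin := finite_of_finite_type_of_isJacobsonRing ℚ (A ⧸ m)
  let σ : Subring.closure Φ →+* A ⧸ m := (Ideal.Quotient.mk m).comp ι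
  refine ⟨A ⧸ m, inferInstance, NumberField.of_module_finite ℚ (A ⧸ m), σ,
    σ '' (Subtype.val ⁻¹' Φ), ?_, (hΦ.preimage Subtype.val_injective.injOn).image _, ?_⟩
  · intro h0
    exact hxm (Ideal.Quotient.eq_zero_iff_mem.mp h0)
  · rintro ⟨r, hr⟩
    induction hr using Subring.closure_induction with
    | mem x hx => exact Subring.subset_closure ⟨⟨x, Subring.subset_closure hx⟩, hx, rfl⟩
    | zero => exact (map_zero σ) ▸ Subring.zero_mem _
    | one => exact (map_one σ) ▸ Subring.one_mem _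
    | add x y hx hy h1 h2 => exact (map_add σ ⟨x, hx⟩ ⟨y, hy⟩) ▸ Subring.add_mem _ h1 h2
    | neg x hx h1 => exact (map_neg σ ⟨x, hx⟩) ▸ Subring.neg_mem _ h1
    | mul x y hx hy h1 h2 => exact (map_mul σ ⟨x, hx⟩ ⟨y, hy⟩) ▸ Subring.mul_mem _ h1 h2

lemma prop_of_mk_eq {R : Subring K} {M M' : GL (Fin 2) R}
    (h : ProjGenLinGroup.mk (GeneralLinearGroup.map R.subtype M) =
      ProjGenLinGroup.mk (GeneralLinearGroup.map R.subtype M')) :
    ∃ a : R, M.val = a • M'.val := by
  have h1 : ProjGenLinGroup.mk (1 : GL (Fin 2) K) =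
      ProjGenLinGroup.mk (GeneralLinearGroup.map R.subtype (M'⁻¹ * M)) := by
    rw [map_mul, map_mul, map_inv, map_inv, h, inv_mul_cancel, map_one]
  obtain ⟨u, -, hu⟩ := mk_eq_iff.mp h1
  have h2 : ∀ i j, (((M'⁻¹ * M).val i j : R) : K) = u * (1 : M2 K) i j :=
    fun i j => congrFun (congrFun hu i) j
  refine ⟨(M'⁻¹ * M).val 0 0, ?_⟩
  have h3 : (M'⁻¹ * M).val = (M'⁻¹ * M).val 0 0 • (1 : M2 R) := by
    ext i j
    rw [h2, Matrix.smul_apply, smul_eq_mul, Subring.coe_mul, h2]
    fin_cases i <;> fin_cases j <;> simp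
  calc M.val = M'.val * (M'⁻¹ * M).val := by rw [← Units.val_mul, mul_inv_cancel_left]
    _ = _ := by
      conv_lhs => rw [h3]
      rw [mul_smul_comm, mul_one]

lemma exists_lift_M2 {R : Subring K} (M : M2 K) (h : ∀ i j, M i j ∈ R) :
    ∃ M' : M2 R, R.subtype.mapMatrix M' = M :=
  ⟨Matrix.of fun i j => ⟨M i j, h i j⟩, by ext i j; rfl⟩

lemma mapMatrix_injective (R : Subring K) :
    Function.Injective (R.subtype.mapMatrix : M2 R → M2 K) :=
  Matrix.map_injective R.subtype_injective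

lemma exists_lift_GL {R : Subring K} (M : GL (Fin 2) K) (h : ∀ i j, M.val i j ∈ R)
    (h' : ∀ i j, (M⁻¹).val i j ∈ R) :
    ∃ M' : GL (Fin 2) R, GeneralLinearGroup.map R.subtype M' = M := by
  obtain ⟨A, hA⟩ := exists_lift_M2 _ h
  obtain ⟨B, hB⟩ := exists_lift_M2 _ h'
  refine ⟨⟨A, B, mapMatrix_injective R ?_, mapMatrix_injective R ?_⟩, Units.ext hA⟩
  · rw [map_mul, hA, hB, map_one, Units.mul_inv]
  · rw [map_mul, hA, hB, map_one, Units.inv_mul]

end

end Pool.Agent.Lib.MP_7903c7_al
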